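import Pool.Agent.Lib.ST61.Kit2

/-! From generators to words. -/

set_option autoImplicit false

namespace Pool.Agent.Lib.ST61

open MvPolynomial

namespace bCLOS

variable {K σ : Type} [Field K] [DecidableEq σ]

theorem tri {i j a : σ} (hij : i ≠ j) (ha : a = i ∨ a = j) {c : K} (hc : c ≠ 0)
    {q : MvPolynomial σ K} (hq : q ∈ supported K ({a}ᶜ : Set σ)) {ψ : GA σ K}
    (h1 : ψ (X a) = C c * X a + q) (h2 : ∀ l, l ≠ a → ψ (X l) = X l) :
    TmS i j (ψ (X i)) (ψ (X j)) := by
  rcases ha with ha | ha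
  · rw [ha] at hq h1 h2
    rw [h2 j hij.symm]
    refine TmS.swap ((TmS.base (i := i) (j := j)).swap.step c 1 (rename (Equiv.swap i j) q) hc
      one_ne_zero ?_ ?_)
    · refine sup_map hq (φ := rename (Equiv.swap i j)) fun l hl => ?_
      rw [rename_X]
      refine X_sup fun e => hl ?_
      have e' : Equiv.swap i j l = j := e
      rw [Equiv.swap_apply_eq_iff, Equiv.swap_apply_right] at e'
      exact e'
    · rw [C_1, one_mul, h1, add_right_inj]
      refine (sup_fix hq (φ := (aeval (Function.update X i (X j))).comp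
        (rename (Equiv.swap i j))) fun l hl => ?_).symm
      have hl' : l ≠ i := hl
      rw [AlgHom.comp_apply, rename_X, aeval_X]
      by_cases e : l = j
      · rw [e, Equiv.swap_apply_right, Function.update_self]
      · rw [Equiv.swap_apply_of_ne_of_ne hl' e, Function.update_of_ne hl']
  · rw [ha] at hq h1 h2
    rw [h2 i hij]
    refine (TmS.base (i := i) (j := j)).step c 1 q hc one_ne_zero hq ?_
    rw [C_1, one_mul, h1, Function.update_eq_self, aeval_X_left_apply]

omit [DecidableEq σ] in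
theorem c_ne {a : σ} {c : K} {q : MvPolynomial σ K} (hq : q ∈ supported K ({a}ᶜ : Set σ))
    {ψ : GA σ K} (h1 : ψ (X a) = C c * X a + q) (h2 : ∀ l, l ≠ a → ψ (X l) = X l) : c ≠ 0 := by
  intro hc
  rw [hc, C_0, zero_mul, zero_add, ← sup_fix' hq (φ := ψ) fun l hl => h2 l hl] at h1
  have h3 := ψ.injective h1
  have h4 := pderiv_sup (s := ({a}ᶜ : Set σ)) (l := a) (fun e => e rfl) hq
  rw [← h3, pderiv_X_self] at h4
  exact one_ne_zero h4

end bCLOS

theorem st_CLOS : St_CLOS := by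
  intro K _ n i j hij
  refine ⟨?_, fun S hS ψ hψ => ?_⟩
  · rintro ψ ⟨a, ha, c, q, hq, h1, h2⟩
    have ha' : a = i ∨ a = j := ha
    have hq' : q ∈ supported K ({a}ᶜ : Set (Fin n)) :=
      mem_supported.mpr fun l hl e => hq (by have e' : l = a := e; rw [← e']; exact hl)
    have hc := bCLOS.c_ne hq' h1 h2
    have h2' : ∀ l, l ≠ a → ψ⁻¹ (X l) = X l := fun l hl => inv_fix (h2 l hl)
    refine ⟨fun l e1 e2 => h2 l ?_, bCLOS.tri hij ha' hc hq' h1 h2,
      bCLOS.tri hij ha' (inv_ne_zero hc) (neg_mem (mul_mem (C_mem _ c⁻¹) hq')) ?_ h2'⟩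
    · rcases ha' with e | e
      · rw [e]; exact e1
      · rw [e]; exact e2
    · have e1 := congrArg (ψ⁻¹ : GA (Fin n) K) h1
      rw [inv_apply_apply, map_add, map_mul, map_C', sup_fix' hq' fun l hl => h2' l hl] at e1
      have e2 : (C c⁻¹ : MvPolynomial (Fin n) K) * C c = 1 := by
        rw [← C_mul, inv_mul_cancel₀ hc, C_1]
      linear_combination (-C c⁻¹ : MvPolynomial (Fin n) K) * e1 - ψ⁻¹ (X a) * e2
  · have H : ψ ∈ Fx K i j ∧ TmS i j (ψ (X i)) (ψ (X j)) ∧ TmS i j (ψ⁻¹ (X i)) (ψ⁻¹ (X j)) := by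
      induction hψ using Subgroup.closure_induction with
      | mem x hx => exact hS x hx
      | one => exact ⟨one_mem _, TmS.base, TmS.base⟩
      | mul x y _ _ hx hy =>
        refine ⟨mul_mem hx.1 hy.1, TmS.comp (φ := (x : EN (Fin n) K)) hx.1 hx.2.1 hy.2.1, ?_⟩
        rw [mul_inv_rev]
        exact TmS.comp (φ := ((y⁻¹ : GA (Fin n) K) : EN (Fin n) K)) (inv_mem hy.1) hy.2.2 hx.2.2
      | inv x _ hx => exact ⟨inv_mem hx.1, hx.2.2, by rw [inv_inv]; exact hx.2.1⟩
    exact H.2.1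

end Pool.Agent.Lib.ST61
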