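import Pool.Agent.Lib.ST61.Kit2

/-! Clearing denominators. -/

set_option autoImplicit false

namespace Pool.Agent.Lib.ST61

open MvPolynomial

namespace bCLR

variable {σ : Type}

theorem clear_c (r : RatFunc ℂ) :
    ∃ a b : Rt, b ≠ 0 ∧ algebraMap Rt (RatFunc ℂ) a = algebraMap Rt (RatFunc ℂ) b * r := by
  obtain ⟨a, b, hb, rfl⟩ := IsFractionRing.div_surjective (A := Rt) r
  have hb0 : b ≠ 0 := nonZeroDivisors.ne_zero hb
  refine ⟨a, b, hb0, ?_⟩
  rw [mul_div_cancel₀ _ ((map_ne_zero_iff _ (IsFractionRing.injective Rt (RatFunc ℂ))).2 hb0)]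

theorem clear {s : Set σ} {q : MvPolynomial σ (RatFunc ℂ)} (hq : q ∈ supported (RatFunc ℂ) s) :
    ∃ e : Rt, e ≠ 0 ∧ ∃ q0 ∈ supported Rt s, io q0 = C (algebraMap Rt (RatFunc ℂ) e) * q := by
  induction hq using Algebra.adjoin_induction with
  | mem x hx =>
    obtain ⟨l, hl, rfl⟩ := hx
    exact ⟨1, one_ne_zero, X l, X_sup hl, by rw [io_X, map_one, map_one, one_mul]⟩
  | algebraMap r =>
    obtain ⟨a, b, hb, h⟩ := clear_c r
    exact ⟨b, hb, C a, C_mem _ _, by rw [io_C, h, map_mul, algebraMap_eq]⟩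
  | add x y _ _ hx hy =>
    obtain ⟨e, he, p, hp, h⟩ := hx
    obtain ⟨e', he', p', hp', h'⟩ := hy
    refine ⟨e * e', mul_ne_zero he he', C e' * p + C e * p',
      add_mem (mul_mem (C_mem _ _) hp) (mul_mem (C_mem _ _) hp'), ?_⟩
    simp only [map_add, map_mul, io_C, h, h']
    ring
  | mul x y _ _ hx hy =>
    obtain ⟨e, he, p, hp, h⟩ := hx
    obtain ⟨e', he', p', hp', h'⟩ := hy
    refine ⟨e * e', mul_ne_zero he he', p * p', mul_mem hp hp', ?_⟩
    simp only [map_mul, h, h']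
    ring

variable [DecidableEq σ]

theorem io_upd (i : σ) (f q : MvPolynomial σ Rt) :
    io (aeval (Function.update X i f) q) = aeval (Function.update X i (io f)) (io q) := by
  induction q using MvPolynomial.induction_on with
  | C r => rw [map_CE, io_C, map_CE]
  | add a b ha hb => simp only [map_add, ha, hb]
  | mul_X a l ha =>
    rw [map_mul, map_mul, map_mul, map_mul, ha, io_X, aeval_X, aeval_X]
    by_cases h : l = i
    · rw [h, Function.update_self, Function.update_self]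
    · rw [Function.update_of_ne h, Function.update_of_ne h, io_X]

theorem upd_scale (i : σ) {e : RatFunc ℂ} (he : e ≠ 0) (F q : MvPolynomial σ (RatFunc ℂ)) :
    aeval (Function.update X i (C e * F)) (mu i e⁻¹ q) = aeval (Function.update X i F) q := by
  have h : (aeval (Function.update X i (C e * F)) : EN σ (RatFunc ℂ)).comp (mu i e⁻¹) =
      aeval (Function.update X i F) := algHom_ext fun l => by
    by_cases h : l = i
    · rw [h, AlgHom.comp_apply, mu_X, map_mul, map_CE, aeval_X, aeval_X, Function.update_self,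
        Function.update_self, ← mul_assoc, ← map_mul, inv_mul_cancel₀ he, map_one, one_mul]
    · rw [AlgHom.comp_apply, mu_X_ne _ h, aeval_X, aeval_X, Function.update_of_ne h,
        Function.update_of_ne h]
  exact DFunLike.congr_fun h q

theorem inv {i j : σ} {F G : MvPolynomial σ (RatFunc ℂ)} (h : TmS i j F G) :
    ∃ e1 e2 : Rt, e1 ≠ 0 ∧ e2 ≠ 0 ∧ ∃ f g : MvPolynomial σ Rt, TmS i j f g ∧
      io f = C (algebraMap Rt (RatFunc ℂ) e1) * F ∧
      io g = C (algebraMap Rt (RatFunc ℂ) e2) * G := by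
  have hi := IsFractionRing.injective Rt (RatFunc ℂ)
  induction h with
  | base =>
    exact ⟨1, 1, one_ne_zero, one_ne_zero, X i, X j, TmS.base,
      by rw [io_X, map_one, map_one, one_mul], by rw [io_X, map_one, map_one, one_mul]⟩
  | swap _ ih =>
    obtain ⟨e1, e2, h1, h2, f, g, h3, h4, h5⟩ := ih
    exact ⟨e2, e1, h2, h1, g, f, h3.swap, h5, h4⟩
  | @step F G G' c d q _ hc hd hq e ih =>
    obtain ⟨e1, e2, h1, h2, f, g, h3, h4, h5⟩ := ih
    obtain ⟨e3, h6, q0, hq0, h7⟩ := clear (mu_sup (j := i) (algebraMap Rt (RatFunc ℂ) e1)⁻¹ hq)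
    obtain ⟨e4, h8, g', -, h9⟩ := clear (s := Set.univ) (q := G')
      (by rw [supported_univ]; trivial)
    obtain ⟨c1, c2, hc2, hcc⟩ := clear_c c
    obtain ⟨d1, d2, hd2, hdd⟩ := clear_c d
    have hc1 : c1 ≠ 0 := fun h => mul_ne_zero ((map_ne_zero_iff _ hi).2 hc2) hc
      (by rw [← hcc, h, map_zero])
    have hd1 : d1 ≠ 0 := fun h => mul_ne_zero ((map_ne_zero_iff _ hi).2 hd2) hd
      (by rw [← hdd, h, map_zero])
    refine ⟨e1, e4, h1, h8, f, g', h3.step (e3 * e4 * d2 * c1) (e2 * e3 * c2 * d1)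
      (C (e2 * e4 * d2 * c2) * q0) (mul_ne_zero (mul_ne_zero (mul_ne_zero h6 h8) hd2) hc1)
      (mul_ne_zero (mul_ne_zero (mul_ne_zero h2 h6) hc2) hd1) (mul_mem (C_mem _ _) hq0)
      (io_inj ?_), h4, h9⟩
    have h10 : io (aeval (Function.update X i f) q0) =
        C (algebraMap Rt (RatFunc ℂ) e3) * aeval (Function.update X i F) q := by
      rw [io_upd, h7, map_mul, map_CE, h4, upd_scale i ((map_ne_zero_iff _ hi).2 h1)]
    rw [map_mul (aeval (Function.update X i f)), map_CE]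
    simp only [map_add, map_mul, io_C, h5, h9, h10, hcc, hdd]
    linear_combination (C (algebraMap Rt (RatFunc ℂ) e2) * C (algebraMap Rt (RatFunc ℂ) e3) *
      C (algebraMap Rt (RatFunc ℂ) e4) * C (algebraMap Rt (RatFunc ℂ) d2) *
      C (algebraMap Rt (RatFunc ℂ) c2)) * e

end bCLR

theorem st_CLR : St_CLR := by
  intro σ _ i j _ f g h
  obtain ⟨e1, e2, h1, h2, f0, g0, h3, h4, h5⟩ := bCLR.inv h
  have h6 : C e1 * f = C 1 * f0 := io_inj (by rw [map_one, one_mul, map_mul, io_C, h4])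
  have h7 : C e2 * g = C 1 * g0 := io_inj (by rw [map_one, one_mul, map_mul, io_C, h5])
  exact ((h3.scale one_ne_zero h2 h7).swap.scale one_ne_zero h1 h6).swap

end Pool.Agent.Lib.ST61
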