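import Pool.Agent.Lib.ST61.B_M3

set_option autoImplicit false

namespace Pool.Agent.Lib.ST61

open MvPolynomial bM3

namespace bDOWN

variable {σ : Type} [Fintype σ] [DecidableEq σ] {i j : σ}

theorem approx (hM : St_M) (h3 : 3 ≤ Fintype.card σ) (hij : i ≠ j) {c c' : ℂ} (hc : c ≠ c') :
    P2 i j ≤ Kc σ (pc c) ⊔ (Pass j (pc c') (HH i j) ⊓ HH i j) := by
  refine P2_le (fun l hl G hG => ?_) fun a ha => Subgroup.mem_sup_right
    ⟨hM σ h3 i j hij c' _ (P2_le_HH (dg_mem_P2 ha)) ⟨0, _, by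
      rw [dg_X, mul_zero, zero_add, mul_comm]⟩, P2_le_HH (dg_mem_P2 ha)⟩
  have h1 : C (pc c') * (cc Rt σ (c - c')⁻¹ * G) ∈ supported Rt ({l}ᶜ : Set σ) :=
    mul_mem (C_mem _ _) (mul_mem (cc_mem _ _) hG)
  have h2 := P2_le_HH (shs_mem_P2 hl h1)
  refine mem_sup_of_cong (Subgroup.mem_sup_right ⟨hM σ h3 i j hij c' _ h2 ?_, h2⟩) fun m => ?_
  · by_cases e : j = l
    · exact ⟨cc Rt σ (c - c')⁻¹ * G, 1, by rw [e, shs_X h1, mul_one, add_comm]⟩
    · exact ⟨0, 1, by rw [shs_X_ne h1 e, mul_zero, zero_add, mul_one]⟩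
  · by_cases e : m = l
    · rw [e, shs_X h1, shs_X hG, dvd_iff_red]
      simp only [map_sub, map_add, map_mul, red_C, red_cc, pc,
        Polynomial.eval_X, Polynomial.eval_C]
      rw [← map_sub, ← mul_assoc, ← map_mul, mul_inv_cancel₀ (sub_ne_zero.mpr hc), map_one, one_mul,
        sub_self]
    · rw [shs_X_ne h1 e, shs_X_ne hG e, sub_self]; exact dvd_zero _

end bDOWN

open bDOWN in
theorem st_DOWN (hM : St_M) (hT : St_TR) : St_DOWN := by
  intro σ _ _ h3 i j hij r
  induction r with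
  | zero =>
    intro c B h _
    generalize e : B * mu j (pc c) = B0 at h
    cases h with
    | base _ => exact absurd e.symm (aut_ne_mu _ B c)
  | succ r ih =>
    intro c B h hN
    have hB : ∀ l, l ≠ i → l ≠ j → B (X l) = X l := fun l h1 h2 => by
      have := h.fix l h1 h2
      rwa [EN_mul_apply, mu_X_ne _ h2] at this
    generalize e : B * mu j (pc c) = B0 at h
    cases h with
    | @step _ B1 c' a h1 ha =>
      by_cases hc : c = c'
      · subst hc
        have e1 : B * mu j (pc c) * ((a⁻¹ : GA σ Rt) : EN σ Rt) = B1 * mu j (pc c) := by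
          rw [e, mul_assoc, ← coe_mul, mul_inv_cancel, coe_one, mul_one]
        have e2 := DFunLike.congr_fun e1 (X j)
        rw [EN_mul_apply, EN_mul_apply, EN_mul_apply, coe_apply, mu_X, map_mul, map_CE] at e2
        have e3 := cong_map B (mu_cong j (p := pc c) (d := pc c) (e := 0) (by rw [sub_zero])
          (a⁻¹ (X j)))
        rw [e2] at e3
        obtain ⟨x, hx⟩ := hT σ i j hij c B hB hN _ (mu_zero_sup j (a⁻¹ (X j)))
          ((dvd_sub_right (Dvd.intro _ rfl)).mp e3)
        obtain ⟨y, hy⟩ := X_dvd_sub j (a⁻¹ (X j))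
        obtain ⟨γ, g1, g2⟩ := hM σ h3 i j hij c _ (inv_mem ha) ⟨x, y, by linear_combination hx + hy⟩
        rw [mul_assoc, g2, ← mul_assoc] at e1
        have e4 := h1.mul (inv_mem g1)
        rw [← mu_cancel (pc_ne_zero c) e1, mul_assoc, ← coe_mul, mul_inv_cancel, coe_one,
          mul_one] at e4
        exact ⟨r, e4⟩
      · obtain ⟨η, ⟨⟨η', k1, k2⟩, k3⟩, k4⟩ := cong_of_mem_sup
          (sup_le le_sup_left (approx hM h3 hij hc) ((mem_HH.mp ha).2.2 c))
        have k5 : ∀ x, C (pc c) ∣ (a⁻¹ * η) x - x := fun x => by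
          have := cong_map ((a⁻¹ : GA σ Rt) : EN σ Rt) (dvd_sub_comm.mp (k4 x))
          rwa [coe_apply, coe_apply, inv_apply_apply] at this
        obtain ⟨z, hz⟩ := k5 (X j)
        obtain ⟨γ, g1, g2⟩ := hM σ h3 i j hij c _ (mul_mem (inv_mem ha) k3)
          ⟨z, 1, by linear_combination hz⟩
        have e1 : B * (γ : EN σ Rt) * mu j (pc c) = B1 * (η' : EN σ Rt) * mu j (pc c') := by
          rw [mul_assoc, ← g2, ← mul_assoc, e, mul_assoc, ← coe_mul, mul_inv_cancel_left,
            mul_assoc, k2, mul_assoc]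
        have e2 := DFunLike.congr_fun e1 (X j)
        rw [EN_mul_apply _ (mu j _), EN_mul_apply _ (mu j _), mu_X, mu_X, map_mul, map_mul, map_CE,
          map_CE] at e2
        obtain ⟨B2, e3⟩ := exists_div (j := j) (d := pc c) (B := B1 * (η' : EN σ Rt)) (by
          have := congrArg (red c) e2
          rw [map_mul, map_mul, red_pc, zero_mul, red_C, pc, Polynomial.eval_sub, Polynomial.eval_X,
            Polynomial.eval_C] at this
          exact dvd_iff_red.mpr ((mul_eq_zero.mp this.symm).resolve_left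
            (C_ne_zero.mpr (sub_ne_zero.mpr hc))))
        have e4 : B * (γ : EN σ Rt) = B2 * mu j (pc c') := mu_cancel (j := j) (pc_ne_zero c) (by
          rw [e1, e3, mul_assoc, mul_assoc, mu_mul, mu_mul, mul_comm (pc c)])
        have e5 : B2 (X i) = B (mu j (pc c) ((a⁻¹ * η) (X i))) := by
          have f1 := DFunLike.congr_fun e4 (X i)
          have f2 := DFunLike.congr_fun g2 (X i)
          rw [EN_mul_apply, EN_mul_apply, mu_X_ne _ hij] at f1 f2
          rw [← f1, ← f2, coe_apply]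
        have e6 := cong_map B (cong_map (mu j (pc c)) (k5 (X i)))
        rw [← e5, mu_X_ne _ hij] at e6
        obtain ⟨r', e7⟩ := ih c B2 (e3 ▸ h1.mul k1) (hN.cong (dvd_sub_comm.mp e6))
        have e8 := Mon.step c' e7 (inv_mem g1)
        rw [← e4, mul_assoc, ← coe_mul, mul_inv_cancel, coe_one, mul_one] at e8
        exact ⟨_, e8⟩

end Pool.Agent.Lib.ST61
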