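import Pool.Agent.Lib.ST61.Kit2

set_option autoImplicit false

namespace Pool.Agent.Lib.ST61

open MvPolynomial

theorem st_F1 (h : St_SP) : St_F1 := by
  intro σ _ p u u' g hu hg hg' n hn
  have key : ∀ n ∈ N1 ℂ σ p, sh u' g * n * (sh u' g)⁻¹ ∈ Nu p u := by
    intro n hn
    refine conj_closure _ ?_ hn
    rintro _ ⟨v, G, hG, rfl⟩
    rcases dep_or_sep u v with ⟨c, hc⟩ | hsep
    · have hc0 : c ≠ 0 := fun e => hu (by rw [hc, e, zero_smul])
      have hv : v = c⁻¹ • u := by rw [hc, smul_smul, inv_mul_cancel₀ hc0, one_smul]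
      have hG' : G ∈ Au Rt u := by rwa [hc, Au_smul hc0]
      have h1 : cc Rt σ c⁻¹ * G ∈ Au Rt u := mul_mem (cc_mem _ _) hG'
      rw [hv, sh_smul _ (mul_mem (C_mem _ _) hG'), mul_left_comm,
        sh_conj hg' hg (mul_mem (C_mem _ _) h1), map_mul, map_C']
      exact N1_le_Nu p u (sh_mem_N1 p (sh_map_Au hg' hg h1))
    · refine (sum_sh (Γ := (Nu p u).comap (MulAut.conj (sh u' g)).toMonoidHom) ?_ (C p)
        (C_mem _ _) ?_ ((h σ v).2 u hsep G hG)).2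
      · rintro F ⟨ℓ, h1, -, h3⟩
        exact A1_le_Au h1 h3
      rintro F ⟨ℓ, h1, h2, h3⟩
      show sh u' g * sh v (C p * F) * (sh u' g)⁻¹ ∈ Nu p u
      have hF : F ∈ Au Rt v := A1_le_Au h1 h3
      rcases dep_or_sep u' u with ⟨c, hc⟩ | ⟨m, m1, m2⟩
      · rw [hc, sh_smul _ hg]
        exact conj_mem_Nu p (mul_mem (cc_mem _ _) hg) (N1_le_Nu p u (sh_mem_N1 p hF))
      · obtain ⟨m', e1, e2⟩ : ∃ m' : σ → ℂ, m' ⬝ᵥ u = 0 ∧ (ℓ + (ℓ ⬝ᵥ u) • m') ⬝ᵥ u' = 0 := by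
          refine ⟨(-(ℓ ⬝ᵥ u') / ((ℓ ⬝ᵥ u) * (m ⬝ᵥ u'))) • m, ?_, ?_⟩
          · rw [smul_dotProduct, m1, smul_zero]
          · simp only [add_dotProduct, smul_dotProduct, smul_eq_mul]
            field_simp
            ring
        have hm : L Rt m' ∈ Au Rt u := L_mem_Au e1
        have e3 := lin_conj e1 (mul_mem (C_mem _ p) hF)
        rw [map_mul, map_C'] at e3
        have e4 := small_conj p (lin_map_Au e1 hF) (A1_le_Au e2 (lin_map_A1 e1 h3)) hg'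
        have e5 := sh_conj hg' hg hm
        have e6 := sh_map_Au hg' hg hm
        have e7 := conj_mem_Nu p (neg_mem e6) (N1_le_Nu p u e4)
        rw [← sh_inv e6, ← e5, ← e3] at e7
        have e8 : ∀ a b c : GA σ Rt,
            (a * b * a⁻¹)⁻¹ * (a * (b * c * b⁻¹) * a⁻¹) * (a * b * a⁻¹)⁻¹⁻¹ = a * c * a⁻¹ :=
          fun a b c => by group
        rwa [e8] at e7
  refine conj_closure _ ?_ hn
  rintro _ ⟨F, hF, n, hn, rfl⟩
  have e1 := conj_mem_Nu p (sh_map_Au hg' hg hF) (key n hn)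
  rw [← sh_conj hg' hg hF] at e1
  have e8 : ∀ a b c : GA σ Rt,
      a * b * a⁻¹ * (a * c * a⁻¹) * (a * b * a⁻¹)⁻¹ = a * (b * c * b⁻¹) * a⁻¹ :=
    fun a b c => by group
  rwa [e8] at e1

end Pool.Agent.Lib.ST61
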