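import Pool.Agent.Lib.ST61.Kit2

set_option autoImplicit false

namespace Pool.Agent.Lib.ST61

open MvPolynomial

namespace bF2

variable {σ : Type} [Fintype σ]

theorem sum_mem {u : σ → ℂ} (s : List ((σ → ℂ) × MvPolynomial σ Rt))
    (hs : ∀ q ∈ s, q.1 ⬝ᵥ u = 0 ∧ q.2 ∈ A1 Rt q.1) : (s.map Prod.snd).sum ∈ Au Rt u :=
  list_sum_mem fun x hx => by
    obtain ⟨q, hq, rfl⟩ := List.mem_map.mp hx
    exact A1_le_Au (hs q hq).1 (hs q hq).2

theorem exists_list {u : σ → ℂ} {F : MvPolynomial σ Rt}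
    (hF : F ∈ AddSubmonoid.closure {F | ∃ ℓ : σ → ℂ, ℓ ⬝ᵥ u = 0 ∧ F ∈ A1 Rt ℓ}) :
    ∃ s : List ((σ → ℂ) × MvPolynomial σ Rt), (∀ q ∈ s, q.1 ⬝ᵥ u = 0 ∧ q.2 ∈ A1 Rt q.1) ∧
      F = (s.map Prod.snd).sum := by
  induction hF using AddSubmonoid.closure_induction with
  | mem x hx =>
    obtain ⟨ℓ, h1, h2⟩ := hx
    exact ⟨[(ℓ, x)], by simp [h1, h2], by simp⟩
  | zero => exact ⟨[], by simp, by simp⟩
  | add x y _ _ hx hy =>
    obtain ⟨s, h1, rfl⟩ := hx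
    obtain ⟨t, h2, rfl⟩ := hy
    exact ⟨s ++ t, fun q hq => (List.mem_append.mp hq).elim (h1 q) (h2 q), by simp⟩

theorem peel {p : Rt} {u v : σ → ℂ} {Γ : Subgroup (GA σ Rt)} {F F' G : MvPolynomial σ Rt}
    (hF : F ∈ Au Rt u) (hv : F ∈ Au Rt v) (hF' : F' ∈ Au Rt u) (hG : G ∈ Au Rt v)
    (ih : ∀ n ∈ N1 ℂ σ p, sh u F' * n * (sh u F')⁻¹ ∈ Γ) :
    sh u (F + F') * sh v (C p * G) * (sh u (F + F'))⁻¹ ∈ Γ := by
  have e1 := ih _ (sh_mem_N1 p (sh_map_Au hF hv hG))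
  have e2 := sh_conj hF hv (mul_mem (C_mem _ p) hG)
  rw [map_mul, map_C'] at e2
  rw [← e2] at e1
  rw [add_comm, ← sh_mul hF' hF]
  have e8 : ∀ a b c : GA σ Rt, a * (b * c * b⁻¹) * a⁻¹ = a * b * c * (a * b)⁻¹ :=
    fun a b c => by group
  rwa [e8] at e1

end bF2

open bF2 in
theorem st_F2 (h : St_SP) (h1 : St_F1) : St_F2 := by
  intro σ _ h3 p u m hu
  have key : ∀ (r : ℕ) (s : List ((σ → ℂ) × MvPolynomial σ Rt)), s.length = r →
      (∀ q ∈ s, q.1 ⬝ᵥ u = 0 ∧ q.2 ∈ A1 Rt q.1) → ∀ n ∈ N1 ℂ σ p,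
      sh u (s.map Prod.snd).sum * n * (sh u (s.map Prod.snd).sum)⁻¹ ∈ Nm p m := by
    intro r
    induction r using Nat.strong_induction_on with
    | _ r ih =>
      intro s hr hs n hn
      match s, hr, hs with
      | [], _, _ =>
        obtain ⟨u1, e0, e1, -⟩ := exists_ker h3 m m
        rw [List.map_nil, List.sum_nil, sh_zero, one_mul, inv_one, mul_one]
        exact Nu_le_Nm p e0 e1 (N1_le_Nu p u1 hn)
      | [a], _, hs =>
        obtain ⟨u1, e0, e1, e2⟩ := exists_ker h3 m a.1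
        have ha := hs a (by simp)
        rw [List.map_singleton, List.sum_singleton]
        exact Nu_le_Nm p e0 e1
          (h1 σ p u1 u a.2 e0 (A1_le_Au e2 ha.2) (A1_le_Au ha.1 ha.2) n (N1_le_Nu p u1 hn))
      | a :: b :: t, hr, hs =>
        have ha := hs a (by simp)
        have hb := hs b (by simp)
        have ht : ∀ q ∈ t, q.1 ⬝ᵥ u = 0 ∧ q.2 ∈ A1 Rt q.1 := fun q hq => hs q (by simp [hq])
        have hl : ∀ c, (c :: t).length < r := fun c => by rw [← hr]; simp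
        have hc : ∀ c : (σ → ℂ) × MvPolynomial σ Rt, c.1 ⬝ᵥ u = 0 ∧ c.2 ∈ A1 Rt c.1 →
            ∀ q ∈ c :: t, q.1 ⬝ᵥ u = 0 ∧ q.2 ∈ A1 Rt q.1 := fun c hc q hq =>
          (List.mem_cons.mp hq).elim (fun e => e ▸ hc) (ht q)
        rcases dep_or_sep b.1 a.1 with ⟨c, hc'⟩ | ⟨e, e1, e2⟩
        · have := ih _ (hl (a.1, a.2 + b.2)) _ rfl
            (hc _ ⟨ha.1, add_mem ha.2 (A1_smul_le c a.1 (hc' ▸ hb.2))⟩) n hn
          simpa only [List.map_cons, List.sum_cons, add_assoc] using this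
        have hF := sum_mem _ hs
        refine conj_closure _ ?_ hn
        rintro _ ⟨v, G, hG, rfl⟩
        rcases dep_or_sep u v with ⟨c, hc'⟩ | hsep
        · have hc0 : c ≠ 0 := fun e => hu (by rw [hc', e, zero_smul])
          have hv : Au Rt u = Au Rt v := by rw [hc', Au_smul hc0]
          obtain ⟨u1, e0, e1, -⟩ := exists_ker h3 m m
          rw [sh_conj hF (hv ▸ hF) (mul_mem (C_mem _ p) hG), map_mul, map_C']
          exact Nu_le_Nm p e0 e1 (N1_le_Nu p u1 (sh_mem_N1 p (sh_map_Au hF (hv ▸ hF) hG)))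
        refine (sum_sh (Γ := (Nm p m).comap (MulAut.conj (sh u _)).toMonoidHom) ?_ (C p)
          (C_mem _ _) ?_ ((h σ v).2 u hsep G hG)).2
        · rintro F ⟨ℓ, h1, -, h3⟩
          exact A1_le_Au h1 h3
        rintro F ⟨ℓ, l1, l2, l3⟩
        show sh u _ * sh v (C p * F) * (sh u _)⁻¹ ∈ Nm p m
        rw [dotProduct_comm] at e1 e2
        obtain ⟨va, vb, rfl, f1, f2, f3, f4⟩ : ∃ va vb : σ → ℂ, v = va + vb ∧ ℓ ⬝ᵥ va = 0 ∧
            a.1 ⬝ᵥ va = 0 ∧ ℓ ⬝ᵥ vb = 0 ∧ b.1 ⬝ᵥ vb = 0 := by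
          refine ⟨(b.1 ⬝ᵥ v / b.1 ⬝ᵥ e) • (e - (ℓ ⬝ᵥ e / ℓ ⬝ᵥ u) • u),
            v - (b.1 ⬝ᵥ v / b.1 ⬝ᵥ e) • (e - (ℓ ⬝ᵥ e / ℓ ⬝ᵥ u) • u), by simp, ?_, ?_, ?_, ?_⟩ <;>
          simp only [dotProduct_sub, dotProduct_smul, smul_eq_mul, l1, e1, ha.1, hb.1] <;>
          field_simp <;> ring
        have g1 : F ∈ Au Rt va := A1_le_Au f1 l3
        have g2 : F ∈ Au Rt vb := A1_le_Au f3 l3
        have k1 := peel (A1_le_Au ha.1 ha.2) (A1_le_Au f2 ha.2) (sum_mem _ (hc b hb)) g1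
          (ih _ (hl b) _ rfl (hc b hb))
        have k2 := peel (A1_le_Au hb.1 hb.2) (A1_le_Au f4 hb.2) (sum_mem _ (hc a ha)) g2
          (ih _ (hl a) _ rfl (hc a ha))
        simp only [List.map_cons, List.sum_cons] at k1 k2 ⊢
        rw [add_left_comm] at k2
        rw [sh_add_dir (mul_mem (C_mem _ p) g1) (mul_mem (C_mem _ p) g2)
          (mul_mem (C_mem _ p) (A1_le_Au l1 l3))]
        have e8 : ∀ a b c : GA σ Rt, a * (b * c) * a⁻¹ = a * b * a⁻¹ * (a * c * a⁻¹) :=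
          fun a b c => by group
        rw [e8]
        exact mul_mem k1 k2
  refine (Subgroup.closure_le _).mpr ?_
  rintro _ ⟨F, hF, n, hn, rfl⟩
  obtain ⟨s, hs, rfl⟩ := exists_list ((h σ u).1 F hF)
  exact key _ s rfl hs n hn

end Pool.Agent.Lib.ST61
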