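import Pool.Agent.Lib.ST61.Kit2

set_option autoImplicit false

namespace Pool.Agent.Lib.ST61

open MvPolynomial

namespace bF3

variable {σ : Type} [Fintype σ]

theorem conj_Nm {p : Rt} {m : σ → ℂ} {Γ : Subgroup (GA σ Rt)} (g : GA σ Rt)
    (h : ∀ u : σ → ℂ, u ≠ 0 → m ⬝ᵥ u = 0 → ∀ n ∈ Nu p u, g * n * g⁻¹ ∈ Γ) {n : GA σ Rt}
    (hn : n ∈ Nm p m) : g * n * g⁻¹ ∈ Γ :=
  Nm_le (Γ := Γ.comap (MulAut.conj g).toMonoidHom) h hn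

theorem mem_norm {G : Type} [Group G] {N : Subgroup G} {g : G} (h : ∀ n ∈ N, g * n * g⁻¹ ∈ N)
    (h' : ∀ n ∈ N, g⁻¹ * n * g⁻¹⁻¹ ∈ N) : g ∈ Subgroup.normalizer (N : Set G) :=
  Subgroup.mem_normalizer_iff.mpr fun n => ⟨h n, fun e => by simpa [mul_assoc] using h' _ e⟩

theorem dg_N {p : Rt} (a : σ → ℂˣ) {n : GA σ Rt} (hn : n ∈ Nm p (0 : σ → ℂ)) :
    dg Rt a * n * (dg Rt a)⁻¹ ∈ Nm p (0 : σ → ℂ) := by
  refine conj_Nm _ (fun u hu _ n hn => ?_) hn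
  have h0 : (fun l => (((a l)⁻¹ : ℂˣ) : ℂ) * u l) ≠ 0 := fun e => hu (funext fun l =>
    (mul_eq_zero.mp (congrFun e l)).resolve_left (Units.ne_zero _))
  refine Nu_le_Nm p h0 (zero_dotProduct _) (conj_closure _ ?_ hn)
  rintro _ ⟨F, hF, n, hn, rfl⟩
  have e1 : dg Rt a * n * (dg Rt a)⁻¹ ∈ N1 ℂ σ p := by
    refine conj_closure _ ?_ hn
    rintro _ ⟨v, G, hG, rfl⟩
    rw [dg_conj a (mul_mem (C_mem _ p) hG), map_mul, map_C']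
    exact sh_mem_N1 p (dg_map_Au a hG)
  have e2 := conj_mem_Nu p (dg_map_Au a hF) (N1_le_Nu p _ e1)
  rw [← dg_conj a hF] at e2
  have e8 : ∀ a b c : GA σ Rt,
      a * b * a⁻¹ * (a * c * a⁻¹) * (a * b * a⁻¹)⁻¹ = a * (b * c * b⁻¹) * a⁻¹ :=
    fun a b c => by group
  rwa [e8] at e2

end bF3

open bF3 in
theorem st_F3 (h : St_SP) (h1 : St_F1) (h2 : St_F2) : St_F3 := by
  intro σ _ h3 p
  have one : ∀ (u ℓ : σ → ℂ) (F : MvPolynomial σ Rt), ℓ ⬝ᵥ u = 0 → F ∈ A1 Rt ℓ →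
      ∀ n ∈ Nm p (0 : σ → ℂ), sh u F * n * (sh u F)⁻¹ ∈ Nm p (0 : σ → ℂ) := by
    intro u ℓ F e hF n hn
    refine conj_Nm (m := ℓ) _ (fun u1 e0 e1 n hn => ?_)
      (Nm_le (fun u1 e0 _ => h2 σ h3 p u1 ℓ e0) hn)
    exact Nu_le_Nm p e0 (zero_dotProduct _)
      (h1 σ p u1 u F e0 (A1_le_Au e1 hF) (A1_le_Au e hF) n hn)
  have : TT ℂ Rt σ ≤ Subgroup.normalizer (Nm p (0 : σ → ℂ) : Set (GA σ Rt)) := by
    refine (Subgroup.closure_le _).mpr ?_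
    rintro _ (⟨u, G, hG, rfl⟩ | ⟨a, rfl⟩)
    · have := (sum_sh (u := u) (Γ := Subgroup.normalizer (Nm p (0 : σ → ℂ) : Set (GA σ Rt))) ?_ 1
        (one_mem _) ?_ ((h σ u).1 G hG)).2
      · rwa [one_mul] at this
      · rintro F ⟨ℓ, h1, h3⟩
        exact A1_le_Au h1 h3
      · rintro F ⟨ℓ, h1, h3⟩
        rw [one_mul]
        refine mem_norm (one u ℓ F h1 h3) ?_
        rw [sh_inv (A1_le_Au h1 h3)]
        exact one u ℓ _ h1 (neg_mem h3)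
    · refine mem_norm (fun n => dg_N a) ?_
      rw [dg_inv]
      exact fun n => dg_N _
  exact fun α hα n hn => (Subgroup.mem_normalizer_iff.mp (this hα) n).mp hn

end Pool.Agent.Lib.ST61
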