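import Pool.Agent.Lib.ST61.Kit2

set_option autoImplicit false

namespace Pool.Agent.Lib.ST61

open MvPolynomial

namespace bF4

variable {σ : Type} [Fintype σ]

/-- evaluation of the coefficients -/
noncomputable def ev (c : ℂ) : MvPolynomial σ Rt →+* MvPolynomial σ Rt := lft.comp (red c)

omit [Fintype σ] in
theorem ev_X (c : ℂ) (l : σ) : ev c (X l) = X l := by rw [ev, RingHom.comp_apply, red_X, lft_X]

omit [Fintype σ] in
theorem ev_C (c : ℂ) (r : Rt) : ev c (C r) = cc Rt σ (r.eval c) := by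
  rw [ev, RingHom.comp_apply, red_C, lft_C]

omit [Fintype σ] in
theorem ev_cc (c a : ℂ) : ev c (cc Rt σ a) = cc Rt σ a := by
  rw [ev, RingHom.comp_apply, red_cc, lft_C]

theorem ev_L (c : ℂ) (ℓ : σ → ℂ) : ev c (L Rt ℓ) = L Rt ℓ := by
  simp only [L, map_sum, map_mul, ev_cc, ev_X]

theorem ev_Au (c : ℂ) {u : σ → ℂ} {G : MvPolynomial σ Rt} (h : G ∈ Au Rt u) :
    ev c G ∈ Au Rt u ∧ ∃ e ∈ Au Rt u, G = ev c G + C (pc c) * e := by
  induction h using Algebra.adjoin_induction with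
  | mem x hx =>
    obtain ⟨ℓ, hl, rfl⟩ := hx
    rw [ev_L]
    exact ⟨L_mem_Au hl, 0, zero_mem _, by rw [mul_zero, add_zero]⟩
  | algebraMap r =>
    rw [algebraMap_eq, ev_C]
    obtain ⟨e, he⟩ := Polynomial.X_sub_C_dvd_sub_C_eval (a := c) (p := r)
    refine ⟨cc_mem _ _, C e, C_mem _ _, ?_⟩
    rw [← map_mul, pc, ← he, cc_eq_C, Polynomial.algebraMap_eq, ← map_add, add_sub_cancel]
  | add x y _ _ hx hy =>
    obtain ⟨h1, a, ha, ea⟩ := hx
    obtain ⟨h2, b, hb, eb⟩ := hy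
    rw [map_add]
    exact ⟨add_mem h1 h2, a + b, add_mem ha hb, by linear_combination ea + eb⟩
  | mul x y k1 k2 hx hy =>
    obtain ⟨h1, a, ha, ea⟩ := hx
    obtain ⟨h2, b, hb, eb⟩ := hy
    rw [map_mul]
    exact ⟨mul_mem h1 h2, a * y + ev c x * b, add_mem (mul_mem ha k2) (mul_mem h1 hb),
      by linear_combination y * ea + ev c x * eb⟩

omit [Fintype σ] in
theorem rel_ext (c : ℂ) {α π : GA σ Rt} (h : ∀ l, ev c (α (X l)) = π (X l))
    (a : MvPolynomial σ Rt) : ev c (α a) = π (ev c a) := by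
  induction a using MvPolynomial.induction_on with
  | C r => rw [map_C', ev_C, map_cc']
  | add a b ha hb => simp only [map_add, ha, hb]
  | mul_X a l ha => simp only [map_mul, ha, h, ev_X]

end bF4

open bF4 in
theorem st_F4 (h : St_F3) : St_F4 := by
  intro σ _ h3 c α hα hK
  have key : α ∈ TT ℂ Rt σ ∧ ∃ π ∈ TT ℂ Rt σ, (∀ a, ev c (α a) = π (ev c a)) ∧
      α * π⁻¹ ∈ Nm (pc c) (0 : σ → ℂ) := by
    clear hK
    induction hα using Subgroup.closure_induction with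
    | mem x hx =>
      refine ⟨Subgroup.subset_closure hx, ?_⟩
      rcases hx with ⟨u, G, hG, rfl⟩ | ⟨a, rfl⟩
      · obtain ⟨h1, e, he, ee⟩ := ev_Au c hG
        refine ⟨sh u (ev c G), sh_mem_TT h1, rel_ext c fun l => ?_, ?_⟩
        · rw [sh_X hG, sh_X h1, map_add, map_mul, ev_X, ev_cc]
        · obtain ⟨u1, e0, e1, -⟩ := exists_ker h3 (0 : σ → ℂ) 0
          have : G + -ev c G = C (pc c) * e := by linear_combination ee
          rw [sh_inv h1, sh_mul hG (neg_mem h1), this]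
          exact Nu_le_Nm _ e0 e1 (N1_le_Nu _ u1 (sh_mem_N1 _ he))
      · refine ⟨dg Rt a, dg_mem_TT a, rel_ext c fun l => ?_, ?_⟩
        · rw [dg_X, map_mul, ev_X, ev_cc]
        · rw [mul_inv_cancel]; exact one_mem _
    | one => exact ⟨one_mem _, 1, one_mem _, fun _ => rfl, by rw [mul_inv_cancel]; exact one_mem _⟩
    | mul x y _ _ hx hy =>
      obtain ⟨h1, π, h2, h4, h5⟩ := hx
      obtain ⟨k1, π', k2, k4, k5⟩ := hy
      refine ⟨mul_mem h1 k1, π * π', mul_mem h2 k2, fun a => ?_, ?_⟩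
      · rw [AlgEquiv.mul_apply, AlgEquiv.mul_apply, h4, k4]
      · have e8 : x * y * (π * π')⁻¹ = x * (y * π'⁻¹) * x⁻¹ * (x * π⁻¹) := by group
        rw [e8]
        exact mul_mem (h σ h3 _ x h1 _ k5) h5
    | inv x _ hx =>
      obtain ⟨h1, π, h2, h4, h5⟩ := hx
      refine ⟨inv_mem h1, π⁻¹, inv_mem h2, fun a => ?_, ?_⟩
      · have := h4 (x⁻¹ a)
        rw [apply_inv_apply] at this
        rw [this, inv_apply_apply]
      · have e8 : x⁻¹ * π⁻¹⁻¹ = x⁻¹ * (x * π⁻¹)⁻¹ * x⁻¹⁻¹ := by group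
        rw [e8]
        exact h σ h3 _ _ (inv_mem h1) _ (inv_mem h5)
  obtain ⟨-, π, -, h4, h5⟩ := key
  have : π = 1 := GA_ext fun l => by
    have e1 := dvd_iff_red.mp (hK (X l))
    have e2 := h4 (X l)
    rw [map_sub, sub_eq_zero] at e1
    rw [ev_X, ev, RingHom.comp_apply, e1, red_X, lft_X] at e2
    exact e2.symm
  rwa [this, inv_one, mul_one] at h5

end Pool.Agent.Lib.ST61
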