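import Pool.Agent.Lib.ST61.Kit2

/-! st61 block JCURVE: rigidity of a polynomial whose top part has a cuspidal factor. -/

set_option autoImplicit false

namespace Pool.Agent.Lib.ST61

open MvPolynomial

namespace bJCURVE

variable {K : Type} [Field K]

/-- polynomials in the extra variable over the fraction field -/
noncomputable def th (K : Type) [Field K] :
    MvPolynomial (Option (Fin 2)) K →+* Polynomial (FractionRing (MvPolynomial (Fin 2) K)) :=
  (Polynomial.mapRingHom (algebraMap (MvPolynomial (Fin 2) K) _)).comp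
    (optionEquivLeft K (Fin 2)).toRingEquiv.toRingHom

theorem th_apply (a : MvPolynomial (Option (Fin 2)) K) :
    th K a = (optionEquivLeft K (Fin 2) a).map (algebraMap (MvPolynomial (Fin 2) K) _) := rfl

theorem th_inj : Function.Injective (th K) := fun a b h => by
  rw [th_apply, th_apply] at h
  exact (optionEquivLeft K (Fin 2)).injective
    (Polynomial.map_injective _ (IsFractionRing.injective _ _) h)

theorem th_none : th K (X none) = Polynomial.X := by
  rw [th_apply, optionEquivLeft_X_none, Polynomial.map_X]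

theorem th_some (l : Fin 2) :
    th K (X (some l)) = Polynomial.C (algebraMap (MvPolynomial (Fin 2) K) _ (X l)) := by
  rw [th_apply, optionEquivLeft_X_some, Polynomial.map_C]

theorem th_C (a : K) :
    th K (C a) = Polynomial.C (algebraMap (MvPolynomial (Fin 2) K) _ (C a)) := by
  rw [th_apply, optionEquivLeft_C, Polynomial.map_C]

theorem th_rename (G : MvPolynomial (Fin 2) K) :
    th K (rename some G) = Polynomial.C (algebraMap (MvPolynomial (Fin 2) K) _ G) := by
  induction G using MvPolynomial.induction_on with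
  | C a => rw [rename_C, th_C]
  | add p q hp hq => rw [map_add, map_add, hp, hq, map_add, map_add]
  | mul_X p n hp => rw [map_mul, map_mul, hp, rename_X, th_some, map_mul, map_mul]

theorem ineq {p q : ℕ} (hp : 2 ≤ p) (hq : 2 ≤ q) (h : Nat.Coprime p q) :
    q * 6 + 6 * p + p * q ≤ p * q * 6 := by
  obtain ⟨a, rfl⟩ := Nat.exists_eq_add_of_le hp
  obtain ⟨b, rfl⟩ := Nat.exists_eq_add_of_le hq
  have h1 : 1 ≤ a + b := by
    by_contra h2
    have ha : a = 0 := by omega
    have hb : b = 0 := by omega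
    subst ha hb
    exact absurd h (by decide)
  nlinarith [Nat.zero_le (a * b)]

theorem rigid [CharZero K] (H : MvPolynomial (Fin 2) K) (hH : H ≠ 0) (p q : ℕ) (a b : K)
    (hp : 2 ≤ p) (hq : 2 ≤ q) (hpq : Nat.Coprime p q) (ha : a ≠ 0) (hb : b ≠ 0)
    (hd : C a * X 0 ^ p - C b * X 1 ^ q ∣ H) (U : Fin 2 → MvPolynomial (Option (Fin 2)) K)
    (hU : ∀ l, X none ∣ U l - X (some l)) (e : aeval U H = rename some H) (l : Fin 2) :
    U l = X (some l) := by
  have inj := IsFractionRing.injective (MvPolynomial (Fin 2) K)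
    (FractionRing (MvPolynomial (Fin 2) K))
  have : CharZero (FractionRing (MvPolynomial (Fin 2) K)) :=
    charZero_of_injective_algebraMap inj
  choose V hV using hU
  have hUV : ∀ l, th K (U l) = Polynomial.C (algebraMap (MvPolynomial (Fin 2) K) _ (X l)) +
      Polynomial.X * th K (V l) := fun l => by
    rw [← th_some, ← th_none, ← map_mul, ← map_add, ← hV, add_sub_cancel]
  have hc0 : ∀ l, (th K (U l)).coeff 0 = algebraMap (MvPolynomial (Fin 2) K) _ (X l) :=
    fun l => by rw [hUV, Polynomial.coeff_add, Polynomial.coeff_C_zero, Polynomial.coeff_X_mul_zero,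
      add_zero]
  have hne : ∀ l, th K (U l) ≠ 0 := fun l h => by
    have h1 := hc0 l
    rw [h, Polynomial.coeff_zero] at h1
    exact X_ne_zero l ((map_eq_zero_iff _ inj).mp h1.symm)
  have ha' : algebraMap (MvPolynomial (Fin 2) K) (FractionRing (MvPolynomial (Fin 2) K)) (C a)
      ≠ 0 := (map_ne_zero_iff _ inj).mpr (C_ne_zero.mpr ha)
  have hb' : algebraMap (MvPolynomial (Fin 2) K) (FractionRing (MvPolynomial (Fin 2) K)) (C b)
      ≠ 0 := (map_ne_zero_iff _ inj).mpr (C_ne_zero.mpr hb)
  have h1 : th K (aeval U (C a * X 0 ^ p - C b * X 1 ^ q)) ∣ th K (aeval U H) :=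
    map_dvd _ (map_dvd _ hd)
  rw [e, th_rename] at h1
  have h2 := isUnit_of_dvd_unit h1
    (Polynomial.isUnit_C.mpr ((map_ne_zero_iff _ inj).mpr hH).isUnit)
  obtain ⟨r, hr, h3⟩ := Polynomial.isUnit_iff.mp h2
  simp only [map_sub, map_mul, map_pow, aeval_X, aeval_C, algebraMap_eq, th_C] at h3
  have hcop : IsCoprime (th K (U 0)) (th K (U 1)) := by
    obtain ⟨p', rfl⟩ : ∃ p', p = p' + 1 := ⟨p - 1, by omega⟩
    obtain ⟨q', rfl⟩ : ∃ q', q = q' + 1 := ⟨q - 1, by omega⟩
    refine ⟨Polynomial.C r⁻¹ * (Polynomial.C (algebraMap (MvPolynomial (Fin 2) K) _ (C a)) *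
      th K (U 0) ^ p'), - (Polynomial.C r⁻¹ *
      (Polynomial.C (algebraMap (MvPolynomial (Fin 2) K) _ (C b)) * th K (U 1) ^ q')), ?_⟩
    have h4 : Polynomial.C r⁻¹ * Polynomial.C r = 1 := by
      rw [← map_mul, inv_mul_cancel₀ hr.ne_zero, map_one]
    rw [← h4, h3]
    ring
  have h5 := Polynomial.flt_catalan (p := p) (q := q) (r := 6) (by omega) (by omega) (by omega)
    (ineq hp hq hpq) (Nat.cast_ne_zero.mpr (by omega)) (Nat.cast_ne_zero.mpr (by omega))
    (Nat.cast_ne_zero.mpr (by omega)) (hne 0) (hne 1) one_ne_zero hcop ha' (neg_ne_zero.mpr hb')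
    (neg_ne_zero.mpr hr.ne_zero) (by rw [map_neg, map_neg, h3]; ring)
  have h6 : (th K (U l)).natDegree = 0 := by
    fin_cases l
    · exact h5.1
    · exact h5.2.1
  apply th_inj
  rw [Polynomial.eq_C_of_natDegree_eq_zero h6, hc0, th_some]

theorem dvd_iff (e : MvPolynomial (Option (Fin 2)) K) :
    X none ∣ e ↔ ∀ m ∈ e.support, m none ≠ 0 := by
  classical
  constructor
  · rintro ⟨V, rfl⟩ m hm
    rw [mem_support_iff, coeff_X_mul'] at hm
    intro h0
    exact hm (if_neg (by rw [Finsupp.mem_support_iff]; exact fun h => h h0))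
  · intro h
    rw [e.as_sum]
    exact Finset.dvd_sum fun m hm => X_dvd_monomial.mpr (Or.inr (h m hm))

theorem wt (s : ℝ) (α : Fin 2 → ℝ) (m : Option (Fin 2) →₀ ℕ) :
    Finsupp.weight (fun o : Option (Fin 2) => o.elim s α) m =
      m none * s + ∑ b, (m (some b) : ℝ) * α b := by
  rw [Finsupp.weight_apply, Finsupp.sum_fintype _ _ (fun _ => by simp), Fintype.sum_option]
  simp only [Option.elim, nsmul_eq_mul]

end bJCURVE

open bJCURVE in
theorem st_JCURVE (h : St_JTOP) : St_JCURVE := by
  classical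
  intro K _ _ α D P H hT hH p q a b hp hq hpq ha hb hd u hu e
  by_contra hne
  obtain ⟨l₁, hl₁⟩ := not_forall.mp hne
  let S : Finset (Σ _ : Fin 2, Option (Fin 2) →₀ ℕ) :=
    Finset.univ.sigma fun l => (u l - X (some l)).support
  have hS : S.Nonempty := by
    obtain ⟨m, hm⟩ := support_nonempty.mpr (sub_ne_zero.mpr hl₁)
    exact ⟨⟨l₁, m⟩, Finset.mem_sigma.mpr ⟨Finset.mem_univ _, hm⟩⟩
  obtain ⟨⟨l₀, m₀⟩, h0, hmin⟩ := S.exists_min_image
    (fun x => (α x.1 - ∑ b, (x.2 (some b) : ℝ) * α b) / x.2 none) hS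
  have h0' : m₀ ∈ (u l₀ - X (some l₀)).support := (Finset.mem_sigma.mp h0).2
  have pos : ∀ l, ∀ m ∈ (u l - X (some l)).support, (0 : ℝ) < m none := fun l m hm =>
    Nat.cast_pos.mpr (Nat.pos_of_ne_zero ((dvd_iff _).mp (hu l) m hm))
  obtain ⟨s, hs⟩ : ∃ s : ℝ, s = (α l₀ - ∑ b, (m₀ (some b) : ℝ) * α b) / m₀ none := ⟨_, rfl⟩
  obtain ⟨w, hw⟩ : ∃ w : Option (Fin 2) → ℝ, w = fun o => o.elim s α := ⟨_, rfl⟩
  have hle : ∀ l, ∀ m ∈ (u l - X (some l)).support, Finsupp.weight w m ≤ α l := by
    intro l m hm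
    have h1 := hmin ⟨l, m⟩ (Finset.mem_sigma.mpr ⟨Finset.mem_univ _, hm⟩)
    simp only [← hs] at h1
    rw [le_div_iff₀ (pos l m hm)] at h1
    rw [hw, wt]
    linarith
  have heq : Finsupp.weight w m₀ = α l₀ := by
    rw [hw, wt, hs, mul_div_cancel₀ _ (pos l₀ m₀ h0').ne']
    ring
  have hX : ∀ l, IsWeightedHomogeneous w (X (some l) : MvPolynomial (Option (Fin 2)) K) (α l) :=
    fun l => by
      have h1 := isWeightedHomogeneous_X K w (some l)
      rwa [show w (some l) = α l by rw [hw]; rfl] at h1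
  let U : Fin 2 → MvPolynomial (Option (Fin 2)) K := fun l =>
    X (some l) + weightedHomogeneousComponent w (α l) (u l - X (some l))
  have hU : ∀ l, Top w (α l) (u l) (U l) := by
    intro l
    refine ⟨(hX l).add (weightedHomogeneousComponent_isWeightedHomogeneous _ _), fun m hm => ?_⟩
    rw [mem_support_iff, show u l - U l = (u l - X (some l)) -
      weightedHomogeneousComponent w (α l) (u l - X (some l)) by simp only [U]; ring,
      coeff_sub, coeff_weightedHomogeneousComponent] at hm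
    by_cases h1 : Finsupp.weight w m = α l
    · rw [if_pos h1, sub_self] at hm
      exact absurd rfl hm
    · rw [if_neg h1, sub_zero] at hm
      exact lt_of_le_of_ne (hle l m (mem_support_iff.mpr hm)) h1
  have hUd : ∀ l, X none ∣ U l - X (some l) := by
    intro l
    rw [dvd_iff]
    intro m hm
    rw [mem_support_iff, show U l - X (some l) =
      weightedHomogeneousComponent w (α l) (u l - X (some l)) by simp only [U]; ring,
      coeff_weightedHomogeneousComponent] at hm
    refine (dvd_iff _).mp (hu l) m (mem_support_iff.mpr fun h1 => hm ?_)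
    rw [h1, ite_self]
  obtain ⟨-, h2, h3⟩ := h K (Option (Fin 2)) w
  have t1 := h3 (Fin 2) α u U hU D P H hT
  have t2 := h3 (Fin 2) α (X ∘ some) (X ∘ some)
    (fun l => ⟨hX l, fun m hm => by simp at hm⟩) D P H hT
  rw [← rename_eq_aeval, ← e] at t2
  have h4 := rigid H hH p q a b hp hq hpq ha hb hd U hUd (h2 D _ _ _ t1 t2) l₀
  have h5 : weightedHomogeneousComponent w (α l₀) (u l₀ - X (some l₀)) = 0 :=
    add_eq_left.mp h4
  have h6 := coeff_weightedHomogeneousComponent (w := w) (α l₀) (u l₀ - X (some l₀)) m₀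
  rw [h5, if_pos heq, coeff_zero] at h6
  exact mem_support_iff.mp h0' h6.symm

end Pool.Agent.Lib.ST61
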