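import Pool.Agent.Lib.ST61.Kit2

/-! A weighted form in two variables with a zero in the torus. -/

set_option autoImplicit false

namespace Pool.Agent.Lib.ST61

open MvPolynomial

namespace bJDIV

theorem wt (α : Fin 2 → ℝ) (m : Fin 2 →₀ ℕ) :
    Finsupp.weight α m = m 0 * α 0 + m 1 * α 1 := by
  rw [Finsupp.weight_apply, Finsupp.sum_fintype _ _ (fun i => by simp), Fin.sum_univ_two]
  simp

theorem diff {x y : ℝ} (hx : 0 < x) (hy : 0 < y) {m0 m1 n0 n1 : ℕ}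
    (h : m0 * x + m1 * y = n0 * x + n1 * y) (hle : n0 ≤ m0) :
    ∃ d e : ℕ, m0 = n0 + d ∧ n1 = m1 + e ∧ (d : ℝ) * x = e * y := by
  obtain ⟨d, rfl⟩ := Nat.exists_eq_add_of_le hle
  have h1 : m1 ≤ n1 := by
    have h2 : (m1 : ℝ) * y ≤ n1 * y := by
      have : (0 : ℝ) ≤ d * x := by positivity
      push_cast at h
      linarith
    exact_mod_cast le_of_mul_le_mul_right h2 hy
  obtain ⟨e, rfl⟩ := Nat.exists_eq_add_of_le h1
  refine ⟨d, e, rfl, rfl, ?_⟩
  push_cast at h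
  linarith

theorem step {x y : ℝ} (hx : 0 < x) {p q d e : ℕ} (hp : 0 < p) (hc : Nat.Coprime p q)
    (h : (p : ℝ) * x = q * y) (h' : (d : ℝ) * x = e * y) : ∃ k, d = p * k ∧ e = q * k := by
  have h1 : d * q = e * p := by
    have h2 : ((d : ℝ) * q) * x = (e * p) * x := by
      calc ((d : ℝ) * q) * x = q * (d * x) := by ring
        _ = e * (q * y) := by rw [h']; ring
        _ = (e * p) * x := by rw [← h]; ring
    exact_mod_cast mul_right_cancel₀ hx.ne' h2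
  obtain ⟨k, rfl⟩ : p ∣ d := hc.dvd_of_dvd_mul_right ⟨e, by rw [h1, mul_comm]⟩
  refine ⟨k, rfl, Nat.eq_of_mul_eq_mul_right hp ?_⟩
  rw [← h1]
  ring

variable {K : Type} [Field K]

theorem mon (m : Fin 2 →₀ ℕ) (c : K) :
    (monomial m c : MvPolynomial (Fin 2) K) = C c * (X 0 ^ m 0 * X 1 ^ m 1) := by
  rw [monomial_eq, Finsupp.prod_fintype _ _ (fun i => by simp), Fin.prod_univ_two]

theorem dv (a b : K) (p q k n0 m1 : ℕ) :
    (C (b ^ q) * X 0 ^ p - C (a ^ p) * X 1 ^ q : MvPolynomial (Fin 2) K) ∣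
      C (a ^ n0 * b ^ (m1 + q * k)) * (X 0 ^ (n0 + p * k) * X 1 ^ m1) -
        C (a ^ (n0 + p * k) * b ^ m1) * (X 0 ^ n0 * X 1 ^ (m1 + q * k)) := by
  refine (Dvd.dvd.mul_left (sub_dvd_pow_sub_pow _ _ k)
    (C (a ^ n0 * b ^ m1) * (X 0 ^ n0 * X 1 ^ m1))).trans (dvd_of_eq ?_)
  simp only [map_mul, map_pow]
  ring

end bJDIV

open bJDIV in
theorem st_JDIV : St_JDIV := by
  intro K _ α h0 h1 D H hH hne a a0 a1 hev
  have hw : ∀ m ∈ H.support, (m 0 : ℝ) * α 0 + m 1 * α 1 = D := fun m hm => by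
    rw [← wt]
    exact hH (mem_support_iff.1 hm)
  have hs : eval a H = ∑ m ∈ H.support, coeff m H * (a 0 ^ m 0 * a 1 ^ m 1) := by
    rw [eval_eq']
    simp only [Fin.prod_univ_two]
  obtain ⟨n, hn, hmin⟩ := H.support.exists_min_image (fun m => m 0) (support_nonempty.2 hne)
  have hvn : a 0 ^ n 0 * a 1 ^ n 1 ≠ 0 := mul_ne_zero (pow_ne_zero _ a0) (pow_ne_zero _ a1)
  have hd : ∀ m ∈ H.support, ∃ d e : ℕ, m 0 = n 0 + d ∧ n 1 = m 1 + e ∧ (d : ℝ) * α 0 = e * α 1 :=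
    fun m hm => diff h0 h1 ((hw m hm).trans (hw n hn).symm) (hmin m hm)
  obtain ⟨m, hm, hmn⟩ : ∃ m ∈ H.support, m ≠ n := by
    by_contra hc
    push Not at hc
    rw [hs, Finset.sum_eq_single_of_mem n hn fun m hm h => absurd (hc m hm) h] at hev
    exact mul_ne_zero (mem_support_iff.1 hn) hvn hev
  obtain ⟨d, e, e1, e2, e3⟩ := hd m hm
  have hd0 : 0 < d := by
    refine Nat.pos_of_ne_zero fun h => hmn ?_
    subst h
    have he : e = 0 := by
      have : (e : ℝ) * α 1 = 0 := by rw [← e3]; simp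
      exact_mod_cast (mul_eq_zero.1 this).resolve_right h1.ne'
    ext i
    fin_cases i
    · simpa using e1
    · simpa [he] using e2.symm
  obtain ⟨p, q, hc, f1, f2⟩ := Nat.exists_coprime d e
  have hg : 0 < Nat.gcd d e := Nat.gcd_pos_of_pos_left _ hd0
  generalize Nat.gcd d e = g at f1 f2 hg
  have hp : 0 < p := Nat.pos_of_ne_zero fun h => by simp [h] at f1; omega
  have hpq : (p : ℝ) * α 0 = q * α 1 := by
    refine mul_right_cancel₀ (b := (g : ℝ)) (by exact_mod_cast hg.ne') ?_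
    rw [f1, f2] at e3
    push_cast at e3
    linarith
  have hq : 0 < q := Nat.pos_of_ne_zero fun h => by
    have : (0 : ℝ) < p * α 0 := by positivity
    rw [hpq, h] at this
    simp at this
  refine ⟨p, q, hp, hq, hc, hpq, ?_⟩
  have hu : IsUnit (C (a 0 ^ n 0 * a 1 ^ n 1) : MvPolynomial (Fin 2) K) :=
    (IsUnit.mk0 _ hvn).map C
  rw [← hu.dvd_mul_left]
  have key : C (a 0 ^ n 0 * a 1 ^ n 1) * H = ∑ m ∈ H.support, C (coeff m H) *
      (C (a 0 ^ n 0 * a 1 ^ n 1) * (X 0 ^ m 0 * X 1 ^ m 1) -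
        C (a 0 ^ m 0 * a 1 ^ m 1) * (X 0 ^ n 0 * X 1 ^ n 1)) := by
    have h2 : ∑ m ∈ H.support, C (coeff m H) * (C (a 0 ^ m 0 * a 1 ^ m 1) *
        (X 0 ^ n 0 * X 1 ^ n 1) : MvPolynomial (Fin 2) K) = 0 := by
      simp only [← mul_assoc, ← map_mul]
      rw [← Finset.sum_mul, ← Finset.sum_mul, ← map_sum]
      simp only [mul_assoc]
      rw [← hs, hev]
      simp
    simp only [mul_sub, Finset.sum_sub_distrib, h2, sub_zero]
    conv_lhs => rw [H.as_sum, Finset.mul_sum]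
    refine Finset.sum_congr rfl fun m _ => ?_
    rw [mon]
    ring
  rw [key]
  refine Finset.dvd_sum fun m hm => Dvd.dvd.mul_left ?_ _
  obtain ⟨d', e', g1, g2, g3⟩ := hd m hm
  obtain ⟨k, rfl, rfl⟩ := step h0 hp hc hpq g3
  rw [g1, g2]
  exact dv _ _ _ _ _ _ _

end Pool.Agent.Lib.ST61
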