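import Pool.Agent.Lib.ST61.Kit2

set_option autoImplicit false

namespace Pool.Agent.Lib.ST61

open MvPolynomial

namespace bJTOP

variable {τ K : Type} [CommRing K] {w : τ → ℝ}

/-- all monomials have weight at most `D` -/
def Le (w : τ → ℝ) (D : ℝ) (P : MvPolynomial τ K) : Prop :=
  ∀ m ∈ P.support, Finsupp.weight w m ≤ D

theorem fl_zero (D : ℝ) : Fl w D (0 : MvPolynomial τ K) := by
  intro m hm
  simp at hm

theorem fl_add {D : ℝ} {P Q : MvPolynomial τ K} (hP : Fl w D P) (hQ : Fl w D Q) :
    Fl w D (P + Q) := by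
  classical
  intro m hm
  rcases Finset.mem_union.1 (support_add hm) with h | h
  exacts [hP m h, hQ m h]

theorem fl_sub {D : ℝ} {P Q : MvPolynomial τ K} (hP : Fl w D P) (hQ : Fl w D Q) :
    Fl w D (P - Q) := by
  rw [sub_eq_add_neg]
  exact fl_add hP fun m hm => hQ m (by rwa [support_neg] at hm)

theorem fl_sum {ι : Type} {D : ℝ} (s : Finset ι) (F : ι → MvPolynomial τ K)
    (h : ∀ i ∈ s, Fl w D (F i)) : Fl w D (∑ i ∈ s, F i) :=
  Finset.sum_induction F (Fl w D) (fun _ _ => fl_add) (fl_zero D) h

theorem le_hom {D : ℝ} {H : MvPolynomial τ K} (h : IsWeightedHomogeneous w H D) : Le w D H :=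
  fun _ hm => (h (mem_support_iff.1 hm)).le

theorem le_top {D : ℝ} {P H : MvPolynomial τ K} (h : Top w D P H) : Le w D P := by
  classical
  intro m hm
  have e : P = H + (P - H) := by ring
  rw [e] at hm
  rcases Finset.mem_union.1 (support_add hm) with h' | h'
  exacts [le_hom h.1 m h', (h.2 m h').le]

theorem fl_mul {D E : ℝ} {P Q : MvPolynomial τ K} (hP : Fl w D P) (hQ : Le w E Q) :
    Fl w (D + E) (P * Q) := by
  classical
  intro m hm
  obtain ⟨a, ha, b, hb, rfl⟩ := Finset.mem_add.1 (support_mul P Q hm)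
  rw [map_add]
  exact add_lt_add_of_lt_of_le (hP a ha) (hQ b hb)

theorem top_mul {D E : ℝ} {P Q H G : MvPolynomial τ K} (h : Top w D P H) (g : Top w E Q G) :
    Top w (D + E) (P * Q) (H * G) := by
  refine ⟨h.1.mul g.1, ?_⟩
  have e : P * Q - H * G = (P - H) * Q + (Q - G) * H := by ring
  rw [e]
  refine fl_add (fl_mul h.2 (le_top g)) ?_
  rw [add_comm D E]
  exact fl_mul g.2 (le_hom h.1)

theorem top_C (c : K) : Top w 0 (C c : MvPolynomial τ K) (C c) :=
  ⟨isWeightedHomogeneous_C w c, by rw [sub_self]; exact fl_zero 0⟩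

theorem top_pow {D : ℝ} {P H : MvPolynomial τ K} (h : Top w D P H) (n : ℕ) :
    Top w (n • D) (P ^ n) (H ^ n) := by
  induction n with
  | zero => simpa using top_C (w := w) (1 : K)
  | succ n ih =>
    rw [succ_nsmul, pow_succ, pow_succ]
    exact top_mul ih h

theorem top_prod {ι : Type} (s : Finset ι) (D : ι → ℝ) (F G : ι → MvPolynomial τ K)
    (h : ∀ i, Top w (D i) (F i) (G i)) :
    Top w (∑ i ∈ s, D i) (∏ i ∈ s, F i) (∏ i ∈ s, G i) := by
  classical
  induction s using Finset.induction_on with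
  | empty => simpa using top_C (w := w) (1 : K)
  | insert a s ha ih =>
    rw [Finset.sum_insert ha, Finset.prod_insert ha, Finset.prod_insert ha]
    exact top_mul (h a) ih

theorem top_sum {ι : Type} {D : ℝ} (s : Finset ι) (F G : ι → MvPolynomial τ K)
    (h : ∀ i ∈ s, Top w D (F i) (G i)) : Top w D (∑ i ∈ s, F i) (∑ i ∈ s, G i) := by
  refine ⟨IsWeightedHomogeneous.sum s G D fun i hi => (h i hi).1, ?_⟩
  rw [← Finset.sum_sub_distrib]
  exact fl_sum s _ fun i hi => (h i hi).2

theorem top_mono {υ : Type} {α : υ → ℝ} {f T : υ → MvPolynomial τ K}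
    (h : ∀ l, Top w (α l) (f l) (T l)) (m : υ →₀ ℕ) (c : K) :
    Top w (Finsupp.weight α m) (aeval f (monomial m c)) (aeval T (monomial m c)) := by
  rw [aeval_monomial, aeval_monomial, Finsupp.weight_apply, ← zero_add (m.sum _)]
  exact top_mul (top_C c) (top_prod m.support _ _ _ fun l => top_pow (h l) (m l))

end bJTOP

open bJTOP in
theorem st_JTOP : St_JTOP := by
  intro K _ υ w
  classical
  refine ⟨fun P hP => ?_, fun D P H H' h h' => ?_, fun τ α f T hf D P H h => ?_⟩
  · obtain ⟨m, hm, hmax⟩ := P.support.exists_max_image (fun m => Finsupp.weight w m)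
      (support_nonempty.2 hP)
    refine ⟨Finsupp.weight w m, weightedHomogeneousComponent w (Finsupp.weight w m) P,
      fun h0 => ?_, weightedHomogeneousComponent_isWeightedHomogeneous _ P, fun d hd => ?_⟩
    · have := coeff_weightedHomogeneousComponent (w := w) (Finsupp.weight w m) P m
      rw [h0, coeff_zero, if_pos rfl] at this
      exact mem_support_iff.1 hm this.symm
    · rw [mem_support_iff, coeff_sub, coeff_weightedHomogeneousComponent] at hd
      by_cases e : Finsupp.weight w d = Finsupp.weight w m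
      · rw [if_pos e, sub_self] at hd
        exact absurd rfl hd
      · rw [if_neg e, sub_zero] at hd
        exact lt_of_le_of_ne (hmax d (mem_support_iff.2 hd)) e
  · have e : H - H' = (P - H') - (P - H) := by ring
    have h1 : Fl w D (H - H') := e ▸ fl_sub h'.2 h.2
    ext m
    by_contra hne
    have h2 := h1 m (mem_support_iff.2 (by rw [coeff_sub]; exact sub_ne_zero.2 hne))
    by_cases h3 : coeff m H = 0
    · exact h2.ne (h'.1 fun h4 => hne (h3.trans h4.symm))
    · exact h2.ne (h.1 h3)
  · have h1 : Top w D (aeval f H) (aeval T H) := by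
      rw [H.as_sum, map_sum, map_sum]
      refine top_sum _ _ _ fun m hm => ?_
      rw [← h.1 (mem_support_iff.1 hm)]
      exact top_mono hf m _
    have h2 : Fl w D (aeval f (P - H)) := by
      rw [(P - H).as_sum, map_sum]
      exact fl_sum _ _ fun m hm d hd => (le_top (top_mono hf m _) d hd).trans_lt (h.2 m hm)
    refine ⟨h1.1, ?_⟩
    have e : aeval f P - aeval T H = (aeval f H - aeval T H) + aeval f (P - H) := by
      rw [map_sub]; ring
    rw [e]
    exact fl_add h1.2 h2

end Pool.Agent.Lib.ST61
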