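import Pool.Agent.Lib.ST61.Kit2

/-! st61 block JUNG: plane automorphisms are tame. -/

set_option autoImplicit false

namespace Pool.Agent.Lib.ST61

open MvPolynomial

namespace bJUNG

/-- the irrational weight -/
noncomputable def w : Fin 2 → ℝ := ![1, √2]

theorem W_eq (m : Fin 2 →₀ ℕ) : Finsupp.weight w m = m 0 + m 1 * √2 := by
  rw [Finsupp.weight_apply, Finsupp.sum_fintype _ _ (fun _ => by simp), Fin.sum_univ_two]
  simp [w]

theorem one_lt : (1 : ℝ) < √2 := Real.one_lt_sqrt_two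

theorem W_inj {m m' : Fin 2 →₀ ℕ} (h : Finsupp.weight w m = Finsupp.weight w m') : m = m' := by
  rw [W_eq, W_eq] at h
  have h1 : (m 1 : ℝ) = m' 1 := by
    by_contra h1
    have h2 : (m 1 : ℝ) - m' 1 ≠ 0 := sub_ne_zero.mpr h1
    refine irrational_sqrt_two ⟨((m' 0 : ℚ) - m 0) / ((m 1 : ℚ) - m' 1), ?_⟩
    push_cast
    rw [div_eq_iff h2]
    linarith
  have h0 : (m 0 : ℝ) = m' 0 := by rw [h1] at h; linarith
  ext l
  fin_cases l
  · exact_mod_cast h0
  · exact_mod_cast h1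

theorem W_lt_one {m : Fin 2 →₀ ℕ} (h : Finsupp.weight w m < 1) : m = 0 := by
  rw [W_eq] at h
  have h0 : (0 : ℝ) ≤ m 0 := Nat.cast_nonneg _
  have h1 : (0 : ℝ) ≤ m 1 := Nat.cast_nonneg _
  have h2 : (m 0 : ℝ) + m 1 < 1 := by nlinarith [one_lt]
  have h3 : m 0 + m 1 < 1 := by exact_mod_cast h2
  ext l
  fin_cases l
  · show m 0 = 0
    omega
  · show m 1 = 0
    omega

theorem W_zero : Finsupp.weight w (0 : Fin 2 →₀ ℕ) = 0 := map_zero _

variable {K : Type} [Field K]

theorem eq_C_of_fl {f : MvPolynomial (Fin 2) K} (h : Fl w 1 f) : f = C (coeff 0 f) := by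
  ext m
  rw [coeff_C]
  split_ifs with e
  · rw [e]
  · by_contra h1
    exact e (W_lt_one (h m (mem_support_iff.mpr h1))).symm

theorem hom_mon {D : ℝ} {H : MvPolynomial (Fin 2) K} (h : IsWeightedHomogeneous w H D)
    (h0 : H ≠ 0) : ∃ A a, a ≠ 0 ∧ D = Finsupp.weight w A ∧ H = monomial A a := by
  obtain ⟨A, hA⟩ := support_nonempty.mpr h0
  rw [mem_support_iff] at hA
  refine ⟨A, coeff A H, hA, (h hA).symm, ?_⟩
  ext m
  rw [coeff_monomial]
  split_ifs with e
  · rw [e]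
  · by_contra h1
    exact e (W_inj ((h hA).trans (h h1).symm))

theorem top_mem {A : Fin 2 →₀ ℕ} {a : K} {f : MvPolynomial (Fin 2) K} (ha : a ≠ 0)
    (h : Top w (Finsupp.weight w A) f (monomial A a)) : A ∈ f.support := by
  by_contra h1
  rw [notMem_support_iff] at h1
  refine lt_irrefl _ (h.2 A (mem_support_iff.mpr ?_))
  rw [coeff_sub, h1, coeff_monomial, if_pos rfl, zero_sub]
  exact neg_ne_zero.mpr ha

/-- the monomials below some monomial of `f` -/
def low (f : MvPolynomial (Fin 2) K) : Set (Fin 2 →₀ ℕ) :=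
  {m | ∃ m' ∈ f.support, Finsupp.weight w m ≤ Finsupp.weight w m'}

theorem low_fin (f : MvPolynomial (Fin 2) K) : (low f).Finite := by
  refine (Finsupp.finite_of_degree_le (σ := Fin 2) (2 * f.totalDegree)).subset ?_
  rintro m ⟨m', h1, h2⟩
  have h3 := le_totalDegree h1
  rw [Finsupp.sum_fintype _ _ (fun _ => rfl), Fin.sum_univ_two] at h3
  rw [W_eq, W_eq] at h2
  have h4 : √2 < 2 := by nlinarith [one_lt, Real.sq_sqrt (show (0 : ℝ) ≤ 2 by norm_num)]
  have a0 : (0 : ℝ) ≤ m 1 := Nat.cast_nonneg _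
  have a1 : (0 : ℝ) ≤ m' 0 := Nat.cast_nonneg _
  have a2 : (0 : ℝ) ≤ m' 1 := Nat.cast_nonneg _
  have h5 : (m 0 : ℝ) + m 1 ≤ 2 * (m' 0 + m' 1) := by nlinarith [one_lt]
  have h6 : m 0 + m 1 ≤ 2 * (m' 0 + m' 1) := by exact_mod_cast h5
  show Finsupp.degree m ≤ _
  rw [Finsupp.degree_eq_sum, Fin.sum_univ_two]
  omega

theorem low_lt {A : Fin 2 →₀ ℕ} {f f' : MvPolynomial (Fin 2) K} (hA : A ∈ f.support)
    (h : Fl w (Finsupp.weight w A) f') : (low f').ncard < (low f).ncard := by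
  refine Set.ncard_lt_ncard ⟨?_, fun h1 => ?_⟩ (low_fin f)
  · rintro m ⟨m', h1, h2⟩
    exact ⟨A, hA, h2.trans (h m' h1).le⟩
  · obtain ⟨m', h2, h3⟩ := h1 (show A ∈ low f from ⟨A, hA, le_rfl⟩)
    exact absurd (h m' h2) (not_lt.mpr h3)

theorem base {f g : MvPolynomial (Fin 2) K} {a b : K} (ha : a ≠ 0) (hb : b ≠ 0)
    (hf : Top w (Finsupp.weight w (Finsupp.single 0 1)) f (monomial (Finsupp.single 0 1) a))
    (hg : Top w (Finsupp.weight w (Finsupp.single 1 1)) g (monomial (Finsupp.single 1 1) b)) :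
    TmS 0 1 f g := by
  have e0 : Finsupp.weight w (Finsupp.single (0 : Fin 2) 1) = 1 := by rw [W_eq]; simp
  have e1 : Finsupp.weight w (Finsupp.single (1 : Fin 2) 1) = √2 := by rw [W_eq]; simp
  have h1 := hf.2
  have h2 := hg.2
  rw [e0, ← C_mul_X_eq_monomial] at h1
  rw [e1, ← C_mul_X_eq_monomial] at h2
  have h3 : g - C b * X 1 ∈ supported K ({1}ᶜ : Set (Fin 2)) := by
    refine mem_supported.mpr fun l hl e => ?_
    obtain ⟨m, hm, hl⟩ := (mem_vars_iff_mem_support l).mp hl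
    have h4 := h2 m hm
    have h5 : 1 ≤ m 1 := Nat.one_le_iff_ne_zero.mpr (by
      rw [Set.mem_singleton_iff.mp e] at hl
      exact Finsupp.mem_support_iff.mp hl)
    have h6 : (1 : ℝ) ≤ m 1 := by exact_mod_cast h5
    have h7 : (0 : ℝ) ≤ m 0 := Nat.cast_nonneg _
    rw [W_eq] at h4
    nlinarith [one_lt]
  have t1 : TmS 0 1 (X 0) g := TmS.base.step b 1 _ hb one_ne_zero h3 (by
    rw [Function.update_eq_self, aeval_X_left, AlgHom.id_apply, map_one]; ring)
  refine (t1.swap.step a 1 (C (coeff 0 (f - C a * X 0))) ha one_ne_zero (C_mem _ _) ?_).swap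
  rw [aeval_C, algebraMap_eq, ← eq_C_of_fl h1, map_one]
  ring

theorem unit_vec {A B : Fin 2 →₀ ℕ} (hA : A ≠ 0) (hB : B ≠ 0) {i j : ℕ} {l : Fin 2}
    (h : i • A + j • B = Finsupp.single l 1) : A = Finsupp.single l 1 ∨ B = Finsupp.single l 1 := by
  have h1 := congrArg Finsupp.degree h
  rw [map_add, map_nsmul, map_nsmul, Finsupp.degree_single, smul_eq_mul, smul_eq_mul] at h1
  have a1 : 1 ≤ Finsupp.degree A :=
    Nat.one_le_iff_ne_zero.mpr fun e => hA ((Finsupp.degree_eq_zero_iff _).mp e)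
  have b1 : 1 ≤ Finsupp.degree B :=
    Nat.one_le_iff_ne_zero.mpr fun e => hB ((Finsupp.degree_eq_zero_iff _).mp e)
  have h2 : i + j ≤ 1 := by nlinarith
  have h3 : i + j ≠ 0 := fun e => by
    obtain ⟨rfl, rfl⟩ := Nat.add_eq_zero_iff.mp e
    omega
  rcases (by omega : (i = 1 ∧ j = 0) ∨ (i = 0 ∧ j = 1)) with ⟨rfl, rfl⟩ | ⟨rfl, rfl⟩
  · exact Or.inl (by simpa using h)
  · exact Or.inr (by simpa using h)

theorem cong {τ : Type} {p : MvPolynomial τ K} {U V : Fin 2 → MvPolynomial τ K}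
    (h : ∀ l, p ∣ U l - V l) (a : MvPolynomial (Fin 2) K) : p ∣ aeval U a - aeval V a := by
  induction a using MvPolynomial.induction_on with
  | C r => rw [aeval_C, aeval_C, sub_self]; exact dvd_zero _
  | add a b ha hb =>
    rw [map_add, map_add, add_sub_add_comm]
    exact dvd_add ha hb
  | mul_X a l ha =>
    rw [map_mul, map_mul, aeval_X, aeval_X, show aeval U a * U l - aeval V a * V l =
      (aeval U a - aeval V a) * U l + aeval V a * (U l - V l) by ring]
    exact dvd_add (ha.mul_right _) ((h l).mul_left _)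

theorem aeval_EN {τ : Type} (χ : MvPolynomial (Fin 2) K →ₐ[K] MvPolynomial τ K) (φ : EN (Fin 2) K)
    (a : MvPolynomial (Fin 2) K) : aeval (fun l => χ (φ (X l))) a = χ (φ a) :=
  DFunLike.congr_fun (algHom_ext (f := aeval fun l => χ (φ (X l))) (g := χ.comp φ)
    fun l => aeval_X _ l) a

theorem nocusp [CharZero K] (h3 : St_JCURVE) {φ ψ : EN (Fin 2) K} (e1 : φ * ψ = 1)
    (e2 : ψ * φ = 1) (l : Fin 2) {α : Fin 2 → ℝ} {D : ℝ} {H : MvPolynomial (Fin 2) K}
    (hT : Top α D (ψ (X l)) H) (hH : H ≠ 0) {p q : ℕ} {a b : K} (hp : 2 ≤ p) (hq : 2 ≤ q)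
    (hpq : Nat.Coprime p q) (ha : a ≠ 0) (hb : b ≠ 0) : ¬ C a * X 0 ^ p - C b * X 1 ^ q ∣ H := by
  intro hd
  let V : Fin 2 → MvPolynomial (Option (Fin 2)) K := fun k =>
    rename some (ψ (X k)) + if k = l then 0 else X none
  have h1 : ∀ k, aeval (fun j => aeval V (φ (X j))) (ψ (X k)) = V k := fun k => by
    rw [aeval_EN, ← EN_mul_apply, e1, AlgHom.one_apply, aeval_X]
  have h2 := h3 K α D _ H hT hH p q a b hp hq hpq ha hb hd (fun j => aeval V (φ (X j)))
    (fun k => by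
      have h4 := cong (p := X none) (U := V) (V := fun k => rename some (ψ (X k))) (fun k => by
        simp only [V, add_sub_cancel_left]
        split_ifs
        · exact dvd_zero _
        · exact dvd_rfl) (φ (X k))
      rwa [aeval_EN, ← EN_mul_apply, e2, AlgHom.one_apply, rename_X] at h4)
    (by rw [h1]; simp only [V, if_true, add_zero])
  obtain ⟨k, hk⟩ := exists_ne l
  have h5 := h1 k
  rw [show (fun j => aeval V (φ (X j))) = X ∘ some from funext h2, ← rename_eq_aeval] at h5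
  simp only [V, if_neg hk] at h5
  exact X_ne_zero none (left_eq_add.mp h5)

/-- the measure -/
noncomputable def ms (φ : EN (Fin 2) K) : ℕ := (low (φ (X 0))).ncard + (low (φ (X 1))).ncard

theorem reduce (h1 : St_JTOP) {n : ℕ} (ih : ∀ φ ψ : EN (Fin 2) K, φ * ψ = 1 → ψ * φ = 1 →
    ms φ < n → TmS 0 1 (φ (X 0)) (φ (X 1))) {φ ψ : EN (Fin 2) K} (e1 : φ * ψ = 1) (e2 : ψ * φ = 1)
    (hn : ms φ ≤ n) {B : Fin 2 →₀ ℕ} {q : ℕ} {a b : K} (ha : a ≠ 0) (hb : b ≠ 0)
    (hf : Top w (Finsupp.weight w (q • B)) (φ (X 0)) (monomial (q • B) a))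
    (hg : Top w (Finsupp.weight w B) (φ (X 1)) (monomial B b)) : TmS 0 1 (φ (X 0)) (φ (X 1)) := by
  have hu : b ^ q ≠ 0 := pow_ne_zero _ hb
  have hc : (C (b ^ q) : MvPolynomial (Fin 2) K) * C (b ^ q)⁻¹ = 1 := by
    rw [← map_mul, mul_inv_cancel₀ hu, map_one]
  let θ : EN (Fin 2) K := aeval ![C (b ^ q) * X 0 - C a * X 1 ^ q, X 1]
  let θ' : EN (Fin 2) K := aeval ![C (b ^ q)⁻¹ * (X 0 + C a * X 1 ^ q), X 1]
  have t0 : θ (X 0) = C (b ^ q) * X 0 - C a * X 1 ^ q := aeval_X _ _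
  have t1 : θ (X 1) = X 1 := aeval_X _ _
  have t0' : θ' (X 0) = C (b ^ q)⁻¹ * (X 0 + C a * X 1 ^ q) := aeval_X _ _
  have t1' : θ' (X 1) = X 1 := aeval_X _ _
  have i1 : θ * θ' = 1 := algHom_ext (Fin.forall_fin_two.mpr ⟨by
    rw [EN_mul_apply, t0', map_mul, map_add, map_mul, map_pow θ, map_CE, map_CE, t0, t1,
      AlgHom.one_apply]
    linear_combination X 0 * hc, by rw [EN_mul_apply, t1', t1, AlgHom.one_apply]⟩)
  have i2 : θ' * θ = 1 := algHom_ext (Fin.forall_fin_two.mpr ⟨by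
    rw [EN_mul_apply, t0, map_sub, map_mul, map_mul, map_pow θ', map_CE, map_CE, t0', t1',
      AlgHom.one_apply]
    linear_combination (X 0 + C a * X 1 ^ q) * hc, by
      rw [EN_mul_apply, t1, t1', AlgHom.one_apply]⟩)
  let α : Fin 2 → ℝ := ![Finsupp.weight w (q • B), Finsupp.weight w B]
  have hP : IsWeightedHomogeneous α (θ (X 0)) (Finsupp.weight w (q • B)) := by
    rw [t0]
    refine (weightedHomogeneousSubmodule K α _).sub_mem
      ((isWeightedHomogeneous_X K α 0).C_mul _) (IsWeightedHomogeneous.C_mul ?_ _)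
    rw [map_nsmul]
    exact (isWeightedHomogeneous_X K α 1).pow q
  have h2 := (h1 K (Fin 2) w).2.2 (Fin 2) α (fun l => φ (X l)) ![monomial (q • B) a, monomial B b]
    (Fin.forall_fin_two.mpr ⟨hf, hg⟩) _ (θ (X 0)) _ ⟨hP, fun m hm => by simp at hm⟩
  have h3 : aeval ![monomial (q • B) a, monomial B b] (θ (X 0)) =
      (0 : MvPolynomial (Fin 2) K) := by
    rw [t0, map_sub, map_mul, map_mul, map_pow (aeval _), aeval_C, aeval_C, aeval_X, aeval_X,
      algebraMap_eq, Matrix.cons_val_zero, Matrix.cons_val_one, Matrix.cons_val_zero,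
      monomial_pow, C_mul_monomial, C_mul_monomial, mul_comm, sub_self]
  have h4 := h2.2
  rw [h3, sub_zero, show aeval (fun l => φ (X l)) (θ (X 0)) = φ (θ (X 0)) from
    aeval_EN (AlgHom.id K _) φ _] at h4
  have h5 := ih (φ * θ) (θ' * ψ) (by rw [mul_assoc, ← mul_assoc θ, i1, one_mul, e1])
    (by rw [mul_assoc, ← mul_assoc ψ, e2, one_mul, i2]) (lt_of_lt_of_le (by
      rw [ms, ms, EN_mul_apply, EN_mul_apply, t1]
      exact Nat.add_lt_add_right (low_lt (top_mem ha hf) h4) _) hn)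
  rw [EN_mul_apply, EN_mul_apply, t1, t0] at h5
  refine (h5.swap.step 1 (b ^ q) (C a * X 0 ^ q) one_ne_zero hu
    (mul_mem (C_mem _ _) (pow_mem (X_sup (by simp)) _)) ?_).swap
  rw [map_sub, map_mul, map_mul, map_mul, map_pow φ, map_pow (aeval _), map_CE, map_CE, map_CE,
    aeval_X, Function.update_self, map_one]
  ring

theorem main [CharZero K] (h1 : St_JTOP) (h2 : St_JDIV) (h3 : St_JCURVE) (n : ℕ) :
    ∀ φ ψ : EN (Fin 2) K, φ * ψ = 1 → ψ * φ = 1 → ms φ < n → TmS 0 1 (φ (X 0)) (φ (X 1)) := by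
  induction n with
  | zero => exact fun _ _ _ _ h => absurd h (Nat.not_lt_zero _)
  | succ n ih =>
    intro φ ψ e1 e2 hn
    have hn' : ms φ ≤ n := Nat.le_of_lt_succ hn
    have x1 : ∀ l, φ (ψ (X l)) = X l := fun l => by rw [← EN_mul_apply, e1, AlgHom.one_apply]
    have x2 : ∀ l, ψ (φ (X l)) = X l := fun l => by rw [← EN_mul_apply, e2, AlgHom.one_apply]
    have hT : ∀ l, ∃ A a, a ≠ 0 ∧ Top w (Finsupp.weight w A) (φ (X l)) (monomial A a) := fun l => by
      obtain ⟨D, H, h0, h⟩ := (h1 K (Fin 2) w).1 (φ (X l)) fun e =>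
        X_ne_zero (R := K) l (by rw [← x2 l, e, map_zero])
      obtain ⟨A, a, ha, rfl, rfl⟩ := hom_mon h.1 h0
      exact ⟨A, a, ha, h⟩
    choose A a ha hA using hT
    have hA0 : ∀ l, A l ≠ 0 := fun l e => by
      have h4 := (hA l).2
      rw [e, W_zero, ← C_apply] at h4
      have h5 := eq_C_of_fl fun m hm => (h4 m hm).trans zero_lt_one
      rw [sub_eq_iff_eq_add, ← map_add] at h5
      have h6 := congrArg (pderiv l) (x2 l)
      rw [h5, map_CE, pderiv_C, pderiv_X_self] at h6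
      exact zero_ne_one h6
    have hpos : ∀ l, 0 < Finsupp.weight w (A l) := fun l =>
      lt_of_lt_of_le zero_lt_one (not_lt.mp fun e => hA0 l (W_lt_one e))
    have key : ∀ l, TmS 0 1 (φ (X 0)) (φ (X 1)) ∨ A 0 = Finsupp.single l 1 ∨
        A 1 = Finsupp.single l 1 := fun l => by
      obtain ⟨D, H, h0, h⟩ := (h1 K (Fin 2) fun k => Finsupp.weight w (A k)).1 (ψ (X l)) fun e =>
        X_ne_zero (R := K) l (by rw [← x1 l, e, map_zero])
      have h4 := (h1 K (Fin 2) w).2.2 (Fin 2) _ (fun k => φ (X k)) _ hA D _ H h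
      rw [show aeval (fun k => φ (X k)) (ψ (X l)) = X l from
        (aeval_EN (AlgHom.id K _) φ _).trans (x1 l)] at h4
      by_cases h5 : aeval (fun k => (monomial (A k) (a k) : MvPolynomial (Fin 2) K)) H = 0
      · have h6 : eval a H = 0 := by
          have h7 := congrArg (aeval fun _ : Fin 2 => (1 : K)) h5
          rw [map_zero, ← AlgHom.comp_apply, comp_aeval] at h7
          simpa [aeval_monomial, Finsupp.prod, coe_aeval_eq_eval] using h7
        obtain ⟨p, q, hp, hq, hpq, he, hd⟩ := h2 K _ (hpos 0) (hpos 1) D H h.1 h0 a (ha 0) (ha 1) h6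
        left
        by_cases p1 : p = 1
        · have e : A 0 = q • A 1 := W_inj (by
            rw [map_nsmul, nsmul_eq_mul, ← he, p1, Nat.cast_one, one_mul])
          exact reduce h1 ih e1 e2 hn' (ha 0) (ha 1) (e ▸ hA 0) (hA 1)
        by_cases q1 : q = 1
        · have e : A 1 = p • A 0 := W_inj (by
            rw [map_nsmul, nsmul_eq_mul, he, q1, Nat.cast_one, one_mul])
          let s : EN (Fin 2) K := aeval ![X 1, X 0]
          have s0 : s (X 0) = X 1 := aeval_X _ _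
          have s1 : s (X 1) = X 0 := aeval_X _ _
          have ss : s * s = 1 := algHom_ext (Fin.forall_fin_two.mpr
            ⟨by rw [EN_mul_apply, s0, s1, AlgHom.one_apply],
              by rw [EN_mul_apply, s1, s0, AlgHom.one_apply]⟩)
          have y0 : (φ * s) (X 0) = φ (X 1) := by rw [EN_mul_apply, s0]
          have y1 : (φ * s) (X 1) = φ (X 0) := by rw [EN_mul_apply, s1]
          have h8 := reduce h1 ih (φ := φ * s) (ψ := s * ψ)
            (by rw [mul_assoc, ← mul_assoc s, ss, one_mul, e1])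
            (by rw [mul_assoc, ← mul_assoc ψ, e2, one_mul, ss])
            (by rw [ms, y0, y1, add_comm]; exact hn') (ha 1) (ha 0)
            (by rw [y0, ← e]; exact hA 1) (by rw [y1]; exact hA 0)
          rw [y0, y1] at h8
          exact h8.swap
        · exact absurd hd (nocusp h3 e1 e2 l h h0 (by omega) (by omega) hpq
            (pow_ne_zero _ (ha 1)) (pow_ne_zero _ (ha 0)))
      · obtain ⟨E, c, hc, hD, hE⟩ := hom_mon h4.1 h5
        rw [hE, hD] at h4
        have h6 := top_mem hc h4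
        rw [support_X, Finset.mem_singleton] at h6
        obtain ⟨m, hm⟩ := support_nonempty.mpr h0
        have h7 := h.1 (mem_support_iff.mp hm)
        rw [Finsupp.weight_apply, Finsupp.sum_fintype _ _ (fun _ => by simp), Fin.sum_univ_two,
          ← map_nsmul, ← map_nsmul, ← map_add, hD, h6] at h7
        exact Or.inr (unit_vec (hA0 0) (hA0 1) (W_inj h7))
    have ne : (Finsupp.single (0 : Fin 2) 1 : Fin 2 →₀ ℕ) ≠ Finsupp.single 1 1 := fun e => by
      simpa using DFunLike.congr_fun e 0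
    rcases key 0 with h | h | h
    · exact h
    · rcases key 1 with h' | h' | h'
      · exact h'
      · exact absurd (h.symm.trans h') ne
      · exact base (ha 0) (ha 1) (h ▸ hA 0) (h' ▸ hA 1)
    · rcases key 1 with h' | h' | h'
      · exact h'
      · exact (base (ha 1) (ha 0) (h ▸ hA 1) (h' ▸ hA 0)).swap
      · exact absurd (h.symm.trans h') ne

end bJUNG

theorem st_JUNG (h1 : St_JTOP) (h2 : St_JDIV) (h3 : St_JCURVE) : St_JUNG := by
  intro K _ _ f g P Q a1 a2 a3 a4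
  have h := bJUNG.main h1 h2 h3 _ (aeval ![f, g] : EN (Fin 2) K) (aeval ![P, Q])
    (algHom_ext (Fin.forall_fin_two.mpr ⟨by rw [EN_mul_apply, aeval_X]; exact a1,
      by rw [EN_mul_apply, aeval_X]; exact a2⟩))
    (algHom_ext (Fin.forall_fin_two.mpr ⟨by rw [EN_mul_apply, aeval_X]; exact a3,
      by rw [EN_mul_apply, aeval_X]; exact a4⟩)) (Nat.lt_succ_self _)
  rwa [aeval_X, aeval_X] at h

end Pool.Agent.Lib.ST61
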