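import Pool.Agent.Lib.ST61.Kit2

/-! A triangular step with denominator. -/

set_option autoImplicit false

namespace Pool.Agent.Lib.ST61

open MvPolynomial

namespace bKEY

variable {σ : Type} [Fintype σ] [DecidableEq σ] {i j : σ}

theorem up {r : ℕ} {B : EN σ Rt} (h : Mon i j r B) {a : Rt} (ha : a ≠ 0) :
    ∃ r', Mon i j r' (B * mu j a) := by
  refine poly_ind (P := fun a => ∃ r', Mon i j r' (B * mu j a)) (fun u => ?_)
    (fun c d _ hd => ?_) ha
  · rw [mu_unit]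
    exact ⟨r, h.mul (P2_le_HH (dgu_mem_P2 u))⟩
  · obtain ⟨r', hr⟩ := hd
    rw [← mu_mul, ← mul_assoc]
    exact ⟨r' + 1, hr.mu c⟩

theorem down (h : St_DOWN) (h3 : 3 ≤ Fintype.card σ) (hij : i ≠ j) {B : EN σ Rt}
    (hB : ∀ c, NC i j (pc c) (B (X i))) {d : Rt} (hd : d ≠ 0) :
    ∀ r, Mon i j r (B * mu j d) → ∃ r', Mon i j r' B := by
  refine poly_ind (P := fun d => ∀ r, Mon i j r (B * mu j d) → ∃ r', Mon i j r' B)
    (fun u r hr => ?_) (fun c d _ ih r hr => ?_) hd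
  · rw [mu_unit] at hr
    have := hr.mul (inv_mem (P2_le_HH (dgu_mem_P2 (i := i) (j := j) u)))
    rw [mul_assoc, ← coe_mul, mul_inv_cancel, coe_one, mul_one] at this
    exact ⟨r, this⟩
  · rw [← mu_mul, ← mul_assoc] at hr
    obtain ⟨r', hr'⟩ := h σ h3 i j hij r c (B * mu j d) hr (by
      rw [EN_mul_apply, mu_X_ne _ hij]; exact hB c)
    exact ih r' hr'

end bKEY

theorem st_KEY (h : St_DOWN) : St_KEY := by
  intro σ _ _ h3 i j hij r B B' hB hNC hl a d ha hd q hq e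
  obtain ⟨r1, h1⟩ := bKEY.up hB ha
  have h2 := h1.mul (P2_le_HH (shs_mem_P2 (i := i) (j := j) (Or.inr rfl) hq))
  have e2 : B * mu j a * (sh (Pi.single j (1 : ℂ)) q : EN σ Rt) = B' * mu j d := by
    refine algHom_ext fun l => ?_
    by_cases hlj : l = j
    · rw [hlj, EN_mul_apply, EN_mul_apply, EN_mul_apply, coe_apply, shs_X hq, map_add, mu_X,
        mu_fix _ hq, mu_X, map_add, map_mul, map_mul, map_CE, map_CE, e]
    · rw [EN_mul_apply, EN_mul_apply, EN_mul_apply, coe_apply, shs_X_ne hq hlj, mu_X_ne _ hlj,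
        mu_X_ne _ hlj, hl l hlj]
  rw [e2] at h2
  exact bKEY.down h h3 hij (fun c => by rw [hl i hij]; exact hNC c) hd r1 h2

end Pool.Agent.Lib.ST61
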