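import Mathlib

set_option autoImplicit false

namespace Pool.Agent.Lib.ST61

open MvPolynomial

/-- The automorphisms of `K[X_l]` that act on `X_i`, `X_j` by a matrix with entries in `K[X_w]`
for one further variable `X_w`, and fix the other variables. -/
def Lin (K : Type) [Field K] {n : ℕ} (i j : Fin n) :
    Set (MvPolynomial (Fin n) K ≃ₐ[K] MvPolynomial (Fin n) K) :=
  {ψ | ∃ w : Fin n, w ≠ i ∧ w ≠ j ∧ ∃ a b c d : Polynomial K,
    ψ (X i) = Polynomial.aeval (X w) a * X i + Polynomial.aeval (X w) b * X j ∧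
    ψ (X j) = Polynomial.aeval (X w) c * X i + Polynomial.aeval (X w) d * X j ∧
    ∀ l, l ≠ i → l ≠ j → ψ (X l) = X l}

end Pool.Agent.Lib.ST61
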