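import Pool.Agent.Lib.ST61.Kit2
import Pool.Agent.Lib.ST61.SLin

set_option autoImplicit false

namespace Pool.Agent.Lib.ST61

open MvPolynomial

namespace bLIN

variable {K : Type} [Field K] {n : ℕ} {i j w : Fin n}

theorem e_sup (w : Fin n) (a : Polynomial K) {s : Set (Fin n)} (h : w ∈ s) :
    Polynomial.aeval (X w : MvPolynomial (Fin n) K) a ∈ supported K s :=
  Algebra.adjoin_le (Set.singleton_subset_iff.mpr (X_sup h))
    (Polynomial.aeval_mem_adjoin_singleton K (X w))

theorem row (hi : w ≠ i) (hj : w ≠ j) (hij : i ≠ j) {f g : MvPolynomial (Fin n) K}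
    (h : TmS i j f g) {u : K} (hu : u ≠ 0) (q : Polynomial K) :
    TmS i j f (C u * g + Polynomial.aeval (X w) q * f) := by
  refine h.step u 1 (Polynomial.aeval (X w) q * X i) hu one_ne_zero
    (mul_mem (e_sup w q hj) (X_sup hij)) ?_
  rw [map_one, one_mul, map_mul, aeval_X, Function.update_self,
    sup_fix (e_sup w q (Set.mem_singleton w)) fun l hl => by
      rw [aeval_X, Function.update_of_ne (hl ▸ hi)]]

theorem euclid (hi : w ≠ i) (hj : w ≠ j) (hij : i ≠ j) (a : Polynomial K) :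
    ∀ b c d : Polynomial K, IsUnit (a * d - b * c) →
      TmS i j (Polynomial.aeval (X w) a * X i + Polynomial.aeval (X w) b * X j :
        MvPolynomial (Fin n) K) (Polynomial.aeval (X w) c * X i + Polynomial.aeval (X w) d * X j) := by
  induction a using (EuclideanDomain.r_wellFounded (R := Polynomial K)).induction with
  | _ a ih =>
    intro b c d h
    by_cases ha : a = 0
    · rw [ha, zero_mul, zero_sub, IsUnit.neg_iff, IsUnit.mul_iff] at h
      obtain ⟨u, hu, rfl⟩ := Polynomial.isUnit_iff.mp h.1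
      obtain ⟨v, hv, rfl⟩ := Polynomial.isUnit_iff.mp h.2
      have e1 := (row hi hj hij TmS.base.swap hv.ne_zero d).swap
      have e2 := (row hi hj hij e1 hu.ne_zero 0).swap
      simpa [ha] using e2
    · have e1 := ih (c % a) (EuclideanDomain.mod_lt c ha) (d - c / a * b) a b (by
        rw [← IsUnit.neg_iff, EuclideanDomain.mod_eq_sub_mul_div]
        have : -((c - a * (c / a)) * b - (d - c / a * b) * a) = a * d - b * c := by ring
        rwa [this])
      have e2 := row hi hj hij e1.swap one_ne_zero (c / a)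
      rw [EuclideanDomain.mod_eq_sub_mul_div] at e2
      refine e2.scale one_ne_zero one_ne_zero ?_
      simp only [map_sub, map_mul, map_one]
      ring

end bLIN

open bLIN in
theorem st_LIN (K : Type) [Field K] (n : ℕ) (i j : Fin n) (hij : i ≠ j) :
    ∀ ψ ∈ Lin K i j, TmS i j (ψ (X i)) (ψ (X j)) ∧ TmS i j (ψ⁻¹ (X i)) (ψ⁻¹ (X j)) := by
  rintro ψ ⟨w, hi, hj, a, b, c, d, h1, h2, h3⟩
  have f0 : ∀ (e : Polynomial K) {l : Fin n}, l = i ∨ l = j →
      pderiv l (Polynomial.aeval (X w : MvPolynomial (Fin n) K) e) = 0 := fun e l hl =>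
    pderiv_sup (s := {w}) (by rcases hl with rfl | rfl <;> simp [hi.symm, hj.symm])
      (e_sup w e rfl)
  have f1 : ∀ e : Polynomial K, ψ (Polynomial.aeval (X w) e) = Polynomial.aeval (X w) e :=
    fun e => sup_fix' (e_sup w e (Set.mem_singleton w)) fun l hl => by rw [hl, h3 w hi hj]
  have c1 := chain2 hij (ψ : EN (Fin n) K) h3 (Or.inl rfl) (ψ⁻¹ (X i))
  have c2 := chain2 hij (ψ : EN (Fin n) K) h3 (Or.inr rfl) (ψ⁻¹ (X i))
  have c3 := chain2 hij (ψ : EN (Fin n) K) h3 (Or.inl rfl) (ψ⁻¹ (X j))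
  have c4 := chain2 hij (ψ : EN (Fin n) K) h3 (Or.inr rfl) (ψ⁻¹ (X j))
  simp only [coe_apply, apply_inv_apply, h1, h2, map_add, pderiv_mul, f0 _ (Or.inl rfl),
    f0 _ (Or.inr rfl), pderiv_X_self, pderiv_X_of_ne hij, pderiv_X_of_ne hij.symm, zero_mul,
    mul_zero, mul_one, zero_add, add_zero] at c1 c2 c3 c4
  have u1 : IsUnit (Polynomial.aeval (X w : MvPolynomial (Fin n) K) (a * d - b * c)) := by
    refine IsUnit.of_mul_eq_one (ψ (pderiv i (ψ⁻¹ (X i))) * ψ (pderiv j (ψ⁻¹ (X j))) -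
      ψ (pderiv j (ψ⁻¹ (X i))) * ψ (pderiv i (ψ⁻¹ (X j)))) ?_
    simp only [map_sub, map_mul]
    generalize ψ (pderiv i (ψ⁻¹ (X i))) = p1 at *
    generalize ψ (pderiv j (ψ⁻¹ (X i))) = p2 at *
    generalize ψ (pderiv i (ψ⁻¹ (X j))) = p3 at *
    generalize ψ (pderiv j (ψ⁻¹ (X j))) = p4 at *
    linear_combination (-(p3 * Polynomial.aeval (X w) b + p4 * Polynomial.aeval (X w) d)) * c1 -
      c4 + (p3 * Polynomial.aeval (X w) a + p4 * Polynomial.aeval (X w) c) * c2
  have u2 : IsUnit (a * d - b * c) := by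
    have := u1.map (aeval fun _ : Fin n => (Polynomial.X : Polynomial K))
    rwa [← Polynomial.aeval_algHom_apply, aeval_X, Polynomial.aeval_X_left_apply] at this
  obtain ⟨e, he⟩ := u2.exists_left_inv
  have he' := congrArg (Polynomial.aeval (X w : MvPolynomial (Fin n) K)) he
  simp only [map_sub, map_mul, map_one] at he'
  have g1 : ψ⁻¹ (X i) = Polynomial.aeval (X w) (e * d) * X i +
      Polynomial.aeval (X w) (-(e * b)) * X j := by
    rw [← ψ.injective.eq_iff, apply_inv_apply, map_add, map_mul ψ, map_mul ψ, f1, f1, h1, h2]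
    simp only [map_neg, map_mul]
    linear_combination (-X i) * he'
  have g2 : ψ⁻¹ (X j) = Polynomial.aeval (X w) (-(e * c)) * X i +
      Polynomial.aeval (X w) (e * a) * X j := by
    rw [← ψ.injective.eq_iff, apply_inv_apply, map_add, map_mul ψ, map_mul ψ, f1, f1, h1, h2]
    simp only [map_neg, map_mul]
    linear_combination (-X j) * he'
  rw [h1, h2, g1, g2]
  refine ⟨euclid hi hj hij _ _ _ _ u2, euclid hi hj hij _ _ _ _
    (IsUnit.of_mul_eq_one (a * d - b * c) ?_)⟩
  linear_combination (e * (a * d - b * c) + 1) * he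

end Pool.Agent.Lib.ST61
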