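import Pool.Agent.Lib.ST61.Kit2

set_option autoImplicit false

namespace Pool.Agent.Lib.ST61

open MvPolynomial

namespace bM

variable {σ : Type} [Fintype σ] [DecidableEq σ] {i j : σ}

omit [Fintype σ] [DecidableEq σ] in
theorem unit_C {a : MvPolynomial σ ℂ} (h : IsUnit a) : ∃ b : ℂˣ, a = C (b : ℂ) := by
  obtain ⟨r, hr, e⟩ := isUnit_iff_eq_C_of_isReduced.mp h
  exact ⟨hr.unit, e⟩

omit [Fintype σ] [DecidableEq σ] in
theorem keep_X {β : GA σ ℂ} {b : MvPolynomial σ ℂ} (h : β (X j) = X j * b) :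
    ∃ b : ℂˣ, β (X j) = C (b : ℂ) * X j := by
  have h1 : Irreducible (β (X j)) := (MulEquiv.irreducible_iff β).mpr X_prime.irreducible
  rcases h1.isUnit_or_isUnit h with e | e
  · exact absurd e X_prime.not_isUnit
  · obtain ⟨u, rfl⟩ := unit_C e
    exact ⟨u, by rw [h, mul_comm]⟩

theorem tri_form (hij : i ≠ j) {β : GA σ ℂ} (hF : β ∈ Fx ℂ i j) {b : ℂˣ}
    (h : β (X j) = C (b : ℂ) * X j) :
    ∃ (a : ℂˣ) (G : MvPolynomial σ ℂ), G ∈ supported ℂ ({i}ᶜ : Set σ) ∧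
      β (X i) = C (a : ℂ) * X i + G := by
  have h1 := chain2 hij (β : EN σ ℂ) hF (Or.inl rfl) (β⁻¹ (X i))
  simp only [coe_apply] at h1
  rw [apply_inv_apply, pderiv_X_self, h, pderiv_C_mul, pderiv_X_of_ne hij.symm, mul_zero, mul_zero,
    add_zero] at h1
  obtain ⟨a, ha⟩ := unit_C (IsUnit.of_mul_eq_one_right _ h1.symm)
  refine ⟨a, β (X i) - C (a : ℂ) * X i, sup_of_pderiv fun l hl => ?_, by ring⟩
  have : l = i := by simpa using hl
  rw [this, map_sub, ha, pderiv_C_mul, pderiv_X_self, mul_one, sub_self]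

/-- the case of a map congruent to the identity -/
theorem cong_case (h : St_M3) (h3 : 3 ≤ Fintype.card σ) (hij : i ≠ j) (c : ℂ) {κ : GA σ Rt}
    (h1 : κ ∈ TT ℂ Rt σ) (h2 : κ ∈ Kc σ (pc c)) : ∃ β ∈ TT ℂ Rt σ, β ∈ Kc σ (pc c) ⊔ P2 i j ∧
      mu j (pc c) * (κ : EN σ Rt) = (β : EN σ Rt) * mu j (pc c) := by
  obtain ⟨β, b1, b2⟩ := h σ h3 j c κ h1 h2
  obtain ⟨e, he⟩ := h2 (X j)
  have e0 := mu_zero_sup j e
  refine ⟨β, b1, mem_sup_of_cong (Subgroup.mem_sup_right (shs_mem_P2 (Or.inr rfl) e0))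
    fun l => ?_, b2⟩
  have e1 := DFunLike.congr_fun b2 (X l)
  rw [EN_mul_apply, EN_mul_apply, coe_apply, coe_apply] at e1
  by_cases hl : l = j
  · rw [hl, eq_add_of_sub_eq he, map_add, map_mul, map_CE, mu_X, map_mul, map_C', ← mul_add] at e1
    rw [hl, shs_X e0, ← mul_left_cancel₀ (C_ne_zero.mpr (pc_ne_zero c)) e1, add_comm (X j),
      add_sub_add_right_eq_sub]
    exact mu_cong j (by rw [sub_zero]) e
  · have e2 := cong_map (mu j (pc c)) (h2 (X l))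
    rw [e1, mu_X_ne _ hl] at e2
    rwa [shs_X_ne e0 hl]

end bM

open bM in
theorem st_M (h : St_M3) : St_M := by
  intro σ _ _ h3 i j hij c γ hγ ⟨a, b, hab⟩
  obtain ⟨g1, g2, g3⟩ := mem_HH.mp hγ
  obtain ⟨β, hβ⟩ := exists_redA c γ
  have b0 : ∀ l, β (X l) = red c (γ (X l)) := fun l => by rw [← hβ, red_X]
  have b1 : β ∈ Fx ℂ i j := fun l h1 h2 => by rw [b0, g2 l h1 h2, red_X]
  obtain ⟨b', hb'⟩ := keep_X (β := β) (j := j) (b := red c b) (by
    rw [b0, hab, map_add, map_mul, map_mul, red_pc, zero_mul, zero_add, red_X])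
  obtain ⟨a', G, hG, ha'⟩ := tri_form hij b1 hb'
  have hG' : lft G ∈ supported Rt ({i}ᶜ : Set σ) := map_sup _ hG
  obtain ⟨τ, t0, t1, t2⟩ := exists_tri hij a' b' hG'
  obtain ⟨τ', s0, s1, s2⟩ := exists_tri hij a' b' (mu_sup (j := j) (pc c) hG')
  have t3 := mem_HH.mp (P2_le_HH t0)
  have s3 := mem_HH.mp (P2_le_HH s0)
  have k1 : γ * τ⁻¹ ∈ Kc σ (pc c) := Kc_of fun l => by
    rw [dvd_iff_red, map_sub, ← b0, sub_eq_zero]
    by_cases h1 : l = i
    · rw [h1, ha', t1, map_add, map_mul, red_cc, red_X, red_lft]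
    by_cases h2 : l = j
    · rw [h2, hb', t2, map_mul, red_cc, red_X]
    · rw [b1 l h1 h2, t3.2.1 l h1 h2, red_X]
  obtain ⟨δ, d1, d2, d3⟩ := cong_case h h3 hij c (mul_mem g1 (inv_mem t3.1)) k1
  have m1 : mu j (pc c) * (τ : EN σ Rt) = (τ' : EN σ Rt) * mu j (pc c) := algHom_ext fun l => by
    rw [EN_mul_apply, EN_mul_apply, coe_apply, coe_apply]
    by_cases h1 : l = i
    · rw [h1, t1, map_add, map_mul, map_cc, mu_X_ne _ hij, s1]
    by_cases h2 : l = j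
    · rw [h2, t2, map_mul, map_cc, mu_X, map_mul, map_C', s2, mul_left_comm]
    · rw [t3.2.1 l h1 h2, mu_X_ne _ h2, s3.2.1 l h1 h2]
  have m2 : mu j (pc c) * (γ : EN σ Rt) = ((δ * τ' : GA σ Rt) : EN σ Rt) * mu j (pc c) := by
    rw [coe_mul, mul_assoc, ← m1, ← mul_assoc, ← d3, mul_assoc, ← coe_mul, inv_mul_cancel_right]
  have m3 : ∀ x, mu j (pc c) (γ x) = (δ * τ') (mu j (pc c) x) := fun x => DFunLike.congr_fun m2 x
  refine ⟨δ * τ', mem_HH.mpr ⟨mul_mem d1 s3.1, fun l h1 h2 => ?_, fun c' => ?_⟩, m2⟩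
  · have := m3 (X l)
    rw [g2 l h1 h2, mu_X_ne _ h2] at this
    exact this.symm
  by_cases hc : c' = c
  · rw [hc]; exact mul_mem d2 (s3.2.2 c)
  obtain ⟨π, p1, p2⟩ := cong_of_mem_sup (g3 c')
  have e0 : ∀ x, C (pc c') ∣ mu j (pc c) x -
      dg Rt (Function.update 1 j (Units.mk0 (c' - c) (sub_ne_zero.mpr hc))) x := fun x => by
    rw [← coe_apply, ← mu_unit]
    exact mu_cong j (by rw [Units.val_mk0, pc_sub]) x
  have e1 := dgu_mem_P2 (i := i) (j := j) (Units.mk0 (c' - c) (sub_ne_zero.mpr hc))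
  generalize dg Rt (Function.update 1 j (Units.mk0 (c' - c) (sub_ne_zero.mpr hc))) = η at e0 e1
  have e2 : δ * τ' * η ∈ Kc σ (pc c') ⊔ P2 i j := by
    refine mem_sup_of_cong (Subgroup.mem_sup_right (mul_mem e1 p1)) fun l => ?_
    have f1 := cong_map ((δ * τ' : GA σ Rt) : EN σ Rt) (dvd_sub_comm.mp (e0 (X l)))
    rw [coe_apply, coe_apply, ← m3] at f1
    exact cong_trans (cong_trans f1 (e0 _)) (cong_map (η : EN σ Rt) (p2 (X l)))
  have := mul_mem e2 (Subgroup.mem_sup_right (inv_mem e1))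
  rwa [mul_inv_cancel_right] at this

end Pool.Agent.Lib.ST61
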