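import Pool.Agent.Lib.ST61.Kit2

set_option autoImplicit false

namespace Pool.Agent.Lib.ST61

open MvPolynomial

namespace bM3

variable {σ : Type} [Fintype σ] [DecidableEq σ]

/-- automorphisms which pass through `mu` with a conjugate in `Γ` -/
def Pass (j : σ) (d : Rt) (Γ : Subgroup (GA σ Rt)) : Subgroup (GA σ Rt) where
  carrier := {α | ∃ β ∈ Γ, mu j d * (α : EN σ Rt) = (β : EN σ Rt) * mu j d}
  one_mem' := ⟨1, one_mem _, by rw [coe_one, mul_one, one_mul]⟩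
  mul_mem' := by
    rintro a b ⟨β, h1, h2⟩ ⟨β', h3, h4⟩
    exact ⟨β * β', mul_mem h1 h3, by rw [coe_mul, coe_mul, ← mul_assoc, h2, mul_assoc, h4, mul_assoc]⟩
  inv_mem' := by
    rintro a ⟨β, h1, h2⟩
    refine ⟨β⁻¹, inv_mem h1, algHom_ext fun l => ?_⟩
    have := DFunLike.congr_fun h2 (a⁻¹ (X l))
    rw [EN_mul_apply, EN_mul_apply, coe_apply, coe_apply, apply_inv_apply] at this
    rw [EN_mul_apply, EN_mul_apply, coe_apply, coe_apply, this, inv_apply_apply]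

theorem mu_L (j : σ) (d : Rt) (ℓ : σ → ℂ) :
    mu j d (L Rt ℓ) = L Rt ℓ + cc Rt σ (ℓ j) * ((C d - 1) * X j) := by
  have : ∀ l, mu j d (cc Rt σ (ℓ l) * X l) = cc Rt σ (ℓ l) * X l +
      if l = j then cc Rt σ (ℓ j) * ((C d - 1) * X j) else 0 := fun l => by
    rw [map_mul, map_cc]
    split_ifs with h
    · rw [h, mu_X]; ring
    · rw [mu_X_ne _ h, add_zero]
  simp only [L, map_sum, this, Finset.sum_add_distrib, Finset.sum_ite_eq', Finset.mem_univ, if_true]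

theorem pass_sh {j : σ} (d : Rt) {u : σ → ℂ} (hu : u j = 0) {F : MvPolynomial σ Rt}
    (hF : F ∈ Au Rt u) : sh u F ∈ Pass j d (TT ℂ Rt σ) := by
  have h1 : mu j d F ∈ Au Rt u := map_Au (fun ℓ hl => by
    rw [mu_L]
    exact add_mem (L_mem_Au hl)
      (mul_mem (cc_mem _ _) (mul_mem (sub_mem (C_mem _ _) (one_mem _)) (X_mem_Au hu)))) hF
  refine ⟨sh u (mu j d F), sh_mem_TT h1, algHom_ext fun l => ?_⟩
  rw [EN_mul_apply, EN_mul_apply, coe_apply, coe_apply, sh_X hF, map_add, map_mul, map_cc]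
  by_cases h : l = j
  · rw [h, mu_X, map_mul, map_C', sh_X h1, hu, map_zero, zero_mul, add_zero, add_zero]
  · rw [mu_X_ne _ h, sh_X h1]

theorem pass_shs (j : σ) (d : Rt) {G : MvPolynomial σ Rt} (hG : G ∈ supported Rt ({j}ᶜ : Set σ)) :
    sh (Pi.single j (1 : ℂ)) (C d * G) ∈ Pass j d (TT ℂ Rt σ) := by
  have h1 : C d * G ∈ supported Rt ({j}ᶜ : Set σ) := mul_mem (C_mem _ _) hG
  refine ⟨sh (Pi.single j (1 : ℂ)) G, sh_mem_TT (by rwa [Au_single]), algHom_ext fun l => ?_⟩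
  rw [EN_mul_apply, EN_mul_apply, coe_apply, coe_apply]
  by_cases h : l = j
  · rw [h, shs_X h1, map_add, mu_fix _ h1, mu_X, map_mul, map_C', shs_X hG, mul_add]
  · rw [shs_X_ne h1 h, mu_X_ne _ h, shs_X_ne hG h]

theorem pass_N1 (j : σ) (d : Rt) : N1 ℂ σ d ≤ Pass j d (TT ℂ Rt σ) := by
  refine (Subgroup.closure_le _).mpr ?_
  rintro _ ⟨v, G, hG, rfl⟩
  by_cases hv : v j = 0
  · exact pass_sh d hv (mul_mem (C_mem _ _) hG)
  obtain ⟨u', m, e1, e2, H⟩ := sh_red (R := Rt) hv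
  have e3 := pass_sh d e1 (L_mem_Au (R := Rt) e2)
  rw [(H _ (mul_mem (C_mem _ d) hG)).2, map_mul, map_C', mul_left_comm]
  exact mul_mem (mul_mem (inv_mem e3) (pass_shs j d (mul_mem (cc_mem _ _) (H G hG).1))) e3

end bM3

open bM3 in
theorem st_M3 (h2 : St_F2) (h4 : St_F4) : St_M3 := by
  intro σ _ _ h3 j c α hα hK
  have e1 : Nm (pc c) (Pi.single j (1 : ℂ)) ≤ Pass j (pc c) (TT ℂ Rt σ) := by
    refine Nm_le fun u _ hu => (Subgroup.closure_le _).mpr ?_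
    rintro _ ⟨F, hF, n, hn, rfl⟩
    rw [single_dotProduct, one_mul] at hu
    exact mul_mem (mul_mem (pass_sh _ hu hF) (pass_N1 j _ hn)) (inv_mem (pass_sh _ hu hF))
  exact e1 (Nm_le (fun u hu _ => h2 σ h3 _ u _ hu) (h4 σ h3 c α hα hK))

end Pool.Agent.Lib.ST61
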