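import Pool.Agent.Lib.ST61.Kit2

/-! The descent along a word of swaps and triangular steps. -/

set_option autoImplicit false

namespace Pool.Agent.Lib.ST61

open MvPolynomial

namespace bMAIN

variable {σ : Type} [Fintype σ] [DecidableEq σ] {i j : σ}

/-- equal up to nonzero constants and a polynomial in the parameters -/
def Rel (i j : σ) (f F : MvPolynomial σ Rt) : Prop :=
  ∃ d a : Rt, d ≠ 0 ∧ a ≠ 0 ∧ ∃ q ∈ supported Rt ({i, j}ᶜ : Set σ), C d * f = C a * F + q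

/-- the invariant of the descent -/
def Inv (i j : σ) (f g : MvPolynomial σ Rt) : Prop :=
  ∃ (r : ℕ) (B : EN σ Rt), Mon i j r B ∧ (∀ c, NC i j (pc c) (B (X i))) ∧
    (∀ c, NC i j (pc c) (B (X j))) ∧ Rel i j f (B (X i)) ∧ Rel i j g (B (X j))

omit [Fintype σ] [DecidableEq σ] in
theorem rel_self (f : MvPolynomial σ Rt) : Rel i j f f :=
  ⟨1, 1, one_ne_zero, one_ne_zero, 0, zero_mem _, (add_zero _).symm⟩

omit [Fintype σ] [DecidableEq σ] in
theorem sup_le_j {q : MvPolynomial σ Rt} (hq : q ∈ supported Rt ({i, j}ᶜ : Set σ)) :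
    q ∈ supported Rt ({j}ᶜ : Set σ) :=
  supported_mono (s := {i, j}ᶜ) (t := {j}ᶜ) (fun _ hl e => hl (Or.inr e)) hq

theorem fix_par {r : ℕ} {B : EN σ Rt} (h : Mon i j r B) {q : MvPolynomial σ Rt}
    (hq : q ∈ supported Rt ({i, j}ᶜ : Set σ)) : B q = q :=
  sup_fix hq fun l hl => h.fix l (fun e => hl (Or.inl e)) fun e => hl (Or.inr e)

theorem clear (hij : i ≠ j) {r : ℕ} {B : EN σ Rt} (h : Mon i j r B) {f : MvPolynomial σ Rt}
    (hf : Rel i j f (B (X i))) {q : MvPolynomial σ Rt} (hq : q ∈ supported Rt ({j}ᶜ : Set σ)) :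
    ∃ e : Rt, e ≠ 0 ∧ ∃ q' ∈ supported Rt ({j}ᶜ : Set σ),
      C e * aeval (Function.update X i f) q = B q' := by
  induction hq using Algebra.adjoin_induction with
  | mem x hx =>
    obtain ⟨l, hl, rfl⟩ := hx
    by_cases e : l = i
    · obtain ⟨d, a, hd, _, q0, hq0, e0⟩ := hf
      refine ⟨d, hd, C a * X i + q0,
        add_mem (mul_mem (C_mem _ _) (X_sup hij)) (sup_le_j hq0), ?_⟩
      rw [e, aeval_X, Function.update_self, map_add, map_mul, map_CE, fix_par h hq0, e0]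
    · refine ⟨1, one_ne_zero, X l, X_sup hl, ?_⟩
      rw [aeval_X, Function.update_of_ne e, map_one, one_mul, h.fix l e hl]
  | algebraMap a =>
    refine ⟨1, one_ne_zero, C a, C_mem _ _, ?_⟩
    rw [AlgHom.commutes, map_one, one_mul, map_CE, algebraMap_eq]
  | add x y _ _ hx hy =>
    obtain ⟨e1, h1, q1, hq1, e1'⟩ := hx
    obtain ⟨e2, h2, q2, hq2, e2'⟩ := hy
    refine ⟨e1 * e2, mul_ne_zero h1 h2, C e2 * q1 + C e1 * q2,
      add_mem (mul_mem (C_mem _ _) hq1) (mul_mem (C_mem _ _) hq2), ?_⟩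
    rw [map_add B, map_mul B, map_mul B, map_CE, map_CE, ← e1', ← e2', map_add, map_mul]
    ring
  | mul x y _ _ hx hy =>
    obtain ⟨e1, h1, q1, hq1, e1'⟩ := hx
    obtain ⟨e2, h2, q2, hq2, e2'⟩ := hy
    refine ⟨e1 * e2, mul_ne_zero h1 h2, q1 * q2, mul_mem hq1 hq2, ?_⟩
    rw [map_mul B, ← e1', ← e2', map_mul, map_mul]
    ring

theorem swp (hij : i ≠ j) {r : ℕ} {B : EN σ Rt} (h : Mon i j r B) :
    ∃ B' : EN σ Rt, Mon i j r B' ∧ B' (X i) = B (X j) ∧ B' (X j) = B (X i) := by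
  obtain ⟨s, hs, e1, e2⟩ := exists_swap hij
  refine ⟨B * (s : EN σ Rt), h.mul (P2_le_HH hs), ?_, ?_⟩
  · rw [EN_mul_apply, coe_apply, e1]
  · rw [EN_mul_apply, coe_apply, e2]

theorem repl (h1 : St_KEY) (h3 : 3 ≤ Fintype.card σ) (hij : i ≠ j) {r : ℕ} {B : EN σ Rt}
    (h : Mon i j r B) (hN : ∀ c, NC i j (pc c) (B (X i))) {g : MvPolynomial σ Rt} {a d : Rt}
    (ha : a ≠ 0) (hd : d ≠ 0) {q : MvPolynomial σ Rt} (hq : q ∈ supported Rt ({j}ᶜ : Set σ))
    (e : C d * g = C a * B (X j) + B q) :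
    ∃ (r' : ℕ) (B' : EN σ Rt), Mon i j r' B' ∧ B' (X i) = B (X i) ∧ B' (X j) = g := by
  have e1 : (aeval (Function.update (fun l => B (X l)) j g) : EN σ Rt) (X j) = g := by
    rw [aeval_X, Function.update_self]
  have e2 : ∀ l, l ≠ j →
      (aeval (Function.update (fun l => B (X l)) j g) : EN σ Rt) (X l) = B (X l) := fun l hl => by
    rw [aeval_X, Function.update_of_ne hl]
  obtain ⟨r', hr⟩ := h1 σ h3 i j hij r B _ h hN e2 a d ha hd q hq (by rw [e1, e])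
  exact ⟨r', _, hr, e2 i hij, e1⟩

theorem repl' (h1 : St_KEY) (h3 : 3 ≤ Fintype.card σ) (hij : i ≠ j) {r : ℕ} {B : EN σ Rt}
    (h : Mon i j r B) (hN : ∀ c, NC i j (pc c) (B (X i))) {g : MvPolynomial σ Rt}
    (hg : Rel i j g (B (X j))) :
    ∃ (r' : ℕ) (B' : EN σ Rt), Mon i j r' B' ∧ B' (X i) = B (X i) ∧ B' (X j) = g := by
  obtain ⟨d, a, hd, ha, q, hq, e⟩ := hg
  exact repl h1 h3 hij h hN ha hd (sup_le_j hq) (by rw [fix_par h hq, e])

theorem part {r : ℕ} {B : EN σ Rt} (h : Mon i j r B) {a : Rt} (ha : a ≠ 0)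
    {q : MvPolynomial σ Rt} (hq : q ∈ supported Rt ({j}ᶜ : Set σ)) :
    pderiv i (B (C a * X j + q)) ≠ 0 ∨ pderiv j (B (C a * X j + q)) ≠ 0 := by
  by_contra hn
  obtain ⟨n1, n2⟩ := not_or.mp hn
  have hs : B (C a * X j + q) ∈ supported Rt ({i, j}ᶜ : Set σ) := sup_of_pderiv fun l hl => by
    have hl' : l = i ∨ l = j := not_not.mp hl
    rcases hl' with rfl | rfl
    · exact not_not.mp n1
    · exact not_not.mp n2
  have e := h.inj (fix_par h hs)
  have e1 := not_not.mp n2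
  rw [e, map_add, pderiv_C_mul, pderiv_X_self, mul_one,
    pderiv_sup (s := {j}ᶜ) (not_not.mpr rfl) hq, add_zero] at e1
  exact ha (C_eq_zero.mp e1)

theorem inv (h1 : St_KEY) (h2 : St_NORM) (h3 : 3 ≤ Fintype.card σ) (hij : i ≠ j)
    {f g : MvPolynomial σ Rt} (H : TmS i j f g) : Inv i j f g := by
  induction H with
  | base =>
    exact ⟨0, _, Mon.base (one_mem _), fun c => NC_aut hij (one_mem _) c (Or.inl rfl),
      fun c => NC_aut hij (one_mem _) c (Or.inr rfl), rel_self _, rel_self _⟩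
  | swap _ ih =>
    obtain ⟨r, B, hB, n1, n2, r1, r2⟩ := ih
    obtain ⟨B', hB', e1, e2⟩ := swp hij hB
    refine ⟨r, B', hB', ?_, ?_, ?_, ?_⟩
    · rw [e1]; exact n2
    · rw [e2]; exact n1
    · rw [e1]; exact r2
    · rw [e2]; exact r1
  | @step f g g' c d q _ hc hd hq e ih =>
    obtain ⟨r, B, hB, n1, _, r1, d2, a2, hd2, ha2, q2, hq2, e2⟩ := ih
    obtain ⟨e0, he0, q', hq', e3⟩ := clear hij hB r1 hq
    have ha : e0 * c * a2 ≠ 0 := mul_ne_zero (mul_ne_zero he0 hc) ha2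
    have hq3 : C (e0 * c) * q2 + C d2 * q' ∈ supported Rt ({j}ᶜ : Set σ) :=
      add_mem (mul_mem (C_mem _ _) (sup_le_j hq2)) (mul_mem (C_mem _ _) hq')
    have e4 : C (e0 * d2 * d) * g' =
        B (C (e0 * c * a2) * X j + (C (e0 * c) * q2 + C d2 * q')) := by
      rw [map_add B, map_add B, map_mul B, map_mul B, map_mul B, map_CE, map_CE, map_CE,
        fix_par hB hq2, ← e3]
      simp only [map_mul]
      linear_combination (C e0 * C d2) * e + (C e0 * C c) * e2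
    obtain ⟨d3, g2, q3, hd3, hq4, n3, e5⟩ := h2 σ i j _ (part hB ha hq3)
    obtain ⟨r', B', hB', e6, e7⟩ := repl h1 h3 hij hB n1 (g := g2) ha hd3
      (add_mem hq3 (sup_le_j hq4)) (by
        rw [e5, map_add B _ q3, fix_par hB hq4, map_add B, map_mul B, map_CE, add_assoc])
    refine ⟨r', B', hB', ?_, ?_, ?_, ?_⟩
    · rw [e6]; exact n1
    · rw [e7]; exact n3
    · rw [e6]; exact r1
    · refine ⟨e0 * d2 * d, d3, mul_ne_zero (mul_ne_zero he0 hd2) hd, hd3, -q3, neg_mem hq4, ?_⟩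
      rw [e7, e5, e4, add_neg_cancel_right]

end bMAIN

theorem st_MAIN (h1 : St_KEY) (h2 : St_NORM) : St_MAIN := by
  intro σ _ _ h3 i j hij φ hφ H
  obtain ⟨r, B, hB, n1, _, r1, r2⟩ := bMAIN.inv h1 h2 h3 hij H
  obtain ⟨r1', B1, hB1, e1, e2⟩ := bMAIN.repl' h1 h3 hij hB n1 r2
  obtain ⟨B2, hB2, e3, e4⟩ := bMAIN.swp hij hB1
  obtain ⟨r3, B3, hB3, e5, e6⟩ := bMAIN.repl' h1 h3 hij hB2 (g := φ (X i))
    (fun c => by rw [e3, e2]; exact NC_aut hij hφ c (Or.inr rfl)) (by rw [e4, e1]; exact r1)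
  obtain ⟨B4, hB4, e7, e8⟩ := bMAIN.swp hij hB3
  refine (mem_HH.mp (hB4.aut (algHom_ext fun l => ?_))).1
  rw [coe_apply]
  by_cases a1 : l = i
  · rw [a1, e7, e6]
  by_cases a2 : l = j
  · rw [a2, e8, e5, e3, e2]
  · rw [hB4.fix l a1 a2, hφ l a1 a2]

end Pool.Agent.Lib.ST61
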