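import Pool.Agent.Lib.ST61.Kit2

/-! Normalisation: divide out the primes modulo which a polynomial depends on the parameters only. -/

set_option autoImplicit false

namespace Pool.Agent.Lib.ST61

open MvPolynomial

namespace bNORM

variable {σ : Type}

theorem split {i j : σ} {c : ℂ} {g : MvPolynomial σ Rt} (h : ¬ NC i j (pc c) g) :
    ∃ q0 ∈ supported Rt ({i, j}ᶜ : Set σ), ∃ g1, g - q0 = C (pc c) * g1 := by
  have h' : C (pc c) ∣ pderiv i g ∧ C (pc c) ∣ pderiv j g := not_not.mp h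
  refine ⟨lft (red c g), map_sup _ (sup_of_pderiv fun l hl => ?_), dvd_sub_lft c g⟩
  have hl' : l = i ∨ l = j := not_not.mp hl
  rw [← red_pderiv, ← dvd_iff_red]
  rcases hl' with rfl | rfl
  · exact h'.1
  · exact h'.2

theorem not_unit (c : ℂ) : ¬ IsUnit (C (pc c) : MvPolynomial σ Rt) := fun h => by
  have := h.map (red c)
  rw [red_pc] at this
  exact not_isUnit_zero this

theorem main {i j l : σ} (hl : l = i ∨ l = j) (a : MvPolynomial σ Rt) :
    ∀ g : MvPolynomial σ Rt, pderiv l g = a → a ≠ 0 → ∃ (d : Rt) (g' q : MvPolynomial σ Rt),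
      d ≠ 0 ∧ q ∈ supported Rt ({i, j}ᶜ : Set σ) ∧ (∀ c, NC i j (pc c) g') ∧
      C d * g' = g + q := by
  induction a using (wellFounded_dvdNotUnit (α := MvPolynomial σ Rt)).induction with
  | _ a ih =>
    intro g hg ha
    by_cases h : ∀ c, NC i j (pc c) g
    · exact ⟨1, g, 0, one_ne_zero, zero_mem _, h, by rw [map_one, one_mul, add_zero]⟩
    obtain ⟨c, hc⟩ := not_forall.mp h
    obtain ⟨q0, hq0, g1, e⟩ := split hc
    have e1 : a = pderiv l g1 * C (pc c) := by
      have := congrArg (pderiv l) e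
      rw [map_sub, pderiv_sup (s := {i, j}ᶜ) (not_not.mpr hl) hq0, sub_zero, pderiv_C_mul, hg] at this
      rw [this, mul_comm]
    have h1 : pderiv l g1 ≠ 0 := fun h0 => ha (by rw [e1, h0, zero_mul])
    obtain ⟨d, g', q, hd, hq, hn, e2⟩ := ih _ ⟨h1, _, not_unit c, e1⟩ g1 rfl h1
    refine ⟨pc c * d, g', C (pc c) * q - q0, mul_ne_zero (pc_ne_zero c) hd,
      sub_mem (mul_mem (C_mem _ _) hq) hq0, hn, ?_⟩
    rw [map_mul, mul_assoc, e2, mul_add, ← e]
    ring

end bNORM

theorem st_NORM : St_NORM := by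
  intro σ _ _ i j g h
  rcases h with h | h
  · exact bNORM.main (Or.inl rfl) _ g rfl h
  · exact bNORM.main (Or.inr rfl) _ g rfl h

end Pool.Agent.Lib.ST61
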