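import Pool.Agent.Lib.ST61.Kit2

/-! Plane automorphisms with parameters added. -/

set_option autoImplicit false

namespace Pool.Agent.Lib.ST61

open MvPolynomial

namespace bPLANE

variable {K : Type} [Field K] {n : ℕ} {i j : Fin n}

/-- kill the parameters -/
noncomputable def ka (K : Type) [Field K] (i j : Fin n) :
    MvPolynomial (Fin n) K →ₐ[K] MvPolynomial (Fin 2) K :=
  aeval fun l => if l = i then X 0 else if l = j then X 1 else 0

theorem ka_i : ka K i j (X i) = X 0 := by simp [ka]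

theorem ka_j (h : i ≠ j) : ka K i j (X j) = X 1 := by simp [ka, h.symm]

theorem ka_ne {l : Fin n} (h1 : l ≠ i) (h2 : l ≠ j) : ka K i j (X l) = 0 := by simp [ka, h1, h2]

theorem rho_ka (h : i ≠ j) {a : MvPolynomial (Fin n) K}
    (ha : a ∈ supported K ({i, j} : Set (Fin n))) : rename ![i, j] (ka K i j a) = a :=
  sup_fix ha (φ := (rename ![i, j]).comp (ka K i j)) fun l hl => by
    rcases hl with rfl | rfl
    · rw [AlgHom.comp_apply, ka_i, rename_X]; rfl
    · rw [AlgHom.comp_apply, ka_j h, rename_X]; rfl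

theorem ka_comp (h : i ≠ j) (ψ : GA (Fin n) K) (hψ : ∀ l, l ≠ i → l ≠ j → ψ (X l) = X l)
    (a : MvPolynomial (Fin n) K) :
    aeval ![ka K i j (ψ (X i)), ka K i j (ψ (X j))] (ka K i j a) = ka K i j (ψ a) := by
  have e : (aeval ![ka K i j (ψ (X i)), ka K i j (ψ (X j))]).comp (ka K i j) =
      (ka K i j).comp (ψ : EN (Fin n) K) := algHom_ext fun l => by
    rw [AlgHom.comp_apply, AlgHom.comp_apply, coe_apply]
    by_cases h1 : l = i
    · rw [h1, ka_i, aeval_X]; rfl
    by_cases h2 : l = j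
    · rw [h2, ka_j h, aeval_X]; rfl
    · rw [hψ l h1 h2, ka_ne h1 h2, map_zero]
  exact DFunLike.congr_fun e a

theorem transfer (h : i ≠ j) {f g : MvPolynomial (Fin 2) K} (H : TmS 0 1 f g) :
    TmS i j (rename ![i, j] f) (rename ![i, j] g) := by
  induction H with
  | base => rw [rename_X, rename_X]; exact TmS.base
  | swap _ ih => exact ih.swap
  | @step f g g' c d q _ hc hd hq e ih =>
    refine ih.step c d (rename ![i, j] q) hc hd ?_ ?_
    · refine (Algebra.adjoin_le (S := (supported K ({j}ᶜ : Set (Fin n))).comap (rename ![i, j]))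
        ?_) hq
      rintro _ ⟨l, hl, rfl⟩
      have h0 : l = 0 := by
        fin_cases l
        · rfl
        · exact absurd rfl hl
      rw [h0, SetLike.mem_coe, Subalgebra.mem_comap, rename_X]
      exact X_sup h
    · have e1 := congrArg (rename ![i, j]) e
      rw [map_mul, map_add, map_mul, rename_C, rename_C] at e1
      have e2 : (rename ![i, j]).comp (aeval (Function.update X 0 f)) =
          (aeval (Function.update X i (rename ![i, j] f)) : EN (Fin n) K).comp (rename ![i, j]) :=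
        algHom_ext fun l => by
          fin_cases l <;> simp [h.symm]
      rw [e1]
      exact congrArg _ (DFunLike.congr_fun e2 q)

end bPLANE

open bPLANE in
theorem st_PLANE (h : St_JUNG) : St_PLANE := by
  intro K _ _ n i j hij ψ hψ
  obtain ⟨h1, h2, h3⟩ := hψ
  have h4 : ∀ l, l ≠ i → l ≠ j → ψ⁻¹ (X l) = X l := fun l a b => inv_fix (h3 l a b)
  have e1 := ka_comp hij ψ h3 (ψ⁻¹ (X i))
  have e2 := ka_comp hij ψ h3 (ψ⁻¹ (X j))
  have e3 := ka_comp hij ψ⁻¹ h4 (ψ (X i))
  have e4 := ka_comp hij ψ⁻¹ h4 (ψ (X j))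
  rw [apply_inv_apply, ka_i] at e1
  rw [apply_inv_apply, ka_j hij] at e2
  rw [inv_apply_apply, ka_i] at e3
  rw [inv_apply_apply, ka_j hij] at e4
  have t1 := transfer hij (h K _ _ _ _ e1 e2 e3 e4)
  have t2 := transfer hij (h K _ _ _ _ e3 e4 e1 e2)
  rw [rho_ka hij h1, rho_ka hij h2] at t1
  have e : (ψ : EN (Fin n) K).comp (rename ![i, j]) =
      (rename ![i, j]).comp (aeval ![ka K i j (ψ (X i)), ka K i j (ψ (X j))]) :=
    algHom_ext fun l => by
      fin_cases l <;> simp [rho_ka hij h1, rho_ka hij h2]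
  have key : ∀ (P : MvPolynomial (Fin 2) K) (l : Fin 2),
      aeval ![ka K i j (ψ (X i)), ka K i j (ψ (X j))] P = X l →
      rename ![i, j] P = ψ⁻¹ (X (![i, j] l)) := fun P l hP => by
    have e5 := DFunLike.congr_fun e P
    rw [AlgHom.comp_apply, AlgHom.comp_apply, hP, rename_X, coe_apply] at e5
    rw [← e5, inv_apply_apply]
  rw [key _ _ e1, key _ _ e2] at t2
  exact ⟨t1, t2⟩

end Pool.Agent.Lib.ST61
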