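import Pool.Agent.Lib.ST61.Kit2

/-! Spanning by polynomials in one linear form. -/

set_option autoImplicit false

namespace Pool.Agent.Lib.ST61

open MvPolynomial

namespace bSP

/-- the coefficients of a vector polynomial with infinitely many values in a subspace -/
theorem vand {V : Type} [AddCommGroup V] [Module ℂ V] (W : Submodule ℂ V) (n : ℕ) (w : ℕ → V)
    (h : {t : ℂ | ∑ i ∈ Finset.range n, t ^ i • w i ∈ W}.Infinite) {i : ℕ} (hi : i < n) :
    w i ∈ W := by
  rw [← Subspace.forall_mem_dualAnnihilator_apply_eq_zero_iff]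
  intro φ hφ
  rw [Submodule.mem_dualAnnihilator] at hφ
  have h0 : (∑ i ∈ Finset.range n, Polynomial.monomial i (φ (w i))) = 0 := by
    refine Polynomial.eq_zero_of_infinite_isRoot _ (h.mono fun t ht => ?_)
    have e := hφ _ ht
    rw [map_sum] at e
    rw [Set.mem_ofPred_eq, Polynomial.IsRoot.def, Polynomial.eval_finsetSum, ← e]
    refine Finset.sum_congr rfl fun l _ => ?_
    rw [Polynomial.eval_monomial, map_smul, smul_eq_mul, mul_comm]
  have e := congrArg (fun P => Polynomial.coeff P i) h0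
  simpa [Polynomial.coeff_monomial, hi] using e

variable {σ : Type} [Fintype σ]

/-- the span of the powers of the good forms -/
noncomputable def W (good : Set (σ → ℂ)) : Submodule Rt (MvPolynomial σ Rt) :=
  Submodule.span Rt {a | ∃ ℓ ∈ good, ∃ d : ℕ, a = L Rt ℓ ^ d}

theorem pow_mem {good : Set (σ → ℂ)} {ℓ : σ → ℂ} (h : ℓ ∈ good) (d : ℕ) :
    L Rt ℓ ^ d ∈ W good := Submodule.subset_span ⟨ℓ, h, d, rfl⟩

theorem pow_mul_mem {good : Set (σ → ℂ)} {ℓ m : σ → ℂ}
    (h : {t : ℂ | ℓ + t • m ∈ good}.Infinite) (d : ℕ) : L Rt ℓ ^ d * L Rt m ∈ W good := by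
  have h1 := vand ((W good).restrictScalars ℂ) (d + 1 + 1)
    (fun i => L Rt m ^ i * L Rt ℓ ^ (d + 1 - i) * ((d + 1).choose i : MvPolynomial σ Rt))
    (h.mono fun t ht => by
      have e := pow_mem ht (d + 1)
      rw [L_add, L_smul, add_comm, add_pow] at e
      rw [Set.mem_ofPred_eq, Submodule.restrictScalars_mem]
      refine Set.mem_of_eq_of_mem (Finset.sum_congr rfl fun i _ => ?_) e
      rw [Algebra.smul_def, map_pow, cc_eq, mul_pow]
      ring) (i := 1) (by omega)
  have h2 := Submodule.smul_mem _ (((d + 1 : ℕ) : ℂ)⁻¹) h1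
  have h3 : ((d + 1 : ℕ) : ℂ) ≠ 0 := Nat.cast_ne_zero.mpr (Nat.succ_ne_zero d)
  rw [Submodule.restrictScalars_mem, Nat.choose_one_right, pow_one, Nat.add_sub_cancel,
    ← map_natCast (algebraMap ℂ (MvPolynomial σ Rt)), mul_comm, ← Algebra.smul_def, smul_smul,
    inv_mul_cancel₀ h3, one_smul, mul_comm] at h2
  exact h2

theorem W_le {good : Set (σ → ℂ)} {a : MvPolynomial σ Rt} (ha : a ∈ W good) (r : Rt) :
    r • a ∈ AddSubmonoid.closure {F | ∃ ℓ ∈ good, F ∈ A1 Rt ℓ} := by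
  induction ha using Submodule.span_induction generalizing r with
  | mem a h =>
    obtain ⟨ℓ, hl, d, rfl⟩ := h
    exact AddSubmonoid.subset_closure
      ⟨ℓ, hl, Subalgebra.smul_mem _ (_root_.pow_mem (L_mem_A1 ℓ) d) r⟩
  | zero => rw [smul_zero]; exact zero_mem _
  | add a b _ _ ha hb => rw [smul_add]; exact add_mem (ha r) (hb r)
  | smul s a _ ha => rw [smul_smul]; exact ha _

theorem key {v : σ → ℂ} {good : Set (σ → ℂ)} (h0 : good.Nonempty)
    (h1 : ∀ ℓ ∈ good, ∀ m : σ → ℂ, m ⬝ᵥ v = 0 → {t : ℂ | ℓ + t • m ∈ good}.Infinite)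
    {G : MvPolynomial σ Rt} (hG : G ∈ Au Rt v) :
    G ∈ AddSubmonoid.closure {F | ∃ ℓ ∈ good, F ∈ A1 Rt ℓ} := by
  have h2 : ∀ w ∈ W good, w * G ∈ W good := by
    induction hG using Algebra.adjoin_induction with
    | mem a h =>
      obtain ⟨m, hm, rfl⟩ := h
      intro w hw
      induction hw using Submodule.span_induction with
      | mem a h =>
        obtain ⟨ℓ, hl, d, rfl⟩ := h
        exact pow_mul_mem (h1 ℓ hl m hm) d
      | zero => rw [zero_mul]; exact zero_mem _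
      | add a b _ _ ha hb => rw [add_mul]; exact add_mem ha hb
      | smul s a _ ha => rw [smul_mul_assoc]; exact Submodule.smul_mem _ _ ha
    | algebraMap r =>
      intro w hw
      rw [mul_comm, ← Algebra.smul_def]
      exact Submodule.smul_mem _ _ hw
    | add a b _ _ ha hb => intro w hw; rw [mul_add]; exact add_mem (ha w hw) (hb w hw)
    | mul a b _ _ ha hb => intro w hw; rw [← mul_assoc]; exact hb _ (ha w hw)
  obtain ⟨ℓ, hl⟩ := h0
  have h3 := W_le (h2 _ (pow_mem hl 0)) 1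
  rwa [pow_zero, one_mul, one_smul] at h3

end bSP

theorem st_SP : St_SP := by
  intro σ _ v
  refine ⟨fun G hG => ?_, fun u hu G hG => ?_⟩
  · refine bSP.key (good := {ℓ | ℓ ⬝ᵥ v = 0}) ⟨0, zero_dotProduct v⟩ (fun ℓ hl m hm => ?_) hG
    refine Set.infinite_univ.mono fun t _ => ?_
    show (ℓ + t • m) ⬝ᵥ v = 0
    rw [add_dotProduct, smul_dotProduct, hm, smul_zero, add_zero]
    exact hl
  · have h := bSP.key (good := {ℓ | ℓ ⬝ᵥ v = 0 ∧ ℓ ⬝ᵥ u ≠ 0}) hu (fun ℓ hl m hm => ?_) hG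
    · refine AddSubmonoid.closure_mono ?_ h
      rintro F ⟨ℓ, hl, hF⟩
      exact ⟨ℓ, hl.1, hl.2, hF⟩
    · refine (Set.finite_singleton (-(ℓ ⬝ᵥ u) / (m ⬝ᵥ u))).infinite_compl.mono fun t ht => ?_
      refine ⟨?_, fun e => ht ?_⟩
      · rw [add_dotProduct, smul_dotProduct, hm, smul_zero, add_zero]
        exact hl.1
      · rw [add_dotProduct, smul_dotProduct, smul_eq_mul] at e
        have e2 : m ⬝ᵥ u ≠ 0 := fun e2 => hl.2 (by rwa [e2, mul_zero, add_zero] at e)
        rw [Set.mem_singleton_iff, eq_div_iff e2]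
        linear_combination e

end Pool.Agent.Lib.ST61
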