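import Pool.Agent.Lib.ST61.Kit2

/-! Row TR: transcendence modulo `t - c`. -/

set_option autoImplicit false

namespace Pool.Agent.Lib.ST61

open MvPolynomial

namespace bTR

variable {σ : Type}

theorem shift_mem {l : σ} {a : MvPolynomial σ ℂ} {m : σ →₀ ℕ} (hm : m ∈ (pderiv l a).support) :
    m + Finsupp.single l 1 ∈ a.support := by
  rw [mem_support_iff] at hm ⊢
  rw [coeff_pderiv] at hm
  exact left_ne_zero_of_mul hm

theorem pderiv_mem {s : Set σ} (l : σ) {a : MvPolynomial σ ℂ} (h : a ∈ supported ℂ s) :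
    pderiv l a ∈ supported ℂ s := by
  classical
  refine mem_supported.mpr fun k hk => mem_supported.mp h ?_
  obtain ⟨m, hm, hk'⟩ := (mem_vars_iff_mem_support k).mp hk
  refine (mem_vars_iff_mem_support k).mpr ⟨_, shift_mem hm, ?_⟩
  rw [Finsupp.mem_support_iff] at hk' ⊢
  rw [Finsupp.add_apply]
  omega

theorem core [Fintype σ] {i j : σ} (hij : i ≠ j) (B : EN σ ℂ)
    (hB : ∀ l, l ≠ i → l ≠ j → B (X l) = X l) {l : σ} (hl : l = i ∨ l = j)
    (hf : pderiv l (B (X i)) ≠ 0) (n : ℕ) : ∀ r ∈ supported ℂ ({j}ᶜ : Set σ),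
      (∀ m ∈ r.support, m i < n) → B r = 0 → r = 0 := by
  induction n with
  | zero =>
    intro r _ h _
    by_contra e
    obtain ⟨m, hm⟩ := support_nonempty.mpr e
    exact Nat.not_lt_zero _ (h m hm)
  | succ n ih =>
    intro r hr h h0
    have hj : pderiv j r = 0 := pderiv_sup (by simp) hr
    have h1 := chain2 hij B hB hl r
    rw [h0, map_zero, hj, map_zero, zero_mul, add_zero] at h1
    have h2 : pderiv i r = 0 := by
      refine ih _ (pderiv_mem i hr) (fun m hm => ?_) ((mul_eq_zero.mp h1.symm).resolve_right hf)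
      have := h _ (shift_mem hm)
      rw [Finsupp.add_apply, Finsupp.single_eq_same] at this
      omega
    have h3 : r ∈ supported ℂ {k | k ≠ i ∧ k ≠ j} := sup_of_pderiv fun k hk => by
      by_cases e : k = i
      · rw [e, h2]
      · have e' : k = j := by_contra fun e' => hk ⟨e, e'⟩
        rw [e', hj]
    rw [← sup_fix h3 (φ := B) fun k hk => hB k hk.1 hk.2, h0]

end bTR

theorem st_TR : St_TR := by
  intro σ _ _ i j hij c B hB hNC r hr h
  rw [dvd_iff_red] at h ⊢
  have hB' : ∀ l, l ≠ i → l ≠ j → redE c B (X l) = X l := fun l h1 h2 => by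
    rw [redE_X, hB l h1 h2, red_X]
  obtain ⟨l, hl, hf⟩ : ∃ l, (l = i ∨ l = j) ∧ pderiv l (redE c B (X i)) ≠ 0 := by
    by_contra e
    refine hNC ⟨?_, ?_⟩
    · rw [dvd_iff_red, red_pderiv, ← redE_X]
      exact by_contra fun e' => e ⟨i, Or.inl rfl, e'⟩
    · rw [dvd_iff_red, red_pderiv, ← redE_X]
      exact by_contra fun e' => e ⟨j, Or.inr rfl, e'⟩
  refine bTR.core hij (redE c B) hB' hl hf (degreeOf i (red c r) + 1) _ (map_sup _ hr)
    (fun m hm => Nat.lt_succ_of_le (monomial_le_degreeOf i hm)) ?_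
  rw [redE_red, h]

end Pool.Agent.Lib.ST61
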