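import Pool.Agent.Lib.ST61.Kit2

/-! Transfer between automorphisms over the polynomial ring and automorphisms of affine space. -/

set_option autoImplicit false

namespace Pool.Agent.Lib.ST61

open MvPolynomial Pool.Agent.Lib.MP_1309d3_ag

namespace bTRANS

/-- the first variable becomes the parameter of the coefficient ring -/
noncomputable def Ps (n : ℕ) : MvPolynomial (Fin (n + 1)) ℂ ≃ₐ[ℂ] MvPolynomial (Fin n) Rt :=
  (renameEquiv ℂ (_root_.finSuccEquiv n)).trans (optionEquivRight ℂ (Fin n))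

variable {n : ℕ}

theorem Ps_succ (l : Fin n) : Ps n (X l.succ) = X l := by
  simp [Ps]

theorem Ps_zero : Ps n (X 0) = C Polynomial.X := by
  simp [Ps]

theorem Ps_C (a : ℂ) : Ps n (C a) = cc Rt (Fin n) a := (Ps n).commutes a

theorem Ps_aeval (r : Rt) : Ps n (Polynomial.aeval (X 0) r) = C r := by
  induction r using Polynomial.induction_on' with
  | add p q hp hq => rw [map_add, map_add, hp, hq, map_add]
  | monomial k a =>
    rw [Polynomial.aeval_monomial, map_mul, map_pow, Ps_zero, AlgEquiv.commutes,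
      ← Polynomial.C_mul_X_pow_eq_monomial, map_mul, map_pow]
    rfl

theorem symm_C (r : Rt) : (Ps n).symm (C r) = Polynomial.aeval (X 0) r := by
  rw [← Ps_aeval, AlgEquiv.symm_apply_apply]

theorem symm_X (l : Fin n) : (Ps n).symm (X l) = X l.succ := by
  rw [← Ps_succ, AlgEquiv.symm_apply_apply]

theorem symm_cc (a : ℂ) : (Ps n).symm (cc Rt (Fin n) a) = C a := by
  rw [← Ps_C, AlgEquiv.symm_apply_apply]

theorem io_Ps (a : MvPolynomial (Fin (n + 1)) ℂ) : io (Ps n a) = generic n a := by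
  induction a using MvPolynomial.induction_on with
  | C a =>
    rw [Ps_C, cc_eq_C, io_C, generic, aeval_C, ← IsScalarTower.algebraMap_apply]
    rfl
  | add p q hp hq => rw [map_add, map_add, hp, hq, map_add]
  | mul_X p i hp =>
    have e : io (Ps n (X i)) = generic n (X i) := by
      refine Fin.cases ?_ (fun l => ?_) i
      · rw [Ps_zero, io_C, generic, aeval_X, Fin.cases_zero, RatFunc.algebraMap_X]
      · rw [Ps_succ, io_X, generic, aeval_X, Fin.cases_succ]
    rw [map_mul, map_mul, hp, e, map_mul]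

theorem push (φ : Aut (n + 1)) (h : φ (X 0) = X 0) :
    ∃ α : GA (Fin n) Rt, ∀ a, α (Ps n a) = Ps n (φ a) := by
  refine ⟨AlgEquiv.ofRingEquiv (f := ((Ps n).symm.trans (φ.trans (Ps n))).toRingEquiv)
    fun r => ?_, fun a => ?_⟩
  · change Ps n (φ ((Ps n).symm (C r))) = C r
    rw [symm_C, ← Polynomial.aeval_algHom_apply, h, Ps_aeval]
  · change Ps n (φ ((Ps n).symm (Ps n a))) = _
    rw [AlgEquiv.symm_apply_apply]

/-- pulling an automorphism back to affine space -/
noncomputable def pb (α : GA (Fin n) Rt) : Aut (n + 1) :=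
  (Ps n).trans ((α.restrictScalars ℂ).trans (Ps n).symm)

theorem pb_apply (α : GA (Fin n) Rt) (a : MvPolynomial (Fin (n + 1)) ℂ) :
    pb α a = (Ps n).symm (α (Ps n a)) := rfl

theorem pb_zero (α : GA (Fin n) Rt) : pb α (X 0) = X 0 := by
  rw [pb_apply, Ps_zero, map_C', ← Ps_zero, AlgEquiv.symm_apply_apply]

theorem pb_succ (α : GA (Fin n) Rt) (l : Fin n) : pb α (X l.succ) = (Ps n).symm (α (X l)) := by
  rw [pb_apply, Ps_succ]

/-- the pull back as a homomorphism of groups -/
noncomputable def pbH (n : ℕ) : GA (Fin n) Rt →* Aut (n + 1) :=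
  MonoidHom.mk' pb fun α β => AlgEquiv.ext fun a => by
    rw [AlgEquiv.mul_apply, pb_apply, pb_apply, pb_apply, AlgEquiv.apply_symm_apply,
      AlgEquiv.mul_apply]

theorem deg_X (i : Fin (n + 1)) : (X i : MvPolynomial (Fin (n + 1)) ℂ).totalDegree ≤ 1 :=
  (totalDegree_X i).le

theorem deg_C_mul (a : ℂ) {p : MvPolynomial (Fin (n + 1)) ℂ} (h : p.totalDegree ≤ 1) :
    (C a * p).totalDegree ≤ 1 := by
  have := totalDegree_mul (C a) p
  rw [totalDegree_C] at this
  omega

theorem aff {α : GA (Fin n) Rt} (h : ∀ l, ((Ps n).symm (α (X l))).totalDegree ≤ 1) :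
    pb α ∈ Aff (n + 1) := fun i => by
  refine Fin.cases ?_ (fun l => ?_) i
  · rw [pb_zero]; exact deg_X _
  · rw [pb_succ]; exact h l

theorem deg_L (m : Fin n → ℂ) : ((Ps n).symm (L Rt m)).totalDegree ≤ 1 := by
  rw [L, map_sum]
  refine totalDegree_finsetSum_le fun l _ => ?_
  rw [map_mul, symm_cc, symm_X]
  exact deg_C_mul _ (deg_X _)

theorem symm_sup {j : Fin n} {G : MvPolynomial (Fin n) Rt}
    (hG : G ∈ supported Rt ({j}ᶜ : Set (Fin n))) :
    (Ps n).symm G ∈ supported ℂ ({j.succ}ᶜ : Set (Fin (n + 1))) := by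
  induction hG using Algebra.adjoin_induction with
  | mem x hx =>
    obtain ⟨l, hl, rfl⟩ := hx
    rw [symm_X]
    exact X_sup fun e => hl (Fin.succ_injective _ e)
  | algebraMap r =>
    rw [algebraMap_eq, symm_C]
    exact Algebra.adjoin_le (Set.singleton_subset_iff.mpr (X_sup (Fin.succ_ne_zero j).symm))
      (Polynomial.aeval_mem_adjoin_singleton ℂ _)
  | add x y _ _ hx hy => rw [map_add]; exact add_mem hx hy
  | mul x y _ _ hx hy => rw [map_mul]; exact mul_mem hx hy

end bTRANS

open bTRANS in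
theorem st_TRANS : St_TRANS := by
  intro n
  refine ⟨(Ps n).toRingEquiv, Ps_succ, io_Ps, push, fun Γ hA hE α hα => ?_⟩
  have key : TT ℂ Rt (Fin n) ≤ Γ.comap (pbH n) := by
    refine TT_le (fun u m h => hA (aff fun l => ?_)) (fun j G hG => ?_)
      fun a => hA (aff fun l => ?_)
    · rw [sh_X (L_mem_Au h), map_add, map_mul, symm_X, symm_cc]
      exact (totalDegree_add _ _).trans (max_le (deg_X _) (deg_C_mul _ (deg_L m)))
    · obtain ⟨φ, hφ, e1, e2⟩ := hE j.succ _ (symm_sup hG)
      have e : pb (sh (Pi.single j (1 : ℂ)) G) = φ := GA_ext fun i => by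
        refine Fin.cases ?_ (fun l => ?_) i
        · rw [pb_zero, e2 0 (Fin.succ_ne_zero j).symm]
        · rw [pb_succ]
          by_cases hl : l = j
          · rw [hl, shs_X hG, map_add, symm_X, e1]
          · rw [shs_X_ne hG hl, symm_X, e2 _ fun e => hl (Fin.succ_injective _ e)]
      exact (show pb _ ∈ Γ from e ▸ hφ)
    · rw [dg_X, map_mul, symm_cc, symm_X]
      exact deg_C_mul _ (deg_X _)
  refine ⟨pb α, key hα, fun a => ?_⟩
  change α (Ps n a) = Ps n (pb α a)
  rw [pb_apply, AlgEquiv.apply_symm_apply]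

end Pool.Agent.Lib.ST61
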