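import Mathlib

set_option autoImplicit false

namespace Pool.Agent.Lib.ST61

open MvPolynomial

/-- The automorphisms of `K[X_l]` that change one variable `X_a`, `a` one of `i`, `j`, to
`c X_a + q` with `c` a constant and `q` free of `X_a`, and fix the other variables. -/
def Tri (K : Type) [Field K] {n : ℕ} (i j : Fin n) :
    Set (MvPolynomial (Fin n) K ≃ₐ[K] MvPolynomial (Fin n) K) :=
  {ψ | ∃ a ∈ ({i, j} : Set (Fin n)), ∃ (c : K) (q : MvPolynomial (Fin n) K),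
    a ∉ q.vars ∧ ψ (X a) = C c * X a + q ∧ ∀ l, l ≠ a → ψ (X l) = X l}

/-- The automorphisms of `K[X_l]` that send `X_i`, `X_j` into `K[X_i, X_j]` and fix the other
variables. -/
def Plane (K : Type) [Field K] {n : ℕ} (i j : Fin n) :
    Set (MvPolynomial (Fin n) K ≃ₐ[K] MvPolynomial (Fin n) K) :=
  {ψ | ψ (X i) ∈ supported K ({i, j} : Set (Fin n)) ∧ ψ (X j) ∈ supported K ({i, j} : Set (Fin n)) ∧
    ∀ l, l ≠ i → l ≠ j → ψ (X l) = X l}

/-- The inclusion of `ℂ[x_0, …, x_n]` into `ℂ(t)[x_1, …, x_n]` with `x_0 ↦ t`. -/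
noncomputable def generic (n : ℕ) :
    MvPolynomial (Fin (n + 1)) ℂ →ₐ[ℂ] MvPolynomial (Fin n) (RatFunc ℂ) :=
  aeval (Fin.cases (C RatFunc.X) X)

end Pool.Agent.Lib.ST61
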