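import Pool.Agent.Lib.ST61.Defs
import Pool.Agent.Lib.ST61.SDefs
import Pool.Agent.Lib.MP_1309d3_ag.Defs

/-! The statements of the blocks. -/

set_option autoImplicit false

namespace Pool.Agent.Lib.ST61

open MvPolynomial Pool.Agent.Lib.MP_1309d3_ag

/-- spanning by polynomials in one linear form -/
def St_SP : Prop := ∀ (σ : Type) [Fintype σ] (v : σ → ℂ),
  (∀ G ∈ Au Rt v, G ∈ AddSubmonoid.closure {F | ∃ ℓ : σ → ℂ, ℓ ⬝ᵥ v = 0 ∧ F ∈ A1 Rt ℓ}) ∧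
  ∀ u : σ → ℂ, (∃ ℓ : σ → ℂ, ℓ ⬝ᵥ v = 0 ∧ ℓ ⬝ᵥ u ≠ 0) → ∀ G ∈ Au Rt v,
    G ∈ AddSubmonoid.closure {F | ∃ ℓ : σ → ℂ, ℓ ⬝ᵥ v = 0 ∧ ℓ ⬝ᵥ u ≠ 0 ∧ F ∈ A1 Rt ℓ}

/-- shears invariant in the direction `u` normalise `Nu p u` -/
def St_F1 : Prop := ∀ (σ : Type) [Fintype σ] (p : Rt) (u u' : σ → ℂ) (g : MvPolynomial σ Rt),
  u ≠ 0 → g ∈ Au Rt u → g ∈ Au Rt u' → ∀ n ∈ Nu p u, sh u' g * n * (sh u' g)⁻¹ ∈ Nu p u

/-- one hyperplane of directions is enough -/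
def St_F2 : Prop := ∀ (σ : Type) [Fintype σ], 3 ≤ Fintype.card σ → ∀ (p : Rt) (u m : σ → ℂ),
  u ≠ 0 → Nu p u ≤ Nm p m

/-- normality -/
def St_F3 : Prop := ∀ (σ : Type) [Fintype σ], 3 ≤ Fintype.card σ → ∀ (p : Rt),
  ∀ α ∈ TT ℂ Rt σ, ∀ n ∈ Nm p (0 : σ → ℂ), α * n * α⁻¹ ∈ Nm p (0 : σ → ℂ)

/-- the congruence subgroup -/
def St_F4 : Prop := ∀ (σ : Type) [Fintype σ], 3 ≤ Fintype.card σ → ∀ (c : ℂ),
  ∀ α ∈ TT ℂ Rt σ, α ∈ Kc σ (pc c) → α ∈ Nm (pc c) (0 : σ → ℂ)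

/-- conjugating a congruence map by `mu` -/
def St_M3 : Prop := ∀ (σ : Type) [Fintype σ] [DecidableEq σ], 3 ≤ Fintype.card σ →
  ∀ (j : σ) (c : ℂ), ∀ α ∈ TT ℂ Rt σ, α ∈ Kc σ (pc c) →
    ∃ β ∈ TT ℂ Rt σ, mu j (pc c) * (α : EN σ Rt) = (β : EN σ Rt) * mu j (pc c)

/-- conjugating an element of `HH` by `mu` -/
def St_M : Prop := ∀ (σ : Type) [Fintype σ] [DecidableEq σ], 3 ≤ Fintype.card σ →
  ∀ (i j : σ), i ≠ j → ∀ (c : ℂ), ∀ γ ∈ HH i j,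
    (∃ a b : MvPolynomial σ Rt, γ (X j) = C (pc c) * a + X j * b) →
    ∃ γ' ∈ HH i j, mu j (pc c) * (γ : EN σ Rt) = (γ' : EN σ Rt) * mu j (pc c)

/-- transcendence modulo `t - c` -/
def St_TR : Prop := ∀ (σ : Type) [Fintype σ] [DecidableEq σ] (i j : σ), i ≠ j →
  ∀ (c : ℂ) (B : EN σ Rt), (∀ l, l ≠ i → l ≠ j → B (X l) = X l) → NC i j (pc c) (B (X i)) →
    ∀ r ∈ supported Rt ({j}ᶜ : Set σ), C (pc c) ∣ B r → C (pc c) ∣ r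

/-- division by one prime -/
def St_DOWN : Prop := ∀ (σ : Type) [Fintype σ] [DecidableEq σ], 3 ≤ Fintype.card σ →
  ∀ (i j : σ), i ≠ j → ∀ (r : ℕ) (c : ℂ) (B : EN σ Rt), Mon i j r (B * mu j (pc c)) →
    NC i j (pc c) (B (X i)) → ∃ r', Mon i j r' B

/-- a triangular step with denominator -/
def St_KEY : Prop := ∀ (σ : Type) [Fintype σ] [DecidableEq σ], 3 ≤ Fintype.card σ →
  ∀ (i j : σ), i ≠ j → ∀ (r : ℕ) (B B' : EN σ Rt), Mon i j r B →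
    (∀ c, NC i j (pc c) (B (X i))) → (∀ l, l ≠ j → B' (X l) = B (X l)) →
    ∀ (a d : Rt), a ≠ 0 → d ≠ 0 → ∀ q ∈ supported Rt ({j}ᶜ : Set σ),
      C d * B' (X j) = C a * B (X j) + B q → ∃ r', Mon i j r' B'

/-- normalisation -/
def St_NORM : Prop := ∀ (σ : Type) [Fintype σ] [DecidableEq σ] (i j : σ) (g : MvPolynomial σ Rt),
  (pderiv i g ≠ 0 ∨ pderiv j g ≠ 0) → ∃ (d : Rt) (g' q : MvPolynomial σ Rt), d ≠ 0 ∧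
    q ∈ supported Rt ({i, j}ᶜ : Set σ) ∧ (∀ c, NC i j (pc c) g') ∧ C d * g' = g + q

/-- the descent -/
def St_MAIN : Prop := ∀ (σ : Type) [Fintype σ] [DecidableEq σ], 3 ≤ Fintype.card σ →
  ∀ (i j : σ), i ≠ j → ∀ φ ∈ Fx Rt i j, TmS i j (φ (X i)) (φ (X j)) → φ ∈ TT ℂ Rt σ

/-- clearing denominators -/
def St_CLR : Prop := ∀ (σ : Type) [DecidableEq σ] (i j : σ), i ≠ j →
  ∀ f g : MvPolynomial σ Rt, TmS i j (io f) (io g) → TmS i j f g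

/-- from generators to words -/
def St_CLOS : Prop := ∀ (K : Type) [Field K] (n : ℕ) (i j : Fin n), i ≠ j →
  (∀ ψ ∈ Tri K i j, ψ ∈ Fx K i j ∧ TmS i j (ψ (X i)) (ψ (X j)) ∧
    TmS i j (ψ⁻¹ (X i)) (ψ⁻¹ (X j))) ∧
  ∀ S : Set (GA (Fin n) K), (∀ ψ ∈ S, ψ ∈ Fx K i j ∧ TmS i j (ψ (X i)) (ψ (X j)) ∧
    TmS i j (ψ⁻¹ (X i)) (ψ⁻¹ (X j))) → ∀ ψ ∈ Subgroup.closure S, TmS i j (ψ (X i)) (ψ (X j))

/-- top parts: existence, uniqueness, substitution -/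
def St_JTOP : Prop := ∀ (K : Type) [Field K] (υ : Type) (w : υ → ℝ),
  (∀ P : MvPolynomial υ K, P ≠ 0 → ∃ D H, H ≠ 0 ∧ Top w D P H) ∧
  (∀ (D : ℝ) (P H H' : MvPolynomial υ K), Top w D P H → Top w D P H' → H = H') ∧
  ∀ (τ : Type) (α : τ → ℝ) (f T : τ → MvPolynomial υ K), (∀ l, Top w (α l) (f l) (T l)) →
    ∀ (D : ℝ) (P H : MvPolynomial τ K), Top α D P H → Top w D (aeval f P) (aeval T H)

/-- a weighted form in two variables with a zero in the torus -/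
def St_JDIV : Prop := ∀ (K : Type) [Field K] (α : Fin 2 → ℝ), 0 < α 0 → 0 < α 1 →
  ∀ (D : ℝ) (H : MvPolynomial (Fin 2) K), IsWeightedHomogeneous α H D → H ≠ 0 →
    ∀ a : Fin 2 → K, a 0 ≠ 0 → a 1 ≠ 0 → eval a H = 0 →
      ∃ p q : ℕ, 0 < p ∧ 0 < q ∧ Nat.Coprime p q ∧ (p : ℝ) * α 0 = q * α 1 ∧
        C (a 1 ^ q) * X 0 ^ p - C (a 0 ^ p) * X 1 ^ q ∣ H

/-- rigidity of a polynomial whose top part has a cuspidal factor -/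
def St_JCURVE : Prop := ∀ (K : Type) [Field K] [CharZero K] (α : Fin 2 → ℝ) (D : ℝ)
  (P H : MvPolynomial (Fin 2) K), Top α D P H → H ≠ 0 → ∀ (p q : ℕ) (a b : K), 2 ≤ p → 2 ≤ q →
    Nat.Coprime p q → a ≠ 0 → b ≠ 0 → C a * X 0 ^ p - C b * X 1 ^ q ∣ H →
    ∀ u : Fin 2 → MvPolynomial (Option (Fin 2)) K, (∀ l, X none ∣ u l - X (some l)) →
      aeval u P = rename some P → ∀ l, u l = X (some l)

/-- plane automorphisms are tame -/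
def St_JUNG : Prop := ∀ (K : Type) [Field K] [CharZero K] (f g P Q : MvPolynomial (Fin 2) K),
  aeval ![f, g] P = X 0 → aeval ![f, g] Q = X 1 → aeval ![P, Q] f = X 0 → aeval ![P, Q] g = X 1 →
    TmS 0 1 f g

/-- plane automorphisms with parameters added -/
def St_PLANE : Prop := ∀ (K : Type) [Field K] [CharZero K] (n : ℕ) (i j : Fin n), i ≠ j →
  ∀ ψ ∈ Plane K i j, TmS i j (ψ (X i)) (ψ (X j)) ∧ TmS i j (ψ⁻¹ (X i)) (ψ⁻¹ (X j))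

/-- transfer to affine space -/
def St_TRANS : Prop := ∀ (n : ℕ), ∃ Ψ : MvPolynomial (Fin (n + 1)) ℂ ≃+* MvPolynomial (Fin n) Rt,
  (∀ l : Fin n, Ψ (X l.succ) = X l) ∧ (∀ a, io (Ψ a) = generic n a) ∧
  (∀ φ : Aut (n + 1), φ (X 0) = X 0 → ∃ α : GA (Fin n) Rt, ∀ a, α (Ψ a) = Ψ (φ a)) ∧
  ∀ Γ : Subgroup (Aut (n + 1)), Aff (n + 1) ⊆ Γ →
    (∀ (a : Fin (n + 1)), ∀ q ∈ supported ℂ ({a}ᶜ : Set (Fin (n + 1))),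
      ∃ φ ∈ Γ, φ (X a) = X a + q ∧ ∀ l, l ≠ a → φ (X l) = X l) →
    ∀ α ∈ TT ℂ Rt (Fin n), ∃ φ ∈ Γ, ∀ a, α (Ψ a) = Ψ (φ a)

end Pool.Agent.Lib.ST61
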