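import Mathlib

/-! Shears, the tame group over a coefficient ring, and the objects of the descent. -/

set_option autoImplicit false

namespace Pool.Agent.Lib.ST61

open MvPolynomial

/-- automorphisms over the coefficient ring -/
abbrev GA (σ R : Type) [CommRing R] : Type := MvPolynomial σ R ≃ₐ[R] MvPolynomial σ R

/-- endomorphisms over the coefficient ring -/
abbrev EN (σ R : Type) [CommRing R] : Type := MvPolynomial σ R →ₐ[R] MvPolynomial σ R

section
variable {k : Type} (R : Type) {σ : Type} [Field k] [CommRing R] [Algebra k R]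

/-- constants from the ground field -/
noncomputable def cc (σ : Type) : k →+* MvPolynomial σ R := C.comp (algebraMap k R)

variable {R} in
theorem map_cc (φ : EN σ R) (a : k) : φ (cc R σ a) = cc R σ a := φ.commutes _

variable {R} in
theorem map_cc' (φ : GA σ R) (a : k) : φ (cc R σ a) = cc R σ a := φ.commutes _

variable [Fintype σ]

/-- the linear form with coefficient vector `ℓ` -/
noncomputable def L (ℓ : σ → k) : MvPolynomial σ R := ∑ l, cc R σ (ℓ l) * X l

/-- the algebra generated by the linear forms killing `u` -/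
noncomputable def Au (u : σ → k) : Subalgebra R (MvPolynomial σ R) :=
  Algebra.adjoin R {a | ∃ ℓ : σ → k, ℓ ⬝ᵥ u = 0 ∧ a = L R ℓ}

/-- the algebra generated by one linear form -/
noncomputable def A1 (ℓ : σ → k) : Subalgebra R (MvPolynomial σ R) := Algebra.adjoin R {L R ℓ}

variable {R}

/-- the shear as an endomorphism -/
noncomputable def shH (u : σ → k) (G : MvPolynomial σ R) : EN σ R :=
  aeval fun l => X l + cc R σ (u l) * G

omit [Fintype σ] in
theorem shH_X (u : σ → k) (G : MvPolynomial σ R) (l : σ) :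
    shH u G (X l) = X l + cc R σ (u l) * G := aeval_X _ _

theorem shH_L (u ℓ : σ → k) (G : MvPolynomial σ R) :
    shH u G (L R ℓ) = L R ℓ + cc R σ (ℓ ⬝ᵥ u) * G := by
  simp only [L, map_sum, map_mul, map_cc, shH_X, dotProduct, mul_add, Finset.sum_add_distrib,
    Finset.sum_mul, mul_assoc]

theorem fix_Au {u : σ → k} {φ : EN σ R} (h : ∀ ℓ : σ → k, ℓ ⬝ᵥ u = 0 → φ (L R ℓ) = L R ℓ)
    {a : MvPolynomial σ R} (ha : a ∈ Au R u) : φ a = a :=
  (Algebra.adjoin_le (S := AlgHom.equalizer φ (AlgHom.id R _)) (by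
    rintro _ ⟨ℓ, hl, rfl⟩; exact h ℓ hl)) ha

theorem shH_fix {u : σ → k} (G : MvPolynomial σ R) {a : MvPolynomial σ R} (ha : a ∈ Au R u) :
    shH u G a = a :=
  fix_Au (fun ℓ hl => by rw [shH_L, hl, map_zero, zero_mul, add_zero]) ha

theorem shH_comp {u : σ → k} (G : MvPolynomial σ R) {G' : MvPolynomial σ R} (h : G' ∈ Au R u) :
    (shH u G).comp (shH u G') = shH u (G + G') := by
  refine algHom_ext fun l => ?_
  rw [AlgHom.comp_apply, shH_X, shH_X, map_add, map_mul, shH_X, map_cc, shH_fix G h]
  ring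

omit [Fintype σ] in
theorem shH_zero (u : σ → k) : shH u (0 : MvPolynomial σ R) = AlgHom.id R _ :=
  algHom_ext fun l => by rw [shH_X, mul_zero, add_zero, AlgHom.id_apply]

open Classical in
/-- the shear `X ↦ X + u G` (the identity if `G` is not invariant along `u`) -/
noncomputable def sh (u : σ → k) (G : MvPolynomial σ R) : GA σ R :=
  if h : G ∈ Au R u then
    AlgEquiv.ofAlgHom (shH u G) (shH u (-G))
      (by rw [shH_comp G (neg_mem h), add_neg_cancel, shH_zero])
      (by rw [shH_comp (-G) h, neg_add_cancel, shH_zero])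
  else 1

omit [Fintype σ] in
theorem dg_aux (a b : σ → kˣ) (h : ∀ l, a l * b l = 1) :
    (aeval fun l => cc R σ (a l : k) * X l : EN σ R).comp
      (aeval fun l => cc R σ (b l : k) * X l : EN σ R) = AlgHom.id R _ := by
  refine algHom_ext fun l => ?_
  rw [AlgHom.comp_apply, aeval_X, map_mul, map_cc, aeval_X, ← mul_assoc, ← map_mul,
    ← Units.val_mul, mul_comm (b l), h, Units.val_one, map_one, one_mul, AlgHom.id_apply]

variable (R) in
/-- the constant diagonal map -/
noncomputable def dg (a : σ → kˣ) : GA σ R :=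
  AlgEquiv.ofAlgHom (aeval fun l => cc R σ (a l : k) * X l)
    (aeval fun l => cc R σ (((a l)⁻¹ : kˣ) : k) * X l)
    (dg_aux a (fun l => (a l)⁻¹) fun _ => mul_inv_cancel _)
    (dg_aux (fun l => (a l)⁻¹) a fun _ => inv_mul_cancel _)

variable (k R σ) in
/-- the tame group over `R` -/
noncomputable def TT : Subgroup (GA σ R) :=
  Subgroup.closure ({α | ∃ (u : σ → k) (G : MvPolynomial σ R), G ∈ Au R u ∧ α = sh u G} ∪
    {α | ∃ a : σ → kˣ, α = dg R a})

variable (k σ) in
/-- the group of small shears -/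
noncomputable def N1 (p : R) : Subgroup (GA σ R) :=
  Subgroup.closure {α | ∃ (v : σ → k) (G : MvPolynomial σ R), G ∈ Au R v ∧ α = sh v (C p * G)}

/-- conjugates of small shears by shears in the direction `u` -/
noncomputable def Nu (p : R) (u : σ → k) : Subgroup (GA σ R) :=
  Subgroup.closure {α | ∃ F ∈ Au R u, ∃ n ∈ N1 k σ p, α = sh u F * n * (sh u F)⁻¹}

/-- the join over the nonzero directions in the hyperplane `m` -/
noncomputable def Nm (p : R) (m : σ → k) : Subgroup (GA σ R) :=
  ⨆ u : {u : σ → k // u ≠ 0 ∧ m ⬝ᵥ u = 0}, Nu p u.1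

end

section
variable {R σ : Type} [CommRing R] [DecidableEq σ]

/-- multiply the variable `j` by `d` -/
noncomputable def mu (j : σ) (d : R) : EN σ R := aeval (Function.update X j (C d * X j))

variable (σ) in
/-- automorphisms congruent to the identity modulo `p` -/
def Kc (p : R) : Subgroup (GA σ R) where
  carrier := {α | ∀ a, C p ∣ α a - a}
  one_mem' := fun a => by simp
  mul_mem' := by
    intro α β hα hβ a
    have : (α * β) a - a = (α (β a) - β a) + (β a - a) := by rw [AlgEquiv.mul_apply]; ring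
    rw [this]
    exact dvd_add (hα _) (hβ _)
  inv_mem' := by
    intro α hα a
    have := hα (α⁻¹ a)
    have e : α (α⁻¹ a) = a := α.apply_symm_apply a
    rw [e] at this
    exact dvd_sub_comm.mp this

variable (R) in
/-- automorphisms fixing the parameters -/
def Fx (i j : σ) : Subgroup (GA σ R) where
  carrier := {α | ∀ l, l ≠ i → l ≠ j → α (X l) = X l}
  one_mem' := fun _ _ _ => rfl
  mul_mem' := by
    intro α β hα hβ l h1 h2
    rw [AlgEquiv.mul_apply, hβ l h1 h2, hα l h1 h2]
  inv_mem' := by
    intro α hα l h1 h2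
    conv_lhs => rw [← hα l h1 h2]
    exact α.symm_apply_apply _

/-- not a polynomial in the parameters modulo `p` -/
def NC (i j : σ) (p : R) (f : MvPolynomial σ R) : Prop :=
  ¬ (C p ∣ pderiv i f ∧ C p ∣ pderiv j f)

/-- pairs obtained from `(X i, X j)` by swaps and triangular steps with denominators -/
inductive TmS (i j : σ) : MvPolynomial σ R → MvPolynomial σ R → Prop
  | base : TmS i j (X i) (X j)
  | swap {f g : MvPolynomial σ R} : TmS i j f g → TmS i j g f
  | step {f g g' : MvPolynomial σ R} (c d : R) (q : MvPolynomial σ R) : TmS i j f g → c ≠ 0 →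
      d ≠ 0 → q ∈ supported R ({j}ᶜ : Set σ) →
      C d * g' = C c * g + aeval (Function.update X i f) q → TmS i j f g'

end

/-- the coefficient ring -/
abbrev Rt : Type := Polynomial ℂ

/-- the prime `t - c` -/
noncomputable def pc (c : ℂ) : Rt := Polynomial.X - Polynomial.C c

/-- reduction modulo `t - c` -/
noncomputable def red {σ : Type} (c : ℂ) : MvPolynomial σ Rt →+* MvPolynomial σ ℂ :=
  map (Polynomial.evalRingHom c)

/-- polynomials with constant coefficients -/
noncomputable def lft {σ : Type} : MvPolynomial σ ℂ →+* MvPolynomial σ Rt := map Polynomial.C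

/-- reduction of an endomorphism -/
noncomputable def redE {σ : Type} (c : ℂ) (φ : EN σ Rt) : EN σ ℂ := aeval fun l => red c (φ (X l))

/-- extension of coefficients to the fraction field -/
noncomputable def io {σ : Type} : MvPolynomial σ Rt →+* MvPolynomial σ (RatFunc ℂ) :=
  map (algebraMap Rt (RatFunc ℂ))

/-- all monomials have weight below `D` -/
def Fl {τ K : Type} [CommRing K] (w : τ → ℝ) (D : ℝ) (P : MvPolynomial τ K) : Prop :=
  ∀ m ∈ P.support, Finsupp.weight w m < D

/-- `H` is the part of weight `D` of `P`, and `P` has no higher weight -/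
def Top {τ K : Type} [CommRing K] (w : τ → ℝ) (D : ℝ) (P H : MvPolynomial τ K) : Prop :=
  IsWeightedHomogeneous w H D ∧ Fl w D (P - H)

section
variable {σ : Type} [Fintype σ] [DecidableEq σ]

/-- tame maps in the two variables `i`, `j` -/
noncomputable def P2 (i j : σ) : Subgroup (GA σ Rt) :=
  Subgroup.closure ({α | ∃ (l : σ) (G : MvPolynomial σ Rt), (l = i ∨ l = j) ∧
      G ∈ supported Rt ({l}ᶜ : Set σ) ∧ α = sh (Pi.single l (1 : ℂ)) G} ∪
    {α | ∃ a : σ → ℂˣ, (∀ l, l ≠ i → l ≠ j → a l = 1) ∧ α = dg Rt a})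

/-- tame maps fixing the parameters whose fibres are tame in two variables -/
noncomputable def HH (i j : σ) : Subgroup (GA σ Rt) :=
  TT ℂ Rt σ ⊓ Fx Rt i j ⊓ ⨅ c : ℂ, (Kc σ (pc c) ⊔ P2 i j)

/-- the monoid generated by `HH` and the maps `mu`, with the number of `mu` factors -/
inductive Mon (i j : σ) : ℕ → EN σ Rt → Prop
  | base {α : GA σ Rt} : α ∈ HH i j → Mon i j 0 (α : EN σ Rt)
  | step {r : ℕ} {B : EN σ Rt} (c : ℂ) {α : GA σ Rt} : Mon i j r B →
      α ∈ HH i j → Mon i j (r + 1) (B * mu j (pc c) * (α : EN σ Rt))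

end

end Pool.Agent.Lib.ST61
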