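import Pool.Agent.Lib.ST61.B_SP
import Pool.Agent.Lib.ST61.B_F1
import Pool.Agent.Lib.ST61.B_F2
import Pool.Agent.Lib.ST61.B_F3
import Pool.Agent.Lib.ST61.B_F4
import Pool.Agent.Lib.ST61.B_M3
import Pool.Agent.Lib.ST61.B_M
import Pool.Agent.Lib.ST61.B_TR
import Pool.Agent.Lib.ST61.B_DOWN
import Pool.Agent.Lib.ST61.B_KEY
import Pool.Agent.Lib.ST61.B_NORM
import Pool.Agent.Lib.ST61.B_MAIN
import Pool.Agent.Lib.ST61.B_CLR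
import Pool.Agent.Lib.ST61.B_CLOS
import Pool.Agent.Lib.ST61.B_JTOP
import Pool.Agent.Lib.ST61.B_JDIV
import Pool.Agent.Lib.ST61.B_JCURVE
import Pool.Agent.Lib.ST61.B_JUNG
import Pool.Agent.Lib.ST61.B_PLANE
import Pool.Agent.Lib.ST61.B_LIN
import Pool.Agent.Lib.ST61.B_TRANS

/-! Assembly of the blocks. -/

set_option autoImplicit false

namespace Pool.Agent.Lib.ST61

open MvPolynomial Pool.Agent.Lib.MP_1309d3_ag

theorem main_all : St_MAIN :=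
  have f1 := st_F1 st_SP
  have f2 := st_F2 st_SP f1
  st_MAIN (st_KEY (st_DOWN (st_M (st_M3 f2 (st_F4 (st_F3 st_SP f1 f2)))) st_TR)) st_NORM

theorem word_all (K : Type) [Field K] [CharZero K] {n : ℕ} {i j : Fin n} (hij : i ≠ j)
    {ψ : GA (Fin n) K} (h : ψ ∈ Subgroup.closure (Tri K i j ∪ Plane K i j ∪ Lin K i j)) :
    ψ ∈ Fx K i j ∧ TmS i j (ψ (X i)) (ψ (X j)) := by
  have H : ∀ ψ ∈ Tri K i j ∪ Plane K i j ∪ Lin K i j, ψ ∈ Fx K i j ∧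
      TmS i j (ψ (X i)) (ψ (X j)) ∧ TmS i j (ψ⁻¹ (X i)) (ψ⁻¹ (X j)) := by
    rintro ψ ((h | h) | h)
    · exact (st_CLOS K n i j hij).1 ψ h
    · exact ⟨h.2.2, st_PLANE (st_JUNG st_JTOP st_JDIV (st_JCURVE st_JTOP)) K n i j hij ψ h⟩
    · refine ⟨?_, st_LIN K n i j hij ψ h⟩
      obtain ⟨_, _, _, _, _, _, _, _, _, e⟩ := h
      exact e
  exact ⟨(Subgroup.closure_le (Fx K i j)).mpr (fun ψ h => (H ψ h).1) h,
    (st_CLOS K n i j hij).2 _ H ψ h⟩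

theorem descent {n : ℕ} (hn : 3 ≤ n) {Γ : Subgroup (Aut (n + 1))} (hΓ : Aff (n + 1) ⊆ Γ)
    (hE : ∀ (a : Fin (n + 1)), ∀ q ∈ supported ℂ ({a}ᶜ : Set (Fin (n + 1))),
      ∃ φ ∈ Γ, φ (X a) = X a + q ∧ ∀ l, l ≠ a → φ (X l) = X l)
    {i j : Fin n} (hij : i ≠ j) {φ : Aut (n + 1)} (h0 : φ (X 0) = X 0)
    {ψ : GA (Fin n) (RatFunc ℂ)} (hψ : ψ ∈ Subgroup.closure
      (Tri (RatFunc ℂ) i j ∪ Plane (RatFunc ℂ) i j ∪ Lin (RatFunc ℂ) i j))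
    (h : ∀ l, ψ (X l) = generic n (φ (X l.succ))) : φ ∈ Γ := by
  obtain ⟨Ψ, p1, p2, p3, p4⟩ := st_TRANS n
  obtain ⟨α, hα⟩ := p3 φ h0
  obtain ⟨w1, w2⟩ := word_all _ hij hψ
  have e : ∀ l, io (α (X l)) = ψ (X l) := fun l => by rw [← p1, hα, p2, h]
  have f : α ∈ Fx Rt i j := fun l h1 h2 => io_inj (by rw [e, w1 l h1 h2, io_X])
  rw [← e, ← e] at w2
  obtain ⟨φ', q1, q2⟩ := p4 Γ hΓ hE α
    (main_all (Fin n) (by rwa [Fintype.card_fin]) i j hij α f (st_CLR _ i j hij _ _ w2))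
  have : φ = φ' := AlgEquiv.ext fun a => Ψ.injective (by rw [← hα, q2])
  rwa [this]

end Pool.Agent.Lib.ST61
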