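import Pool.Agent.Lib.ST61.Blue

/-! Calculus of shears. -/

set_option autoImplicit false
set_option linter.unusedSectionVars false

namespace Pool.Agent.Lib.ST61

open MvPolynomial

variable {R σ : Type} [CommRing R]

theorem C_mem (S : Subalgebra R (MvPolynomial σ R)) (r : R) : C r ∈ S := S.algebraMap_mem r

theorem X_sup {s : Set σ} {l : σ} (h : l ∈ s) : (X l : MvPolynomial σ R) ∈ supported R s :=
  Algebra.subset_adjoin ⟨l, h, rfl⟩

theorem map_C' (φ : GA σ R) (r : R) : φ (C r) = C r := φ.commutes r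

theorem map_CE (φ : EN σ R) (r : R) : φ (C r) = C r := φ.commutes r

theorem sup_eq {s : Set σ} {q : MvPolynomial σ R} (hq : q ∈ supported R s) {φ ψ : EN σ R}
    (h : ∀ l ∈ s, φ (X l) = ψ (X l)) : φ q = ψ q :=
  (Algebra.adjoin_le (S := AlgHom.equalizer φ ψ) (by rintro _ ⟨l, hl, rfl⟩; exact h l hl)) hq

theorem sup_fix {s : Set σ} {q : MvPolynomial σ R} (hq : q ∈ supported R s) {φ : EN σ R}
    (h : ∀ l ∈ s, φ (X l) = X l) : φ q = q := sup_eq hq (ψ := AlgHom.id R _) h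

theorem sup_fix' {s : Set σ} {q : MvPolynomial σ R} (hq : q ∈ supported R s) {φ : GA σ R}
    (h : ∀ l ∈ s, φ (X l) = X l) : φ q = q := sup_fix hq (φ := (φ : EN σ R)) h

theorem sup_map {s : Set σ} {q : MvPolynomial σ R} (hq : q ∈ supported R s) {φ : EN σ R}
    {S : Subalgebra R (MvPolynomial σ R)} (h : ∀ l ∈ s, φ (X l) ∈ S) : φ q ∈ S :=
  (Algebra.adjoin_le (S := S.comap φ) (by rintro _ ⟨l, hl, rfl⟩; exact h l hl)) hq

theorem GA_ext {α β : GA σ R} (h : ∀ l, α (X l) = β (X l)) : α = β :=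
  AlgEquiv.coe_toAlgHom_injective (algHom_ext h)

theorem inv_apply_apply (α : GA σ R) (a : MvPolynomial σ R) : α⁻¹ (α a) = a :=
  α.symm_apply_apply a

theorem apply_inv_apply (α : GA σ R) (a : MvPolynomial σ R) : α (α⁻¹ a) = a :=
  α.apply_symm_apply a

theorem inv_fix {φ : GA σ R} {x : MvPolynomial σ R} (h : φ x = x) : φ⁻¹ x = x := by
  conv_lhs => rw [← h]
  exact φ.symm_apply_apply x

theorem coe_mul (α β : GA σ R) : ((α * β : GA σ R) : EN σ R) = (α : EN σ R) * (β : EN σ R) := rfl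

theorem coe_one : ((1 : GA σ R) : EN σ R) = 1 := rfl

theorem EN_mul_apply (φ ψ : EN σ R) (a : MvPolynomial σ R) : (φ * ψ) a = φ (ψ a) := rfl

theorem coe_apply (α : GA σ R) (a : MvPolynomial σ R) : (α : EN σ R) a = α a := rfl

variable {k : Type} [Field k] [Algebra k R]

theorem cc_eq (a : k) : cc R σ a = algebraMap k (MvPolynomial σ R) a := rfl

theorem cc_eq_C (a : k) : cc R σ a = C (algebraMap k R a) := rfl

theorem cc_mem (S : Subalgebra R (MvPolynomial σ R)) (a : k) : cc R σ a ∈ S := C_mem S _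

variable [Fintype σ]

theorem L_add (a b : σ → k) : L R (a + b) = L R a + L R b := by
  simp only [L, Pi.add_apply, map_add, add_mul, Finset.sum_add_distrib]

theorem L_smul (c : k) (a : σ → k) : L R (c • a) = cc R σ c * L R a := by
  simp only [L, Pi.smul_apply, smul_eq_mul, map_mul, Finset.mul_sum, mul_assoc]

theorem L_single [DecidableEq σ] (j : σ) : L R (Pi.single j (1 : k)) = X j := by
  rw [L, Finset.sum_eq_single j]
  · rw [Pi.single_eq_same, map_one, one_mul]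
  · intro b _ hb; rw [Pi.single_eq_of_ne hb, map_zero, zero_mul]
  · intro h; exact absurd (Finset.mem_univ j) h

theorem L_mem_Au {u ℓ : σ → k} (h : ℓ ⬝ᵥ u = 0) : L R ℓ ∈ Au R u :=
  Algebra.subset_adjoin ⟨ℓ, h, rfl⟩

theorem L_mem_A1 (ℓ : σ → k) : L R ℓ ∈ A1 R ℓ := Algebra.subset_adjoin rfl

theorem A1_le {ℓ : σ → k} {S : Subalgebra R (MvPolynomial σ R)} (h : L R ℓ ∈ S) : A1 R ℓ ≤ S :=
  Algebra.adjoin_le (Set.singleton_subset_iff.mpr h)

theorem Au_le {u : σ → k} {S : Subalgebra R (MvPolynomial σ R)}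
    (h : ∀ ℓ : σ → k, ℓ ⬝ᵥ u = 0 → L R ℓ ∈ S) : Au R u ≤ S :=
  Algebra.adjoin_le (by rintro _ ⟨ℓ, hl, rfl⟩; exact h ℓ hl)

theorem A1_le_Au {u ℓ : σ → k} (h : ℓ ⬝ᵥ u = 0) : A1 R ℓ ≤ Au R u := A1_le (L_mem_Au h)

theorem A1_smul_le (c : k) (ℓ : σ → k) : A1 R (c • ℓ) ≤ A1 R ℓ :=
  A1_le (by rw [L_smul]; exact mul_mem (cc_mem _ _) (L_mem_A1 ℓ))

theorem Au_le_smul (c : k) (u : σ → k) : Au R u ≤ Au R (c • u) :=
  Au_le fun ℓ h => L_mem_Au (by rw [dotProduct_smul, h, smul_zero])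

theorem Au_smul {c : k} (hc : c ≠ 0) (u : σ → k) : Au R (c • u) = Au R u := by
  refine le_antisymm ?_ (Au_le_smul c u)
  have := Au_le_smul (R := R) c⁻¹ (c • u)
  rwa [smul_smul, inv_mul_cancel₀ hc, one_smul] at this

theorem map_Au {u : σ → k} {φ : EN σ R} {S : Subalgebra R (MvPolynomial σ R)}
    (h : ∀ ℓ : σ → k, ℓ ⬝ᵥ u = 0 → φ (L R ℓ) ∈ S) {a : MvPolynomial σ R} (ha : a ∈ Au R u) :
    φ a ∈ S := Au_le (S := S.comap φ) h ha

theorem map_A1 {ℓ : σ → k} {φ : EN σ R} {S : Subalgebra R (MvPolynomial σ R)}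
    (h : φ (L R ℓ) ∈ S) {a : MvPolynomial σ R} (ha : a ∈ A1 R ℓ) : φ a ∈ S :=
  A1_le (S := S.comap φ) h ha

theorem Au_single [DecidableEq σ] (j : σ) :
    Au R (Pi.single j (1 : k)) = supported R ({j}ᶜ : Set σ) := by
  refine le_antisymm (Au_le fun ℓ h => ?_) (Algebra.adjoin_le ?_)
  · rw [dotProduct_single, mul_one] at h
    refine sum_mem fun l _ => ?_
    by_cases hl : l = j
    · rw [hl, h, map_zero, zero_mul]; exact zero_mem _
    · exact mul_mem (cc_mem _ _) (X_sup hl)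
  · rintro _ ⟨l, hl, rfl⟩
    rw [← L_single (k := k)]
    exact L_mem_Au (by rw [dotProduct_single, mul_one, Pi.single_eq_of_ne (Ne.symm hl)])

theorem X_mem_Au [DecidableEq σ] {u : σ → k} {j : σ} (h : u j = 0) : X j ∈ Au R u := by
  rw [← L_single (k := k)]
  exact L_mem_Au (by rw [single_dotProduct, one_mul, h])

theorem sh_coe {u : σ → k} {G : MvPolynomial σ R} (h : G ∈ Au R u) :
    (sh u G : EN σ R) = shH u G := by
  rw [sh, dif_pos h]; rfl

theorem sh_apply {u : σ → k} {G : MvPolynomial σ R} (h : G ∈ Au R u) (a : MvPolynomial σ R) :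
    sh u G a = shH u G a := by rw [← sh_coe h]; rfl

theorem sh_X {u : σ → k} {G : MvPolynomial σ R} (h : G ∈ Au R u) (l : σ) :
    sh u G (X l) = X l + cc R σ (u l) * G := by rw [sh_apply h, shH_X]

theorem sh_L {u : σ → k} {G : MvPolynomial σ R} (h : G ∈ Au R u) (ℓ : σ → k) :
    sh u G (L R ℓ) = L R ℓ + cc R σ (ℓ ⬝ᵥ u) * G := by rw [sh_apply h, shH_L]

theorem sh_fix {u : σ → k} {G a : MvPolynomial σ R} (h : G ∈ Au R u) (ha : a ∈ Au R u) :
    sh u G a = a := by rw [sh_apply h, shH_fix G ha]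

theorem sh_mul {u : σ → k} {G G' : MvPolynomial σ R} (h : G ∈ Au R u) (h' : G' ∈ Au R u) :
    sh u G * sh u G' = sh u (G + G') := GA_ext fun l => by
  rw [AlgEquiv.mul_apply, sh_X h', map_add, map_mul, map_cc', sh_X h, sh_fix h h',
    sh_X (add_mem h h')]
  ring

theorem sh_zero (u : σ → k) : sh u (0 : MvPolynomial σ R) = 1 := GA_ext fun l => by
  rw [sh_X (zero_mem _), mul_zero, add_zero, AlgEquiv.one_apply]

theorem sh_inv {u : σ → k} {G : MvPolynomial σ R} (h : G ∈ Au R u) : (sh u G)⁻¹ = sh u (-G) :=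
  inv_eq_of_mul_eq_one_right (by rw [sh_mul h (neg_mem h), add_neg_cancel, sh_zero])

theorem sh_comm {u : σ → k} {G G' : MvPolynomial σ R} (h : G ∈ Au R u) (h' : G' ∈ Au R u) :
    sh u G * sh u G' = sh u G' * sh u G := by rw [sh_mul h h', sh_mul h' h, add_comm]

theorem sh_smul (c : k) {u : σ → k} {G : MvPolynomial σ R} (h : G ∈ Au R u) :
    sh (c • u) G = sh u (cc R σ c * G) := GA_ext fun l => by
  rw [sh_X (Au_le_smul c u h), sh_X (mul_mem (cc_mem _ _) h), Pi.smul_apply, smul_eq_mul, map_mul]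
  ring

theorem sh_add_dir {u v : σ → k} {G : MvPolynomial σ R} (h : G ∈ Au R u) (h' : G ∈ Au R v)
    (h'' : G ∈ Au R (u + v)) : sh (u + v) G = sh u G * sh v G := GA_ext fun l => by
  rw [AlgEquiv.mul_apply, sh_X h', map_add, map_mul, map_cc', sh_X h, sh_fix h h, sh_X h'',
    Pi.add_apply, map_add]
  ring

theorem sh_map_Au {u u' : σ → k} {g F : MvPolynomial σ R} (h' : g ∈ Au R u') (h : g ∈ Au R u)
    (hF : F ∈ Au R u) : sh u' g F ∈ Au R u :=
  map_Au (φ := (sh u' g : EN σ R)) (fun ℓ hl => by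
    rw [coe_apply, sh_L h']; exact add_mem (L_mem_Au hl) (mul_mem (cc_mem _ _) h)) hF

/-- C1 -/
theorem sh_conj {u u' : σ → k} {g F : MvPolynomial σ R} (h' : g ∈ Au R u') (h : g ∈ Au R u)
    (hF : F ∈ Au R u) : sh u' g * sh u F * (sh u' g)⁻¹ = sh u (sh u' g F) := by
  rw [mul_inv_eq_iff_eq_mul]
  refine GA_ext fun l => ?_
  have e := sh_map_Au h' h hF
  rw [AlgEquiv.mul_apply, AlgEquiv.mul_apply, sh_X hF, sh_X h', map_add, map_add, map_mul, map_mul,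
    map_cc', map_cc', sh_X h', sh_X e, sh_fix e h]
  ring

theorem lin_L {u m : σ → k} (h : m ⬝ᵥ u = 0) (ℓ : σ → k) :
    sh u (L R m) (L R ℓ) = L R (ℓ + (ℓ ⬝ᵥ u) • m) := by
  rw [sh_L (L_mem_Au h), L_add, L_smul]

theorem lin_dot {u m v ℓ : σ → k} (h : m ⬝ᵥ u = 0) (hl : ℓ ⬝ᵥ v = 0) :
    (ℓ + (ℓ ⬝ᵥ u) • m) ⬝ᵥ (v - (m ⬝ᵥ v) • u) = 0 := by
  simp only [add_dotProduct, dotProduct_sub, smul_dotProduct, dotProduct_smul, h, hl, smul_eq_mul]
  ring

theorem lin_map_Au {u m v : σ → k} (h : m ⬝ᵥ u = 0) {G : MvPolynomial σ R} (hG : G ∈ Au R v) :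
    sh u (L R m) G ∈ Au R (v - (m ⬝ᵥ v) • u) :=
  map_Au (φ := (sh u (L R m) : EN σ R)) (fun ℓ hl => by
    rw [coe_apply, lin_L h]; exact L_mem_Au (lin_dot h hl)) hG

theorem lin_map_A1 {u m ℓ : σ → k} (h : m ⬝ᵥ u = 0) {G : MvPolynomial σ R} (hG : G ∈ A1 R ℓ) :
    sh u (L R m) G ∈ A1 R (ℓ + (ℓ ⬝ᵥ u) • m) :=
  map_A1 (φ := (sh u (L R m) : EN σ R)) (by rw [coe_apply, lin_L h]; exact L_mem_A1 _) hG

/-- C2 -/
theorem lin_conj {u m v : σ → k} (h : m ⬝ᵥ u = 0) {G : MvPolynomial σ R} (hG : G ∈ Au R v) :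
    sh u (L R m) * sh v G * (sh u (L R m))⁻¹ = sh (v - (m ⬝ᵥ v) • u) (sh u (L R m) G) := by
  have hm : L R m ∈ Au R u := L_mem_Au h
  refine GA_ext fun l => ?_
  rw [AlgEquiv.mul_apply, AlgEquiv.mul_apply, sh_inv hm, sh_X (neg_mem hm),
    sh_X (lin_map_Au h hG)]
  simp only [map_add, map_mul, map_neg, map_cc', sh_X hG, sh_L hG, sh_X hm, sh_fix hm hm,
    Pi.sub_apply, Pi.smul_apply, smul_eq_mul, map_sub]
  ring

theorem small_move {v u' : σ → k} (p : R) {G : MvPolynomial σ R} (h : G ∈ Au R v)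
    (h' : G ∈ Au R u') {g : MvPolynomial σ R} (hg : g ∈ Au R u') :
    ∃ e ∈ Au R u', sh v (C p * G) g = g + C p * e := by
  have hp : C p * G ∈ Au R v := mul_mem (C_mem _ _) h
  induction hg using Algebra.adjoin_induction with
  | mem x hx =>
    obtain ⟨ℓ, -, rfl⟩ := hx
    exact ⟨cc R σ (ℓ ⬝ᵥ v) * G, mul_mem (cc_mem _ _) h', by rw [sh_L hp]; ring⟩
  | algebraMap r => exact ⟨0, zero_mem _, by rw [AlgEquiv.commutes, mul_zero, add_zero]⟩
  | add x y _ _ hx hy =>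
    obtain ⟨a, ha, ea⟩ := hx
    obtain ⟨b, hb, eb⟩ := hy
    exact ⟨a + b, add_mem ha hb, by rw [map_add, ea, eb]; ring⟩
  | mul x y h1 h2 hx hy =>
    obtain ⟨a, ha, ea⟩ := hx
    obtain ⟨b, hb, eb⟩ := hy
    exact ⟨a * y + x * b + C p * (a * b), add_mem (add_mem (mul_mem ha h2) (mul_mem h1 hb))
      (mul_mem (C_mem _ _) (mul_mem ha hb)), by rw [map_mul, ea, eb]; ring⟩

theorem sh_mem_N1 (p : R) {v : σ → k} {G : MvPolynomial σ R} (h : G ∈ Au R v) :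
    sh v (C p * G) ∈ N1 k σ p := Subgroup.subset_closure ⟨v, G, h, rfl⟩

/-- C3 -/
theorem small_conj {v u' : σ → k} (p : R) {G : MvPolynomial σ R} (h : G ∈ Au R v)
    (h' : G ∈ Au R u') {g : MvPolynomial σ R} (hg : g ∈ Au R u') :
    sh u' g * sh v (C p * G) * (sh u' g)⁻¹ ∈ N1 k σ p := by
  have hp : C p * G ∈ Au R v := mul_mem (C_mem _ _) h
  have hp' : C p * G ∈ Au R u' := mul_mem (C_mem _ _) h'
  obtain ⟨e, he, ee⟩ := small_move p h h' (neg_mem hg)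
  have e1 := sh_conj hp hp' (neg_mem hg)
  rw [ee, mul_inv_eq_iff_eq_mul] at e1
  rw [sh_inv hg, mul_assoc, e1, ← mul_assoc,
    sh_mul hg (add_mem (neg_mem hg) (mul_mem (C_mem _ _) he)), add_neg_cancel_left]
  exact mul_mem (sh_mem_N1 p he) (sh_mem_N1 p h)

theorem sh_mem_TT {u : σ → k} {G : MvPolynomial σ R} (h : G ∈ Au R u) : sh u G ∈ TT k R σ :=
  Subgroup.subset_closure (Or.inl ⟨u, G, h, rfl⟩)

theorem dg_mem_TT (a : σ → kˣ) : dg R a ∈ TT k R σ := Subgroup.subset_closure (Or.inr ⟨a, rfl⟩)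

theorem dg_X (a : σ → kˣ) (l : σ) : dg R a (X l) = cc R σ (a l : k) * X l := aeval_X _ _

theorem dg_mul (a b : σ → kˣ) : dg R a * dg R b = dg R (a * b) := GA_ext fun l => by
  rw [AlgEquiv.mul_apply, dg_X, map_mul, map_cc', dg_X, dg_X, Pi.mul_apply, Units.val_mul, map_mul]
  ring

theorem dg_one : dg R (1 : σ → kˣ) = 1 := GA_ext fun l => by
  rw [dg_X, Pi.one_apply, Units.val_one, map_one, one_mul, AlgEquiv.one_apply]

theorem dg_inv (a : σ → kˣ) : (dg R a)⁻¹ = dg R a⁻¹ :=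
  inv_eq_of_mul_eq_one_right (by rw [dg_mul, mul_inv_cancel, dg_one])

theorem dg_L (a : σ → kˣ) (ℓ : σ → k) : dg R a (L R ℓ) = L R fun l => ℓ l * a l := by
  simp only [L, map_sum, map_mul, map_cc', dg_X, mul_assoc]

theorem dg_map_Au (a : σ → kˣ) {u : σ → k} {G : MvPolynomial σ R} (h : G ∈ Au R u) :
    dg R a G ∈ Au R fun l => (((a l)⁻¹ : kˣ) : k) * u l :=
  map_Au (φ := (dg R a : EN σ R)) (fun ℓ hl => by
    rw [coe_apply, dg_L]
    refine L_mem_Au (Eq.trans (Finset.sum_congr rfl fun l _ => ?_) hl)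
    rw [mul_assoc, Units.mul_inv_cancel_left]) h

theorem dg_conj (a : σ → kˣ) {u : σ → k} {G : MvPolynomial σ R} (h : G ∈ Au R u) :
    dg R a * sh u G * (dg R a)⁻¹ = sh (fun l => (((a l)⁻¹ : kˣ) : k) * u l) (dg R a G) := by
  rw [mul_inv_eq_iff_eq_mul]
  refine GA_ext fun l => ?_
  rw [AlgEquiv.mul_apply, AlgEquiv.mul_apply, sh_X h, map_add, map_mul, map_cc', dg_X, map_mul,
    map_cc', sh_X (dg_map_Au a h), mul_add, ← mul_assoc, ← map_mul, Units.mul_inv_cancel_left]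

/-- every shear is conjugate by a linear shear to a coordinate shear -/
theorem sh_red [DecidableEq σ] {u : σ → k} {j : σ} (hj : u j ≠ 0) :
    ∃ u' m : σ → k, u' j = 0 ∧ m ⬝ᵥ u' = 0 ∧ ∀ G ∈ Au R u,
      sh u' (L R m) G ∈ supported R ({j}ᶜ : Set σ) ∧ sh u G = (sh u' (L R m))⁻¹ *
        sh (Pi.single j (1 : k)) (cc R σ (u j) * sh u' (L R m) G) * sh u' (L R m) := by
  have h1 : ((u j)⁻¹ • Pi.single j (1 : k) : σ → k) ⬝ᵥ (u - u j • Pi.single j (1 : k)) = 0 := by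
    simp [mul_comm]
  have h2 : u - (((u j)⁻¹ • Pi.single j (1 : k) : σ → k) ⬝ᵥ u) • (u - u j • Pi.single j (1 : k)) =
      u j • Pi.single j (1 : k) := by
    rw [smul_dotProduct, single_dotProduct, one_mul, smul_eq_mul, inv_mul_cancel₀ hj, one_smul,
      sub_sub_cancel]
  refine ⟨_, _, by simp, h1, fun G hG => ?_⟩
  have e1 := lin_map_Au h1 hG
  have e2 := lin_conj h1 hG
  rw [h2] at e1 e2
  rw [Au_smul hj] at e1
  rw [sh_smul _ e1] at e2
  rw [Au_single] at e1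
  exact ⟨e1, by rw [← e2]; group⟩

theorem TT_le [DecidableEq σ] {Γ : Subgroup (GA σ R)}
    (h1 : ∀ u m : σ → k, m ⬝ᵥ u = 0 → sh u (L R m) ∈ Γ)
    (h2 : ∀ j, ∀ G ∈ supported R ({j}ᶜ : Set σ), sh (Pi.single j (1 : k)) G ∈ Γ)
    (h3 : ∀ a : σ → kˣ, dg R a ∈ Γ) : TT k R σ ≤ Γ := by
  refine (Subgroup.closure_le _).mpr ?_
  rintro _ (⟨u, G, hG, rfl⟩ | ⟨a, rfl⟩)
  · by_cases hu : u = 0
    · have : sh u G = 1 := GA_ext fun l => by
        rw [sh_X hG, hu, Pi.zero_apply, map_zero, zero_mul, add_zero, AlgEquiv.one_apply]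
      rw [this]; exact one_mem _
    obtain ⟨j, hj⟩ := Function.ne_iff.mp hu
    obtain ⟨u', m, -, e, H⟩ := sh_red (R := R) hj
    rw [(H G hG).2]
    exact mul_mem (mul_mem (inv_mem (h1 _ _ e)) (h2 _ _ (mul_mem (cc_mem _ _) (H G hG).1)))
      (h1 _ _ e)
  · exact h3 a

theorem sum_sh {u : σ → k} {S : Set (MvPolynomial σ R)} (hS : ∀ F ∈ S, F ∈ Au R u)
    {Γ : Subgroup (GA σ R)} (e : MvPolynomial σ R) (he : e ∈ Au R u)
    (h : ∀ F ∈ S, sh u (e * F) ∈ Γ) {G : MvPolynomial σ R} (hG : G ∈ AddSubmonoid.closure S) :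
    G ∈ Au R u ∧ sh u (e * G) ∈ Γ := by
  induction hG using AddSubmonoid.closure_induction with
  | mem x hx => exact ⟨hS x hx, h x hx⟩
  | zero => exact ⟨zero_mem _, by rw [mul_zero, sh_zero]; exact one_mem _⟩
  | add x y _ _ hx hy =>
    refine ⟨add_mem hx.1 hy.1, ?_⟩
    rw [mul_add, ← sh_mul (mul_mem he hx.1) (mul_mem he hy.1)]
    exact mul_mem hx.2 hy.2

/-- a vector is a multiple of another or is separated from it by a form -/
theorem dep_or_sep (u v : σ → k) : (∃ c : k, u = c • v) ∨ ∃ ℓ : σ → k, ℓ ⬝ᵥ v = 0 ∧ ℓ ⬝ᵥ u ≠ 0 := by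
  classical
  by_cases hv : v = 0
  · by_cases hu : u = 0
    · exact Or.inl ⟨0, by rw [hu, zero_smul]⟩
    · obtain ⟨j, hj⟩ := Function.ne_iff.mp hu
      exact Or.inr ⟨Pi.single j 1, by simp [hv], by simpa using hj⟩
  obtain ⟨j, hj⟩ := Function.ne_iff.mp hv
  have hj' : v j ≠ 0 := hj
  by_cases h : u = (u j / v j) • v
  · exact Or.inl ⟨_, h⟩
  obtain ⟨l, hl⟩ := Function.ne_iff.mp h
  refine Or.inr ⟨Pi.single l 1 - (v l / v j) • Pi.single j 1, ?_, fun e => hl ?_⟩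
  · simp only [sub_dotProduct, smul_dotProduct, single_dotProduct, one_mul, smul_eq_mul]
    field_simp
    ring
  · simp only [sub_dotProduct, smul_dotProduct, single_dotProduct, one_mul, smul_eq_mul] at e
    rw [Pi.smul_apply, smul_eq_mul, sub_eq_zero.mp e]
    field_simp

/-- two hyperplanes meet in dimension at least three -/
theorem exists_ker (h3 : 3 ≤ Fintype.card σ) (a b : σ → k) :
    ∃ u : σ → k, u ≠ 0 ∧ a ⬝ᵥ u = 0 ∧ b ⬝ᵥ u = 0 := by
  classical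
  let f : (σ → k) →ₗ[k] (Fin 2 → k) := Matrix.mulVecLin (Matrix.of ![a, b])
  have hk : LinearMap.ker f ≠ ⊥ := LinearMap.ker_ne_bot_of_finrank_lt (by
    rw [Module.finrank_fin_fun, Module.finrank_fintype_fun_eq_card]; omega)
  obtain ⟨u, hu, h0⟩ := Submodule.exists_mem_ne_zero_of_ne_bot hk
  exact ⟨u, h0, congrFun hu 0, congrFun hu 1⟩

theorem conj_closure {G : Type} [Group G] {S : Set G} {N : Subgroup G} (g : G)
    (h : ∀ s ∈ S, g * s * g⁻¹ ∈ N) {n : G} (hn : n ∈ Subgroup.closure S) : g * n * g⁻¹ ∈ N :=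
  (Subgroup.closure_le (N.comap (MulAut.conj g).toMonoidHom)).mpr h hn

theorem N1_le_Nu (p : R) (u : σ → k) : N1 k σ p ≤ Nu p u := fun n hn =>
  Subgroup.subset_closure ⟨0, zero_mem _, n, hn, by rw [sh_zero, one_mul, inv_one, mul_one]⟩

theorem conj_mem_Nu (p : R) {u : σ → k} {F : MvPolynomial σ R} (hF : F ∈ Au R u) {n : GA σ R}
    (hn : n ∈ Nu p u) : sh u F * n * (sh u F)⁻¹ ∈ Nu p u := by
  refine conj_closure _ ?_ hn
  rintro _ ⟨F', hF', n', hn', rfl⟩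
  refine Subgroup.subset_closure ⟨F + F', add_mem hF hF', n', hn', ?_⟩
  rw [← sh_mul hF hF']
  group

theorem Nu_le_Nm (p : R) {u m : σ → k} (hu : u ≠ 0) (h : m ⬝ᵥ u = 0) : Nu p u ≤ Nm p m :=
  le_iSup (fun u : {u : σ → k // u ≠ 0 ∧ m ⬝ᵥ u = 0} => Nu p u.1) ⟨u, hu, h⟩

theorem Nm_le {p : R} {m : σ → k} {Γ : Subgroup (GA σ R)}
    (h : ∀ u : σ → k, u ≠ 0 → m ⬝ᵥ u = 0 → Nu p u ≤ Γ) : Nm p m ≤ Γ :=
  iSup_le fun u => h u.1 u.2.1 u.2.2

end Pool.Agent.Lib.ST61
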