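import Pool.Agent.Lib.ST61.Kit1

/-! Congruences, derivatives, the maps `mu`, and the monoid of the descent. -/

set_option autoImplicit false
set_option linter.unusedSectionVars false

namespace Pool.Agent.Lib.ST61

open MvPolynomial

section
variable {R σ : Type} [CommRing R]

theorem cong_ext {p : MvPolynomial σ R} {φ ψ : EN σ R} (h : ∀ l, p ∣ φ (X l) - ψ (X l))
    (a : MvPolynomial σ R) : p ∣ φ a - ψ a := by
  induction a using MvPolynomial.induction_on with
  | C r => rw [map_CE, map_CE, sub_self]; exact dvd_zero _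
  | add a b ha hb =>
    rw [map_add, map_add, add_sub_add_comm]; exact dvd_add ha hb
  | mul_X a l ha =>
    have : φ (a * X l) - ψ (a * X l) = (φ a - ψ a) * φ (X l) + ψ a * (φ (X l) - ψ (X l)) := by
      rw [map_mul, map_mul]; ring
    rw [this]
    exact dvd_add (ha.mul_right _) ((h l).mul_left _)

theorem cong_map {p : R} (φ : EN σ R) {a b : MvPolynomial σ R} (h : C p ∣ a - b) :
    C p ∣ φ a - φ b := by
  have := map_dvd φ h
  rwa [map_CE, map_sub] at this

theorem cong_trans {p a b c : MvPolynomial σ R} (h : p ∣ a - b) (h' : p ∣ b - c) : p ∣ a - c := by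
  have := dvd_add h h'
  rwa [sub_add_sub_cancel] at this

theorem pderiv_dvd {p : R} (l : σ) {a : MvPolynomial σ R} (h : C p ∣ a) : C p ∣ pderiv l a := by
  obtain ⟨b, rfl⟩ := h
  rw [pderiv_C_mul]
  exact Dvd.intro _ rfl

theorem chain [Fintype σ] (φ : EN σ R) (l : σ) (a : MvPolynomial σ R) :
    pderiv l (φ a) = ∑ m, φ (pderiv m a) * pderiv l (φ (X m)) := by
  classical
  induction a using MvPolynomial.induction_on with
  | C r => simp only [map_CE, pderiv_C, map_zero, zero_mul, Finset.sum_const_zero]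
  | add a b ha hb => simp only [map_add, ha, hb, add_mul, Finset.sum_add_distrib]
  | mul_X a n ha =>
    have e : ∑ m, φ (a * pderiv m (X n)) * pderiv l (φ (X m)) = φ a * pderiv l (φ (X n)) := by
      rw [Finset.sum_eq_single n]
      · rw [pderiv_X_self, mul_one]
      · intro b _ hb; rw [pderiv_X_of_ne (Ne.symm hb), mul_zero, map_zero, zero_mul]
      · intro h; exact absurd (Finset.mem_univ n) h
    simp only [pderiv_mul, map_add, add_mul, Finset.sum_add_distrib, e]
    rw [map_mul, pderiv_mul, ha, Finset.sum_mul]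
    congr 1
    exact Finset.sum_congr rfl fun m _ => by rw [map_mul]; ring

/-- the chain rule for maps fixing the parameters -/
theorem chain2 [Fintype σ] {i j : σ} (hij : i ≠ j) (φ : EN σ R)
    (h : ∀ l, l ≠ i → l ≠ j → φ (X l) = X l) {l : σ} (hl : l = i ∨ l = j) (a : MvPolynomial σ R) :
    pderiv l (φ a) = φ (pderiv i a) * pderiv l (φ (X i)) + φ (pderiv j a) * pderiv l (φ (X j)) := by
  classical
  rw [chain, ← Finset.sum_pair (f := fun m => φ (pderiv m a) * pderiv l (φ (X m))) hij]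
  refine (Finset.sum_subset (Finset.subset_univ _) fun m _ hm => ?_).symm
  simp only [Finset.mem_insert, Finset.mem_singleton, not_or] at hm
  rw [h m hm.1 hm.2, pderiv_X_of_ne, mul_zero]
  rcases hl with rfl | rfl
  · exact hm.1
  · exact hm.2

theorem pderiv_sup {s : Set σ} {l : σ} (hl : l ∉ s) {a : MvPolynomial σ R}
    (h : a ∈ supported R s) : pderiv l a = 0 :=
  pderiv_eq_zero_of_notMem_vars fun e => hl (mem_supported.mp h e)

theorem not_var_of_pderiv [IsDomain R] [CharZero R] {l : σ} {a : MvPolynomial σ R}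
    (h : pderiv l a = 0) : l ∉ a.vars := by
  classical
  intro hl
  obtain ⟨m, hm, hl'⟩ := (mem_vars_iff_mem_support l).mp hl
  have h1 : m l ≠ 0 := Finsupp.mem_support_iff.mp hl'
  have h2 := congrArg (coeff (m - Finsupp.single l 1)) h
  rw [coeff_pderiv, Finsupp.sub_add_single_one_cancel h1, coeff_zero] at h2
  rcases mul_eq_zero.mp h2 with e | e
  · exact mem_support_iff.mp hm e
  · exact Nat.cast_add_one_ne_zero _ e

theorem sup_of_pderiv [IsDomain R] [CharZero R] {s : Set σ} {a : MvPolynomial σ R}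
    (h : ∀ l, l ∉ s → pderiv l a = 0) : a ∈ supported R s :=
  mem_supported.mpr fun l hl => by_contra fun e => not_var_of_pderiv (h l e) hl

variable [DecidableEq σ]

theorem mem_Kc {p : R} {α : GA σ R} : α ∈ Kc σ p ↔ ∀ a, C p ∣ α a - a := Iff.rfl

theorem mem_Fx {i j : σ} {α : GA σ R} : α ∈ Fx R i j ↔ ∀ l, l ≠ i → l ≠ j → α (X l) = X l :=
  Iff.rfl

theorem Kc_of {p : R} {α β : GA σ R} (h : ∀ l, C p ∣ α (X l) - β (X l)) : α * β⁻¹ ∈ Kc σ p :=
  fun a => by
    have := cong_ext (φ := (α : EN σ R)) (ψ := (β : EN σ R)) h (β⁻¹ a)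
    rwa [coe_apply, coe_apply, apply_inv_apply] at this

instance Kc_normal (p : R) : (Kc σ p).Normal := ⟨fun n hn g a => by
  have := cong_map (g : EN σ R) (hn (g⁻¹ a))
  rwa [coe_apply, coe_apply, apply_inv_apply] at this⟩

theorem mem_sup_of_cong {p : R} {Γ : Subgroup (GA σ R)} {α β : GA σ R} (hβ : β ∈ Kc σ p ⊔ Γ)
    (h : ∀ l, C p ∣ α (X l) - β (X l)) : α ∈ Kc σ p ⊔ Γ := by
  have := mul_mem (Subgroup.mem_sup_left (Kc_of h)) hβ
  rwa [inv_mul_cancel_right] at this

theorem cong_of_mem_sup {p : R} {Γ : Subgroup (GA σ R)} {α : GA σ R} (h : α ∈ Kc σ p ⊔ Γ) :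
    ∃ π ∈ Γ, ∀ a, C p ∣ α a - π a := by
  have h' : α ∈ ((Kc σ p ⊔ Γ : Subgroup (GA σ R)) : Set (GA σ R)) := h
  rw [Subgroup.normal_mul] at h'
  obtain ⟨n, hn, π, hπ, rfl⟩ := h'
  exact ⟨π, hπ, fun a => hn (π a)⟩

theorem NC.cong {i j : σ} {p : R} {f g : MvPolynomial σ R} (h : NC i j p f) (e : C p ∣ f - g) :
    NC i j p g := fun hg => h (by
  have e1 := pderiv_dvd i e
  have e2 := pderiv_dvd j e
  rw [map_sub] at e1 e2
  exact ⟨by simpa using dvd_add e1 hg.1, by simpa using dvd_add e2 hg.2⟩)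

theorem mu_X (j : σ) (d : R) : mu j d (X j) = C d * X j := by
  rw [mu, aeval_X, Function.update_self]

theorem mu_X_ne {j l : σ} (d : R) (h : l ≠ j) : mu j d (X l) = X l := by
  rw [mu, aeval_X, Function.update_of_ne h]

theorem mu_fix {j : σ} (d : R) {q : MvPolynomial σ R} (hq : q ∈ supported R ({j}ᶜ : Set σ)) :
    mu j d q = q := sup_fix hq fun _ hl => mu_X_ne d hl

theorem mu_mul (j : σ) (d e : R) : mu j d * mu j e = mu j (d * e) := algHom_ext fun l => by
  by_cases h : l = j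
  · rw [h, EN_mul_apply, mu_X, map_mul, map_CE, mu_X, mu_X, map_mul]; ring
  · rw [EN_mul_apply, mu_X_ne _ h, mu_X_ne _ h, mu_X_ne _ h]

theorem mu_one (j : σ) : mu j (1 : R) = 1 := algHom_ext fun l => by
  by_cases h : l = j
  · rw [h, mu_X, map_one, one_mul]; rfl
  · rw [mu_X_ne _ h]; rfl

theorem mu_sup {j : σ} (d : R) {s : Set σ} {q : MvPolynomial σ R} (hq : q ∈ supported R s) :
    mu j d q ∈ supported R s := sup_map hq fun l hl => by
  by_cases h : l = j
  · rw [h, mu_X]; exact mul_mem (C_mem _ _) (X_sup (h ▸ hl))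
  · rw [mu_X_ne _ h]; exact X_sup hl

theorem mu_cancel [IsDomain R] {j : σ} {d : R} (hd : d ≠ 0) {B B' : EN σ R}
    (h : B * mu j d = B' * mu j d) : B = B' := algHom_ext fun l => by
  have e := DFunLike.congr_fun h (X l)
  by_cases hl : l = j
  · rw [hl, EN_mul_apply, EN_mul_apply, mu_X, map_mul, map_mul, map_CE, map_CE] at e
    rw [hl]
    exact mul_left_cancel₀ (C_ne_zero.mpr hd) e
  · rwa [EN_mul_apply, EN_mul_apply, mu_X_ne _ hl] at e

theorem coeff_mu (j : σ) (d : R) (a : MvPolynomial σ R) (m : σ →₀ ℕ) :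
    coeff m (mu j d a) = d ^ m j * coeff m a := by
  induction a using MvPolynomial.induction_on generalizing m with
  | C r =>
    rw [map_CE, coeff_C]
    split_ifs with h
    · rw [← h]; simp
    · rw [mul_zero]
  | add a b ha hb => rw [map_add, coeff_add, coeff_add, ha, hb, mul_add]
  | mul_X a l ha =>
    by_cases h : l = j
    · rw [map_mul, h, mu_X, mul_left_comm, coeff_C_mul, coeff_mul_X', coeff_mul_X']
      split_ifs with e
      · have e' : m j ≠ 0 := Finsupp.mem_support_iff.mp e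
        rw [ha, ← mul_assoc, ← pow_succ', Finsupp.tsub_apply, Finsupp.single_eq_same,
          Nat.sub_one_add_one e']
      · rw [mul_zero, mul_zero]
    · rw [map_mul, mu_X_ne _ h, coeff_mul_X', coeff_mul_X']
      split_ifs with e
      · rw [ha, Finsupp.tsub_apply, Finsupp.single_eq_of_ne (Ne.symm h), Nat.sub_zero]
      · rw [mul_zero]

theorem mu_inj [IsDomain R] (j : σ) {d : R} (hd : d ≠ 0) : Function.Injective (mu j d) :=
  fun a b h => MvPolynomial.ext _ _ fun m => mul_left_cancel₀ (pow_ne_zero (m j) hd) (by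
    rw [← coeff_mu, ← coeff_mu, h])

/-- setting the variable `j` to zero -/
theorem mu_zero_sup (j : σ) (a : MvPolynomial σ R) :
    mu j (0 : R) a ∈ supported R ({j}ᶜ : Set σ) :=
  sup_map (s := Set.univ) (by rw [supported_univ]; trivial) fun l _ => by
    by_cases h : l = j
    · rw [h, mu_X, map_zero, zero_mul]; exact zero_mem _
    · rw [mu_X_ne _ h]; exact X_sup h

theorem X_dvd_sub (j : σ) (a : MvPolynomial σ R) : X j ∣ a - mu j (0 : R) a :=
  cong_ext (φ := AlgHom.id R _) (fun l => by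
    by_cases h : l = j
    · rw [h, mu_X, map_zero, zero_mul, sub_zero]; exact dvd_rfl
    · rw [mu_X_ne _ h, AlgHom.id_apply, sub_self]; exact dvd_zero _) a

theorem mu_cong (j : σ) {p d e : R} (h : p ∣ d - e) (a : MvPolynomial σ R) :
    C p ∣ mu j d a - mu j e a := cong_ext (fun l => by
  by_cases hl : l = j
  · rw [hl, mu_X, mu_X, ← sub_mul, ← map_sub]; exact (map_dvd C h).mul_right _
  · rw [mu_X_ne _ hl, mu_X_ne _ hl, sub_self]; exact dvd_zero _) a

/-- dividing the second coordinate -/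
theorem exists_div {j : σ} {d : R} {B : EN σ R} (h : C d ∣ B (X j)) :
    ∃ B' : EN σ R, B = B' * mu j d := by
  obtain ⟨g, hg⟩ := h
  refine ⟨aeval (Function.update (fun l => B (X l)) j g), algHom_ext fun l => ?_⟩
  by_cases hl : l = j
  · rw [hl, EN_mul_apply, mu_X, map_mul, map_CE, aeval_X, Function.update_self, hg]
  · rw [EN_mul_apply, mu_X_ne _ hl, aeval_X, Function.update_of_ne hl]

theorem upd_eq {i j : σ} {φ : EN σ R} (h : ∀ l, l ≠ i → l ≠ j → φ (X l) = X l)
    {q : MvPolynomial σ R} (hq : q ∈ supported R ({j}ᶜ : Set σ)) :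
    aeval (Function.update X i (φ (X i))) q = φ q := sup_eq hq fun l hl => by
  by_cases e : l = i
  · rw [e, aeval_X, Function.update_self]
  · rw [aeval_X, Function.update_of_ne e, h l e hl]

theorem TmS.scale [Nontrivial R] {i j : σ} {f g g' : MvPolynomial σ R} (h : TmS i j f g) {c d : R}
    (hc : c ≠ 0) (hd : d ≠ 0) (e : C d * g' = C c * g) : TmS i j f g' :=
  h.step c d 0 hc hd (zero_mem _) (by rw [map_zero, add_zero, e])

theorem TmS.comp {i j : σ} {φ : EN σ R} (h : ∀ l, l ≠ i → l ≠ j → φ (X l) = X l)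
    (h0 : TmS i j (φ (X i)) (φ (X j))) {f g : MvPolynomial σ R} (H : TmS i j f g) :
    TmS i j (φ f) (φ g) := by
  induction H with
  | base => exact h0
  | swap _ ih => exact ih.swap
  | @step f g g' c d q _ hc hd hq e ih =>
    refine ih.step c d q hc hd hq ?_
    have e1 := congrArg φ e
    rw [map_mul, map_add, map_mul, map_CE, map_CE] at e1
    rw [e1]
    congr 1
    refine sup_eq hq (φ := φ.comp (aeval (Function.update X i f))) fun l hl => ?_
    by_cases e : l = i
    · rw [e, AlgHom.comp_apply, aeval_X, aeval_X, Function.update_self, Function.update_self]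
    · rw [AlgHom.comp_apply, aeval_X, aeval_X, Function.update_of_ne e, Function.update_of_ne e,
        h l e hl]

end

section
variable {σ : Type}

theorem pc_ne_zero (c : ℂ) : pc c ≠ 0 := Polynomial.X_sub_C_ne_zero c

theorem pc_sub (c c' : ℂ) : pc c' - algebraMap ℂ Rt (c - c') = pc c := by
  rw [pc, pc, Polynomial.algebraMap_eq, map_sub]; ring

theorem red_X (c : ℂ) (l : σ) : red c (X l) = X l := map_X _ _

theorem red_C (c : ℂ) (r : Rt) : (red c (C r) : MvPolynomial σ ℂ) = C (r.eval c) := map_C _ _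

theorem red_cc (c a : ℂ) : red c (cc Rt σ a) = C a := by
  rw [cc_eq_C, red_C, Polynomial.algebraMap_eq, Polynomial.eval_C]

theorem red_pc (c : ℂ) : (red c (C (pc c)) : MvPolynomial σ ℂ) = 0 := by
  rw [red_C, pc, Polynomial.eval_sub, Polynomial.eval_X, Polynomial.eval_C, sub_self, map_zero]

theorem lft_X (l : σ) : lft (X l) = X l := map_X _ _

theorem lft_C (a : ℂ) : lft (C a) = cc Rt σ a := map_C _ _

theorem red_lft (c : ℂ) (a : MvPolynomial σ ℂ) : red c (lft a) = a := by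
  induction a using MvPolynomial.induction_on with
  | C r => rw [lft_C, red_cc]
  | add a b ha hb => rw [map_add, map_add, ha, hb]
  | mul_X a l ha => rw [map_mul, map_mul, ha, lft_X, red_X]

theorem dvd_iff_red {c : ℂ} {a : MvPolynomial σ Rt} : C (pc c) ∣ a ↔ red c a = 0 := by
  rw [C_dvd_iff_dvd_coeff, MvPolynomial.ext_iff]
  refine forall_congr' fun m => ?_
  rw [red, coeff_map, coeff_zero]
  exact Polynomial.dvd_iff_isRoot

theorem dvd_sub_lft (c : ℂ) (a : MvPolynomial σ Rt) : C (pc c) ∣ a - lft (red c a) := by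
  rw [dvd_iff_red, map_sub, red_lft, sub_self]

theorem red_pderiv (c : ℂ) (l : σ) (a : MvPolynomial σ Rt) :
    red c (pderiv l a) = pderiv l (red c a) := (pderiv_map).symm

theorem map_sup {R S : Type} [CommRing R] [CommRing S] (f : R →+* S) {s : Set σ}
    {a : MvPolynomial σ R} (h : a ∈ supported R s) : map f a ∈ supported S s := by
  classical
  exact mem_supported.mpr fun _ hl => mem_supported.mp h (vars_map _ _ hl)

theorem redE_X (c : ℂ) (φ : EN σ Rt) (l : σ) : redE c φ (X l) = red c (φ (X l)) := aeval_X _ _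

theorem redE_red (c : ℂ) (φ : EN σ Rt) (a : MvPolynomial σ Rt) :
    redE c φ (red c a) = red c (φ a) := by
  induction a using MvPolynomial.induction_on with
  | C r => rw [map_CE, red_C, map_CE]
  | add a b ha hb => simp only [map_add, ha, hb]
  | mul_X a l ha => simp only [map_mul, ha, red_X, redE_X]

theorem redE_mul (c : ℂ) (φ ψ : EN σ Rt) : redE c (φ * ψ) = redE c φ * redE c ψ :=
  algHom_ext fun l => by rw [EN_mul_apply, redE_X, redE_X, redE_red, EN_mul_apply]

theorem redE_one (c : ℂ) : redE c (1 : EN σ Rt) = 1 :=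
  algHom_ext fun l => by rw [redE_X, AlgHom.one_apply, red_X, AlgHom.one_apply]

theorem redE_inv (c : ℂ) {α β : GA σ Rt} (h : α * β = 1) :
    (redE c (α : EN σ Rt)).comp (redE c (β : EN σ Rt)) = AlgHom.id ℂ _ := algHom_ext fun l => by
  rw [AlgHom.comp_apply, redE_X, redE_red, coe_apply, coe_apply, ← AlgEquiv.mul_apply, h,
    AlgEquiv.one_apply, red_X, AlgHom.id_apply]

/-- reduction of an automorphism -/
theorem exists_redA (c : ℂ) (α : GA σ Rt) : ∃ β : GA σ ℂ, ∀ a, β (red c a) = red c (α a) :=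
  ⟨AlgEquiv.ofAlgHom _ _ (redE_inv c (mul_inv_cancel α)) (redE_inv c (inv_mul_cancel α)),
    fun a => redE_red c (α : EN σ Rt) a⟩

theorem not_dvd_aut (c : ℂ) (α : GA σ Rt) (l : σ) : ¬ C (pc c) ∣ α (X l) := fun h => by
  have := map_dvd (α⁻¹ : GA σ Rt) h
  rw [map_C', inv_apply_apply, dvd_iff_red, red_X] at this
  exact X_ne_zero l this

theorem io_X (l : σ) : io (X l) = X l := map_X _ _

theorem io_C (r : Rt) : (io (C r) : MvPolynomial σ (RatFunc ℂ)) = C (algebraMap Rt _ r) :=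
  map_C _ _

theorem io_inj : Function.Injective (io (σ := σ)) :=
  map_injective _ (IsFractionRing.injective Rt (RatFunc ℂ))

theorem poly_ind {P : Rt → Prop} (h0 : ∀ a : ℂˣ, P (algebraMap ℂ Rt a))
    (h1 : ∀ (c : ℂ) (d : Rt), d ≠ 0 → P d → P (d * pc c)) {d : Rt} (hd : d ≠ 0) : P d := by
  induction h : d.natDegree using Nat.strong_induction_on generalizing d with
  | _ n ih =>
    by_cases e : d.degree = 0
    · have e1 := Polynomial.eq_C_of_degree_eq_zero e
      have e2 : d.coeff 0 ≠ 0 := fun e2 => hd (by rw [e1, e2, map_zero])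
      rw [e1]
      exact h0 (Units.mk0 _ e2)
    · obtain ⟨c, hc⟩ := IsAlgClosed.exists_root d e
      obtain ⟨d', rfl⟩ := Polynomial.dvd_iff_isRoot.mpr hc
      have hd' : d' ≠ 0 := right_ne_zero_of_mul hd
      rw [mul_comm]
      refine h1 c d' hd' (ih _ ?_ hd' rfl)
      rw [← h, Polynomial.natDegree_mul (Polynomial.X_sub_C_ne_zero c) hd',
        Polynomial.natDegree_X_sub_C]
      omega

variable [Fintype σ] [DecidableEq σ] {i j : σ}

theorem shs_X {l : σ} {G : MvPolynomial σ Rt} (h : G ∈ supported Rt ({l}ᶜ : Set σ)) :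
    sh (Pi.single l (1 : ℂ)) G (X l) = X l + G := by
  rw [sh_X (by rwa [Au_single]), Pi.single_eq_same, map_one, one_mul]

theorem shs_X_ne {l m : σ} {G : MvPolynomial σ Rt} (h : G ∈ supported Rt ({l}ᶜ : Set σ))
    (e : m ≠ l) : sh (Pi.single l (1 : ℂ)) G (X m) = X m := by
  rw [sh_X (by rwa [Au_single]), Pi.single_eq_of_ne e, map_zero, zero_mul, add_zero]

theorem shs_mem_P2 {l : σ} (hl : l = i ∨ l = j) {G : MvPolynomial σ Rt}
    (h : G ∈ supported Rt ({l}ᶜ : Set σ)) : sh (Pi.single l (1 : ℂ)) G ∈ P2 i j :=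
  Subgroup.subset_closure (Or.inl ⟨l, G, hl, h, rfl⟩)

theorem dg_mem_P2 {a : σ → ℂˣ} (h : ∀ l, l ≠ i → l ≠ j → a l = 1) : dg Rt a ∈ P2 i j :=
  Subgroup.subset_closure (Or.inr ⟨a, h, rfl⟩)

theorem P2_le {Γ : Subgroup (GA σ Rt)} (h1 : ∀ l, l = i ∨ l = j →
    ∀ G ∈ supported Rt ({l}ᶜ : Set σ), sh (Pi.single l (1 : ℂ)) G ∈ Γ)
    (h2 : ∀ a : σ → ℂˣ, (∀ l, l ≠ i → l ≠ j → a l = 1) → dg Rt a ∈ Γ) : P2 i j ≤ Γ := by
  refine (Subgroup.closure_le _).mpr ?_
  rintro _ (⟨l, G, hl, hG, rfl⟩ | ⟨a, ha, rfl⟩)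
  · exact h1 l hl G hG
  · exact h2 a ha

theorem mem_HH {α : GA σ Rt} : α ∈ HH i j ↔ α ∈ TT ℂ Rt σ ∧ α ∈ Fx Rt i j ∧
    ∀ c : ℂ, α ∈ Kc σ (pc c) ⊔ P2 i j := by
  rw [HH, Subgroup.mem_inf, Subgroup.mem_inf, Subgroup.mem_iInf, and_assoc]

theorem P2_le_HH : P2 i j ≤ HH i j := by
  refine le_inf (le_inf (P2_le (fun l _ G hG => sh_mem_TT (by rwa [Au_single]))
    fun a _ => dg_mem_TT a) (P2_le (fun l hl G hG m h1 h2 => shs_X_ne hG ?_) fun a ha l h1 h2 => ?_))
    (le_iInf fun _ => le_sup_right)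
  · rcases hl with rfl | rfl
    · exact h1
    · exact h2
  · rw [dg_X, ha l h1 h2, Units.val_one, map_one, one_mul]

theorem mu_unit (j : σ) (a : ℂˣ) :
    mu j (algebraMap ℂ Rt a) = (dg Rt (Function.update 1 j a) : EN σ Rt) := algHom_ext fun l => by
  by_cases h : l = j
  · rw [h, mu_X, coe_apply, dg_X, Function.update_self, cc_eq_C]
  · rw [mu_X_ne _ h, coe_apply, dg_X, Function.update_of_ne h, Pi.one_apply, Units.val_one,
      map_one, one_mul]

theorem dgu_mem_P2 (a : ℂˣ) : dg Rt (Function.update 1 j a) ∈ P2 i j :=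
  dg_mem_P2 fun _ _ h => Function.update_of_ne h _ _

/-- triangular maps -/
theorem exists_tri (hij : i ≠ j) (a b : ℂˣ) {G : MvPolynomial σ Rt}
    (h : G ∈ supported Rt ({i}ᶜ : Set σ)) : ∃ τ ∈ P2 i j, τ (X i) = cc Rt σ (a : ℂ) * X i + G ∧
      τ (X j) = cc Rt σ (b : ℂ) * X j := by
  have h' : cc Rt σ ((a⁻¹ : ℂˣ) : ℂ) * G ∈ supported Rt ({i}ᶜ : Set σ) := mul_mem (cc_mem _ _) h
  refine ⟨sh (Pi.single i (1 : ℂ)) _ * dg Rt (Function.update (Function.update 1 i a) j b),
    mul_mem (shs_mem_P2 (Or.inl rfl) h') (dg_mem_P2 fun l h1 h2 => ?_), ?_, ?_⟩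
  · rw [Function.update_of_ne h2, Function.update_of_ne h1, Pi.one_apply]
  · rw [AlgEquiv.mul_apply, dg_X, map_mul, map_cc', shs_X h', Function.update_of_ne hij,
      Function.update_self, mul_add, ← mul_assoc, ← map_mul, Units.mul_inv, map_one, one_mul]
  · rw [AlgEquiv.mul_apply, dg_X, map_mul, map_cc', shs_X_ne h' hij.symm, Function.update_self]

theorem exists_swap (hij : i ≠ j) : ∃ s ∈ P2 i j, s (X i) = X j ∧ s (X j) = X i := by
  have h1 : (X j : MvPolynomial σ Rt) ∈ supported Rt ({i}ᶜ : Set σ) := X_sup hij.symm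
  have h2 : (-X i : MvPolynomial σ Rt) ∈ supported Rt ({j}ᶜ : Set σ) := neg_mem (X_sup hij)
  refine ⟨sh (Pi.single i (1 : ℂ)) (X j) * sh (Pi.single j (1 : ℂ)) (-X i) *
    sh (Pi.single i (1 : ℂ)) (X j) * dg Rt (Function.update 1 j (-1)),
    mul_mem (mul_mem (mul_mem (shs_mem_P2 (Or.inl rfl) h1) (shs_mem_P2 (Or.inr rfl) h2))
      (shs_mem_P2 (Or.inl rfl) h1)) (dgu_mem_P2 _), ?_, ?_⟩
  · simp only [AlgEquiv.mul_apply, dg_X, Function.update_of_ne hij, Pi.one_apply, Units.val_one,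
      map_one, one_mul, shs_X h1, shs_X h2, shs_X_ne h1 hij.symm, shs_X_ne h2 hij, map_add, map_neg]
    ring
  · simp only [AlgEquiv.mul_apply, dg_X, Function.update_self, Units.val_neg, Units.val_one,
      map_one, map_mul, shs_X h1, shs_X h2, shs_X_ne h1 hij.symm, map_add, map_neg]
    ring

theorem Mon.mul {r : ℕ} {B : EN σ Rt} (h : Mon i j r B) {α : GA σ Rt} (hα : α ∈ HH i j) :
    Mon i j r (B * (α : EN σ Rt)) := by
  cases h with
  | base hβ => rw [← coe_mul]; exact Mon.base (mul_mem hβ hα)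
  | step c hB hβ => rw [mul_assoc, ← coe_mul]; exact Mon.step c hB (mul_mem hβ hα)

theorem Mon.mu {r : ℕ} {B : EN σ Rt} (h : Mon i j r B) (c : ℂ) :
    Mon i j (r + 1) (B * mu j (pc c)) := by
  have := Mon.step c h (one_mem _)
  rwa [coe_one, mul_one] at this

theorem Mon.fix {r : ℕ} {B : EN σ Rt} (h : Mon i j r B) (l : σ) (h1 : l ≠ i) (h2 : l ≠ j) :
    B (X l) = X l := by
  induction h with
  | base hβ => exact (mem_HH.mp hβ).2.1 l h1 h2
  | step c _ hβ ih =>
    rw [EN_mul_apply, EN_mul_apply, coe_apply, (mem_HH.mp hβ).2.1 l h1 h2, mu_X_ne _ h2, ih]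

theorem Mon.inj {r : ℕ} {B : EN σ Rt} (h : Mon i j r B) : Function.Injective B := by
  induction h with
  | @base α _ => exact α.injective
  | @step r B c α _ _ ih => exact (ih.comp (mu_inj j (pc_ne_zero c))).comp α.injective

theorem aut_ne_mu (α : GA σ Rt) (B : EN σ Rt) (c : ℂ) : (α : EN σ Rt) ≠ B * mu j (pc c) :=
  fun h => not_dvd_aut c α j (by
    rw [← coe_apply, h, EN_mul_apply, mu_X, map_mul, map_CE]; exact Dvd.intro _ rfl)

theorem Mon.aut {r : ℕ} {B : EN σ Rt} (h : Mon i j r B) {φ : GA σ Rt} (e : (φ : EN σ Rt) = B) :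
    φ ∈ HH i j := by
  cases h with
  | base hβ => rwa [AlgEquiv.coe_toAlgHom_injective e]
  | @step r B c α _ _ =>
    refine absurd ?_ (aut_ne_mu (j := j) (φ * α⁻¹) B c)
    rw [coe_mul, e, mul_assoc, ← coe_mul, mul_inv_cancel, coe_one, mul_one]

theorem NC_aut (hij : i ≠ j) {φ : GA σ Rt} (h : φ ∈ Fx Rt i j) (c : ℂ) {l : σ}
    (hl : l = i ∨ l = j) : NC i j (pc c) (φ (X l)) := fun e => by
  have h1 := chain2 hij ((φ⁻¹ : GA σ Rt) : EN σ Rt) (inv_mem h) hl (φ (X l))
  rw [coe_apply, inv_apply_apply, pderiv_X_self] at h1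
  have h2 : (C (pc c) : MvPolynomial σ Rt) ∣ 1 := by
    rw [h1]
    refine dvd_add (Dvd.dvd.mul_right ?_ _) (Dvd.dvd.mul_right ?_ _)
    · simpa only [map_CE] using map_dvd ((φ⁻¹ : GA σ Rt) : EN σ Rt) e.1
    · simpa only [map_CE] using map_dvd ((φ⁻¹ : GA σ Rt) : EN σ Rt) e.2
  rw [dvd_iff_red, map_one] at h2
  exact one_ne_zero h2

end

end Pool.Agent.Lib.ST61
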